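import Mathlib
import Pool.Prelude.Def_F_d420a142

set_option autoImplicit false

open N62f3cee0
open scoped Gradient Topology

namespace Pool.Agent.Helper710.Eqb

/-- three dimensional Euclidean space -/
abbrev E3 := EuclideanSpace ℝ (Fin 3)

/-- `x` is a non-degenerate critical point of `F` -/
def Good (F : E3 → ℝ) (x : E3) : Prop :=
  fderiv ℝ F x = 0 ∧ ∀ v, fderiv ℝ (fderiv ℝ F) x v = 0 → v = 0

/-- the complex coordinate `x_i + I x_0` -/
noncomputable def W (i : Fin 3) (x : E3) : ℂ := ⟨x i, x 0⟩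

/-- the function `(1-y)^(-1/2)` -/
noncomputable def f0 (y : ℝ) : ℝ := (Real.sqrt (1 - y))⁻¹

/-- the `J`-th roots of unity, `J = 2 D + 1` -/
noncomputable def om (D j : ℕ) : ℂ :=
  Complex.exp (((2 * Real.pi * (j : ℝ) / ((2 * D + 1 : ℕ) : ℝ) : ℝ) : ℂ) * Complex.I)

/-- the unit vector `Re(om) e_i + Im(om) e_0` -/
noncomputable def uu (D : ℕ) (i : Fin 3) (j : ℕ) : E3 :=
  EuclideanSpace.single i (om D j).re + EuclideanSpace.single 0 (om D j).im

/-- field of the charge `j` -/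
noncomputable def kk {n : ℕ} (a : Fin n → E3) (j : Fin n) (x : E3) : E3 :=
  ((dist x (a j)) ^ 3)⁻¹ • (a j - x)

end Pool.Agent.Helper710.Eqb
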