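import Pool.Agent.Helper710.EqDefs

set_option autoImplicit false

open N62f3cee0
open scoped Gradient Topology

namespace Pool.Agent.Helper710.Eqb

theorem generic_local {n : ℕ} (k : Fin n → E3 → E3) (x0 : E3)
    (hk : ∀ j, ContDiffAt ℝ 1 (k j) x0)
    (hs : Submodule.span ℝ (Set.range (fun j => k j x0)) = ⊤) :
    ∃ K ∈ 𝓝 x0, IsCompact K ∧ Dense {q : Fin n → ℝ | ∀ x ∈ K, ∑ j, q j • k j x = 0 →
      ∀ v, fderiv ℝ (fun x => ∑ j, q j • k j x) x v = 0 → v = 0} := by
  classical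
  -- the operator `A x`
  set A : E3 → (Fin n → ℝ) →L[ℝ] E3 := fun x =>
    ∑ j, (ContinuousLinearMap.proj (R := ℝ) (φ := fun _ : Fin n => ℝ) j).smulRight (k j x) with hA
  have hAapp : ∀ x q, A x q = ∑ j, q j • k j x := by
    intro x q
    simp only [hA, sum_apply]
    rfl
  have hAsurj : Function.Surjective (A x0) := by
    intro y
    have hy : y ∈ Submodule.span ℝ (Set.range (fun j => k j x0)) := by
      rw [hs]; exact Submodule.mem_top
    obtain ⟨c, hc⟩ := (Submodule.mem_span_range_iff_exists_fun ℝ).1 hy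
    exact ⟨c, by rw [hAapp]; exact hc⟩
  obtain ⟨B0, hB0⟩ := (A x0 : (Fin n → ℝ) →ₗ[ℝ] E3).exists_rightInverse_of_surjective
    (LinearMap.range_eq_top.2 hAsurj)
  set B : E3 →L[ℝ] (Fin n → ℝ) := LinearMap.toContinuousLinearMap B0 with hB
  set M : E3 → E3 →L[ℝ] E3 := fun x => (A x).comp B with hM
  have hM0 : M x0 = 1 := by
    ext1 s
    have := congrArg (fun f => f s) hB0
    exact this
  have hAC : ∀ x, (∀ j, ContDiffAt ℝ 1 (k j) x) → ContDiffAt ℝ 1 A x := by
    intro x hx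
    simp only [hA]
    apply ContDiffAt.sum
    intro j _
    exact ((ContinuousLinearMap.smulRightL ℝ (Fin n → ℝ) E3
      (ContinuousLinearMap.proj (R := ℝ) (φ := fun _ : Fin n => ℝ) j)).contDiff.contDiffAt).comp x
      (hx j)
  have hMC : ∀ x, (∀ j, ContDiffAt ℝ 1 (k j) x) → ContDiffAt ℝ 1 M x := by
    intro x hx
    exact (hAC x hx).clm_comp contDiffAt_const
  have hunit0 : ∀ᶠ x in 𝓝 x0, IsUnit (M x) := by
    have h1 : IsOpen {T : E3 →L[ℝ] E3 | IsUnit T} := Units.isOpen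
    have h2 : ContinuousAt M x0 := (hMC x0 hk).continuousAt
    apply h2.eventually
    apply h1.mem_nhds
    change IsUnit (M x0)
    rw [hM0]
    exact isUnit_one
  have hk' : ∀ᶠ x in 𝓝 x0, ∀ j, ContDiffAt ℝ 1 (k j) x := by
    rw [Filter.eventually_all]
    intro j
    exact (hk j).eventually (by simp)
  obtain ⟨r, hr, hball⟩ := Metric.eventually_nhds_iff_ball.1 (hunit0.and hk')
  have hKsub : Metric.closedBall x0 (r / 2) ⊆ Metric.ball x0 r :=
    Metric.closedBall_subset_ball (by linarith)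
  refine ⟨Metric.closedBall x0 (r / 2), Metric.closedBall_mem_nhds x0 (by positivity),
    isCompact_closedBall x0 _, ?_⟩
  intro q0
  rw [Metric.mem_closure_iff]
  intro ε hε
  set G : E3 → E3 := fun x => -((Ring.inverse (M x)) (A x q0)) with hG
  have hGd : ∀ x ∈ Metric.ball x0 r, DifferentiableAt ℝ G x := by
    intro x hx
    obtain ⟨⟨u, hu⟩, hkx⟩ := hball x hx
    have h1 : ContDiffAt ℝ 1 (fun y => Ring.inverse (M y)) x := by
      have h2 : ContDiffAt ℝ 1 (Ring.inverse : (E3 →L[ℝ] E3) → (E3 →L[ℝ] E3)) (M x) := by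
        rw [← hu]
        exact contDiffAt_ringInverse ℝ u
      exact h2.comp x (hMC x hkx)
    have h3 : ContDiffAt ℝ 1 (fun y => A y q0) x := (hAC x hkx).clm_apply contDiffAt_const
    have h4 : ContDiffAt ℝ 1 G x := (h1.clm_apply h3).neg
    exact h4.differentiableAt (by norm_num)
  have hMG : ∀ x ∈ Metric.ball x0 r, M x (G x) = -(A x q0) := by
    intro x hx
    have hu := (hball x hx).1
    have h1 : (M x * Ring.inverse (M x)) (A x q0) = A x q0 := by
      rw [Ring.mul_inverse_cancel _ hu]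
      rfl
    have h2 : M x (Ring.inverse (M x) (A x q0)) = A x q0 := h1
    simp only [hG, map_neg]
    rw [h2]
  have hinj : ∀ x ∈ Metric.ball x0 r, ∀ w, M x w = 0 → w = 0 := by
    intro x hx w hw
    have hu := (hball x hx).1
    have h1 : (Ring.inverse (M x) * M x) w = w := by
      rw [Ring.inverse_mul_cancel _ hu]
      rfl
    rw [← h1]
    change Ring.inverse (M x) (M x w) = 0
    rw [hw, map_zero]
  -- Sard
  set Cs : Set E3 := {x ∈ Metric.closedBall x0 (r / 2) | (fderiv ℝ G x).det = 0} with hCs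
  have hnull : MeasureTheory.volume (G '' Cs) = 0 := by
    apply MeasureTheory.addHaar_image_eq_zero_of_det_fderivWithin_eq_zero MeasureTheory.volume
      (f' := fderiv ℝ G)
    · intro x hx
      exact (hGd x (hKsub hx.1)).hasFDerivAt.hasFDerivWithinAt
    · intro x hx
      exact hx.2
  have hdense : Dense (G '' Cs)ᶜ := by
    rw [← interior_eq_empty_iff_dense_compl]
    exact MeasureTheory.Measure.interior_eq_empty_of_null hnull
  have hBc : ContinuousAt B 0 := B.continuous.continuousAt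
  rw [Metric.continuousAt_iff] at hBc
  obtain ⟨δ, hδ, hBδ⟩ := hBc ε hε
  obtain ⟨s, hs1, hs2⟩ := Metric.mem_closure_iff.1 (hdense 0) δ hδ
  refine ⟨q0 + B s, ?_, ?_⟩
  swap
  · have h1 := hBδ (by rw [dist_comm]; exact hs2)
    rw [map_zero, dist_zero_right] at h1
    rw [dist_eq_norm, sub_add_cancel_left, norm_neg]
    exact h1
  · intro x hx hzero v hv
    have hxb := hKsub hx
    have hF : ∀ y ∈ Metric.ball x0 r, ∑ j, (q0 + B s) j • k j y = M y (s - G y) := by
      intro y hy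
      rw [← hAapp, map_add, map_sub, hMG y hy, sub_neg_eq_add, add_comm]
      rfl
    have hsG : s - G x = 0 := by
      apply hinj x hxb
      rw [← hF x hxb]
      exact hzero
    have hdet : (fderiv ℝ G x).det ≠ 0 := by
      intro h0
      apply hs1
      exact ⟨x, ⟨hx, h0⟩, (sub_eq_zero.1 hsG).symm⟩
    have hkx := (hball x hxb).2
    have hMd : DifferentiableAt ℝ M x := (hMC x hkx).differentiableAt (by norm_num)
    have hder := hMd.hasFDerivAt.clm_apply ((hGd x hxb).hasFDerivAt.const_sub s)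
    have heq : (fun y => ∑ j, (q0 + B s) j • k j y) =ᶠ[𝓝 x] fun y => M y (s - G y) := by
      filter_upwards [Metric.isOpen_ball.mem_nhds hxb] with y hy
      exact hF y hy
    rw [heq.fderiv_eq, hder.fderiv, hsG] at hv
    have hv2 : M x (-(fderiv ℝ G x v)) = 0 := by
      have h5 : (((M x).comp (-fderiv ℝ G x)) + (fderiv ℝ M x).flip 0) v =
          M x (-(fderiv ℝ G x v)) := by
        simp
      rw [← h5]
      exact hv
    have hv3 := hinj x hxb _ hv2
    rw [neg_eq_zero] at hv3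
    -- injectivity of the derivative
    by_contra hvne
    apply hdet
    have h6 : (fderiv ℝ G x : E3 →ₗ[ℝ] E3).det = 0 := by
      rw [LinearMap.det_eq_zero_iff_ker_ne_bot, Submodule.ne_bot_iff]
      exact ⟨v, hv3, hvne⟩
    exact h6

theorem generic_open {n : ℕ} (k : Fin n → E3 → E3) (U : Set E3) (hU : IsOpen U)
    (hk : ∀ j, ContDiffOn ℝ 1 (k j) U) (K : Set E3) (hK : IsCompact K) (hKU : K ⊆ U) :
    IsOpen {q : Fin n → ℝ | ∀ x ∈ K, ∑ j, q j • k j x = 0 →
      ∀ v, fderiv ℝ (fun x => ∑ j, q j • k j x) x v = 0 → v = 0} := by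
  have hder : ∀ (q : Fin n → ℝ), ∀ x ∈ K, ∀ v, fderiv ℝ (fun x => ∑ j, q j • k j x) x v
      = ∑ j, q j • (fderiv ℝ (k j) x v) := by
    intro q x hx v
    have hd : ∀ j, DifferentiableAt ℝ (k j) x := fun j =>
      ((hk j).differentiableOn one_ne_zero).differentiableAt (hU.mem_nhds (hKU hx))
    have h1 : HasFDerivAt (fun x => ∑ j, q j • k j x) (∑ j, q j • fderiv ℝ (k j) x) x := by
      apply HasFDerivAt.fun_sum
      intro j _
      exact ((hd j).hasFDerivAt).const_smul (q j)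
    rw [h1.fderiv]
    simp
  rw [isOpen_iff_mem_nhds]
  intro q₀ hq₀
  have hC : IsCompact (K ×ˢ Metric.sphere (0 : E3) 1) := hK.prod (isCompact_sphere 0 1)
  have key : ∀ᶠ q in 𝓝 q₀, ∀ p ∈ K ×ˢ Metric.sphere (0 : E3) 1,
      (∑ j, q j • k j p.1 ≠ 0) ∨ (∑ j, q j • (fderiv ℝ (k j) p.1 p.2) ≠ 0) := by
    apply hC.eventually_forall_of_forall_eventually
    rintro ⟨x₀, v₀⟩ ⟨hx₀, hv₀⟩
    have hxU : U ∈ 𝓝 x₀ := hU.mem_nhds (hKU hx₀)
    have hqc : ∀ j, ContinuousAt (fun z : (Fin n → ℝ) × (E3 × E3) => z.1 j) (q₀, (x₀, v₀)) := by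
      intro j
      fun_prop
    by_cases h0 : ∑ j, q₀ j • k j x₀ = 0
    · have hne : ∑ j, q₀ j • (fderiv ℝ (k j) x₀ v₀) ≠ 0 := by
        intro h
        have := hq₀ x₀ hx₀ h0 v₀ (by rw [hder q₀ x₀ hx₀]; exact h)
        rw [this] at hv₀
        simp at hv₀
      have hct : ContinuousAt (fun z : (Fin n → ℝ) × (E3 × E3) =>
          ∑ j, z.1 j • (fderiv ℝ (k j) z.2.1 z.2.2)) (q₀, (x₀, v₀)) := by
        apply tendsto_finsetSum
        intro j _
        refine ContinuousAt.smul (hqc j) ?_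
        have hf : ContinuousAt (fderiv ℝ (k j)) x₀ :=
          ((hk j).continuousOn_fderiv_of_isOpen hU le_rfl).continuousAt hxU
        have hf2 : ContinuousAt (fun z : (Fin n → ℝ) × (E3 × E3) => fderiv ℝ (k j) z.2.1)
            (q₀, (x₀, v₀)) := by
          refine ContinuousAt.comp (f := fun z : (Fin n → ℝ) × (E3 × E3) => z.2.1)
            (g := fderiv ℝ (k j)) ?_ ?_
          · exact hf
          · fun_prop
        have hf3 : ContinuousAt (fun z : (Fin n → ℝ) × (E3 × E3) => z.2.2) (q₀, (x₀, v₀)) := by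
          fun_prop
        exact hf2.clm_apply hf3
      filter_upwards [hct.eventually_ne hne] with z hz
      exact Or.inr hz
    · have hct : ContinuousAt (fun z : (Fin n → ℝ) × (E3 × E3) =>
          ∑ j, z.1 j • (k j z.2.1)) (q₀, (x₀, v₀)) := by
        apply tendsto_finsetSum
        intro j _
        refine ContinuousAt.smul (hqc j) ?_
        have hf : ContinuousAt (k j) x₀ := ((hk j).continuousOn).continuousAt hxU
        refine ContinuousAt.comp (f := fun z : (Fin n → ℝ) × (E3 × E3) => z.2.1)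
            (g := k j) ?_ ?_
        · exact hf
        · fun_prop
      filter_upwards [hct.eventually_ne h0] with z hz
      exact Or.inl hz
  filter_upwards [key] with q hq x hx hx0 v hv
  by_contra hvne
  have hn : ‖v‖ ≠ 0 := norm_ne_zero_iff.2 hvne
  have h1 := hq (x, ‖v‖⁻¹ • v) ⟨hx, by
    rw [mem_sphere_zero_iff_norm, norm_smul, norm_inv, norm_norm, inv_mul_cancel₀ hn]⟩
  rcases h1 with h1 | h1
  · exact h1 hx0
  · apply h1
    have h2 := hder q x hx (‖v‖⁻¹ • v)
    rw [map_smul, hv, smul_zero] at h2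
    exact h2.symm

/-- TARGET -/
theorem generic_residual {n : ℕ} (k : Fin n → E3 → E3) (U : Set E3) (hU : IsOpen U)
    (hk : ∀ j, ContDiffOn ℝ 1 (k j) U)
    (hs : ∀ x ∈ U, Submodule.span ℝ (Set.range (fun j => k j x)) = ⊤) :
    {q : Fin n → ℝ | ∀ x ∈ U, ∑ j, q j • k j x = 0 →
      ∀ v, fderiv ℝ (fun x => ∑ j, q j • k j x) x v = 0 → v = 0} ∈ residual (Fin n → ℝ) := by
  have h1 : ∀ x ∈ U, ∃ K : Set E3, K ∈ 𝓝 x ∧ K ⊆ U ∧ IsCompact K ∧
      Dense {q : Fin n → ℝ | ∀ x ∈ K, ∑ j, q j • k j x = 0 →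
        ∀ v, fderiv ℝ (fun x => ∑ j, q j • k j x) x v = 0 → v = 0} := by
    intro x hx
    obtain ⟨K, hK, hKc, hKd⟩ := generic_local k x
      (fun j => (hk j).contDiffAt (hU.mem_nhds hx)) (hs x hx)
    obtain ⟨s, hs1, hs2, hs3⟩ := local_compact_nhds (Filter.inter_mem hK (hU.mem_nhds hx))
    refine ⟨s, hs1, fun y hy => (hs2 hy).2, hs3, hKd.mono ?_⟩
    intro q hq y hy
    exact hq y (hs2 hy).1
  choose! K hK using h1
  obtain ⟨t, htU, htc, htcov⟩ := TopologicalSpace.countable_cover_nhdsWithin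
    (f := K) (s := U) (fun x hx => mem_nhdsWithin_of_mem_nhds (hK x hx).1)
  have h2 : (⋂ x ∈ t, {q : Fin n → ℝ | ∀ y ∈ K x, ∑ j, q j • k j y = 0 →
        ∀ v, fderiv ℝ (fun x => ∑ j, q j • k j x) y v = 0 → v = 0}) ∈ residual (Fin n → ℝ) := by
    refine (countable_bInter_mem htc).2 fun x hx => ?_
    exact residual_of_dense_open
      (generic_open k U hU hk (K x) (hK x (htU hx)).2.2.1 (hK x (htU hx)).2.1)
      (hK x (htU hx)).2.2.2
  refine Filter.mem_of_superset h2 ?_
  intro q hq y hy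
  obtain ⟨x, hxt, hxy⟩ := Set.mem_iUnion₂.1 (htcov hy)
  exact (Set.mem_iInter₂.1 hq x hxt) y hxy

end Pool.Agent.Helper710.Eqb
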