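import Pool.Agent.Helper710.EqLemB

set_option autoImplicit false

open N62f3cee0
open scoped Gradient Topology

namespace Pool.Agent.Helper710.Eqb

theorem om_re (D j : ℕ) : (om D j).re = Real.cos (2 * Real.pi * (j : ℝ) / ((2 * D + 1 : ℕ) : ℝ)) := by
  unfold om
  rw [Complex.exp_ofReal_mul_I_re]

theorem om_im (D j : ℕ) : (om D j).im = Real.sin (2 * Real.pi * (j : ℝ) / ((2 * D + 1 : ℕ) : ℝ)) := by
  unfold om
  rw [Complex.exp_ofReal_mul_I_im]

theorem ring_aux (D : ℕ) (hD : 1 ≤ D) (i : Fin 3) (s : ℝ) (hs : s ≠ 0) (x : E3)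
    (M : Submodule ℝ E3) (hM : ∀ j : ℕ, j < 2 * D + 1 → s • uu D i j - x ∈ M) :
    (EuclideanSpace.single 0 1 : E3) ∈ M ∧ (EuclideanSpace.single i 1 : E3) ∈ M := by
  set t : ℝ := 2 * Real.pi / ((2 * D + 1 : ℕ) : ℝ) with ht
  have hpi := Real.pi_pos
  have hD' : (1:ℝ) ≤ D := by exact_mod_cast hD
  have hden : (3:ℝ) ≤ ((2 * D + 1 : ℕ) : ℝ) := by push_cast; linarith
  have hden0 : ((2 * D + 1 : ℕ) : ℝ) ≠ 0 := by positivity
  have ht0 : 0 < t := by rw [ht]; positivity
  have htpi : t < Real.pi := by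
    rw [ht, div_lt_iff₀ (by positivity)]
    nlinarith
  have hsin : 0 < Real.sin t := Real.sin_pos_of_pos_of_lt_pi ht0 htpi
  have hcos : Real.cos t < 1 := by
    have := Real.sin_sq_add_cos_sq t
    nlinarith
  have r0 : (om D 0).re = 1 := by rw [om_re]; simp
  have i0 : (om D 0).im = 0 := by rw [om_im]; simp
  have r1 : (om D 1).re = Real.cos t := by rw [om_re, ht]; simp
  have i1 : (om D 1).im = Real.sin t := by rw [om_im, ht]; simp
  have e2 : 2 * Real.pi * ((2 * D : ℕ) : ℝ) / ((2 * D + 1 : ℕ) : ℝ) = 2 * Real.pi - t := by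
    rw [ht]
    field_simp
    push_cast
    ring
  have r2 : (om D (2 * D)).re = Real.cos t := by
    rw [om_re, e2, Real.cos_two_pi_sub]
  have i2 : (om D (2 * D)).im = - Real.sin t := by
    rw [om_im, e2, Real.sin_two_pi_sub]
  have hsub : ∀ j k : ℕ, j < 2 * D + 1 → k < 2 * D + 1 → s • (uu D i j - uu D i k) ∈ M := by
    intro j k hj hk
    have h := M.sub_mem (hM j hj) (hM k hk)
    have e : s • uu D i j - x - (s • uu D i k - x) = s • (uu D i j - uu D i k) := by
      rw [smul_sub]; abel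
    rwa [e] at h
  have hsub' : ∀ j k : ℕ, j < 2 * D + 1 → k < 2 * D + 1 → uu D i j - uu D i k ∈ M := by
    intro j k hj hk
    exact (M.smul_mem_iff hs).1 (hsub j k hj hk)
  have hone : ∀ (k : Fin 3) (c : ℝ), (EuclideanSpace.single k c : E3) =
      c • (EuclideanSpace.single k 1 : E3) := by
    intro k c
    ext m
    simp
  have h0 : (EuclideanSpace.single 0 1 : E3) ∈ M := by
    have h := hsub' 1 (2 * D) (by omega) (by omega)
    have e : uu D i 1 - uu D i (2 * D) = (2 * Real.sin t) • (EuclideanSpace.single 0 1 : E3) := by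
      unfold uu
      rw [r1, i1, r2, i2, hone 0 (Real.sin t), hone 0 (-Real.sin t)]
      module
    rw [e] at h
    exact (M.smul_mem_iff (by positivity)).1 h
  refine ⟨h0, ?_⟩
  have h := hsub' 0 1 (by omega) (by omega)
  have e : uu D i 0 - uu D i 1 = (1 - Real.cos t) • (EuclideanSpace.single i 1 : E3) -
      Real.sin t • (EuclideanSpace.single 0 1 : E3) := by
    unfold uu
    rw [r0, i0, r1, i1, hone 0 (Real.sin t), hone i (Real.cos t), hone 0 0]
    module
  rw [e] at h
  have h2 := M.add_mem h (M.smul_mem (Real.sin t) h0)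
  rw [sub_add_cancel] at h2
  exact (M.smul_mem_iff (by linarith)).1 h2

theorem ring_span (D : ℕ) (hD : 1 ≤ D) (s s' : ℝ) (hs : s ≠ 0) (hs' : s' ≠ 0) (x : E3) :
    Submodule.span ℝ (Set.range (fun j : Fin (2 * D + 1) => s • uu D 1 j - x) ∪
      Set.range (fun j : Fin (2 * D + 1) => s' • uu D 2 j - x)) = ⊤ := by
  set M := Submodule.span ℝ (Set.range (fun j : Fin (2 * D + 1) => s • uu D 1 j - x) ∪
      Set.range (fun j : Fin (2 * D + 1) => s' • uu D 2 j - x)) with hM
  obtain ⟨h0, h1⟩ := ring_aux D hD 1 s hs x M (fun j hj =>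
    Submodule.subset_span (Or.inl ⟨⟨j, hj⟩, rfl⟩))
  obtain ⟨_, h2⟩ := ring_aux D hD 2 s' hs' x M (fun j hj =>
    Submodule.subset_span (Or.inr ⟨⟨j, hj⟩, rfl⟩))
  rw [eq_top_iff]
  intro v _
  have e : v = v 0 • (EuclideanSpace.single 0 1 : E3) + v 1 • (EuclideanSpace.single 1 1 : E3) +
      v 2 • (EuclideanSpace.single 2 1 : E3) := by
    ext m
    fin_cases m <;> simp
  rw [e]
  exact M.add_mem (M.add_mem (M.smul_mem _ h0) (M.smul_mem _ h1)) (M.smul_mem _ h2)

theorem om_norm (D j : ℕ) : ‖om D j‖ = 1 := by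
  unfold om
  exact Complex.norm_exp_ofReal_mul_I _

theorem om_sq (D j : ℕ) : (om D j).re ^ 2 + (om D j).im ^ 2 = 1 := by
  have h := om_norm D j
  have h2 : Complex.normSq (om D j) = 1 := by
    rw [Complex.normSq_eq_norm_sq, h]; norm_num
  rw [Complex.normSq_apply] at h2
  nlinarith [h2]

theorem uu_zero (D : ℕ) (i : Fin 3) (hi : i ≠ 0) (j : ℕ) : (uu D i j) 0 = (om D j).im := by
  simp [uu, hi.symm]

theorem uu_i (D : ℕ) (i : Fin 3) (hi : i ≠ 0) (j : ℕ) : (uu D i j) i = (om D j).re := by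
  simp [uu, hi]

theorem inner_uu (D : ℕ) (i : Fin 3) (hi : i ≠ 0) (j : ℕ) (x : E3) :
    inner ℝ x (uu D i j) = (W i x * (starRingEnd ℂ) (om D j)).re := by
  unfold uu W
  rw [inner_add_right, EuclideanSpace.inner_single_right, EuclideanSpace.inner_single_right]
  simp [Complex.mul_re]
  ring

theorem uu_norm (D : ℕ) (i : Fin 3) (hi : i ≠ 0) (j : ℕ) : ‖uu D i j‖ = 1 := by
  have h1 : inner ℝ (uu D i j) (uu D i j) = (1:ℝ) := by
    rw [inner_uu D i hi]
    have : W i (uu D i j) = om D j := by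
      apply Complex.ext
      · simp [W, uu_i D i hi]
      · simp [W, uu_zero D i hi]
    rw [this, Complex.mul_conj, Complex.ofReal_re, Complex.normSq_eq_norm_sq, om_norm]
    norm_num
  rw [real_inner_self_eq_norm_sq] at h1
  have h2 : 0 ≤ ‖uu D i j‖ := norm_nonneg _
  nlinarith [h1, h2]

theorem om_inj (D : ℕ) (j k : ℕ) (hj : j < 2 * D + 1) (hk : k < 2 * D + 1)
    (h : om D j = om D k) : j = k := by
  have hp := Complex.isPrimitiveRoot_exp (2 * D + 1) (by omega)
  have e : ∀ j : ℕ, om D j = Complex.exp (2 * Real.pi * Complex.I / ((2 * D + 1 : ℕ) : ℂ)) ^ j := by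
    intro j
    rw [← Complex.exp_nat_mul]
    unfold om
    congr 1
    push_cast
    ring
  rw [e j, e k] at h
  exact hp.pow_inj hj hk h

theorem uu_inj (D : ℕ) (i : Fin 3) (hi : i ≠ 0) :
    Function.Injective (fun j : Fin (2 * D + 1) => uu D i j) := by
  intro j k h
  have h' : uu D i j = uu D i k := h
  have h0 : (om D j).im = (om D k).im := by
    rw [← uu_zero D i hi, ← uu_zero D i hi, h']
  have h1 : (om D j).re = (om D k).re := by
    rw [← uu_i D i hi, ← uu_i D i hi, h']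
  exact Fin.ext (om_inj D j k j.2 k.2 (Complex.ext h1 h0))

/-- the Riesz map as a linear map -/
noncomputable def LK : E3 →L[ℝ] (E3 →L[ℝ] ℝ) :=
  LinearMap.toContinuousLinearMap
    { toFun := fun v => innerSL ℝ v
      map_add' := by
        intro u v
        ext w
        simp
      map_smul' := by
        intro c v
        ext w
        simp }

theorem LK_apply (u v : E3) : LK u v = inner ℝ u v := rfl

theorem LK_inj {u : E3} (h : LK u = 0) : u = 0 := by
  have : LK u u = 0 := by rw [h]; rfl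
  rw [LK_apply, inner_self_eq_zero] at this
  exact this

theorem hasFDerivAt_inv_dist (a x : E3) (h : x ≠ a) :
    HasFDerivAt (fun y : E3 => (dist y a)⁻¹) (LK (((dist x a) ^ 3)⁻¹ • (a - x))) x := by
  have h1 : HasFDerivAt (fun y : E3 => y - a) (ContinuousLinearMap.id ℝ E3) x :=
    (hasFDerivAt_id x).sub_const a
  have h2 := h1.norm_sq
  have hn : ‖x - a‖ ≠ 0 := by rw [norm_ne_zero_iff]; exact sub_ne_zero.2 h
  have hpos : 0 < ‖x - a‖ ^ 2 := by positivity
  have h3 : HasDerivAt (fun y : ℝ => (Real.sqrt y)⁻¹)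
      (-(1 / (2 * Real.sqrt (‖x - a‖ ^ 2))) / (Real.sqrt (‖x - a‖ ^ 2)) ^ 2) (‖x - a‖ ^ 2) :=
    (Real.hasDerivAt_sqrt hpos.ne').inv (by positivity)
  have h4 := HasDerivAt.comp_hasFDerivAt x h3 h2
  have e1 : ((fun y : ℝ => (Real.sqrt y)⁻¹) ∘ fun y : E3 => ‖y - a‖ ^ 2) =
      fun y : E3 => (dist y a)⁻¹ := by
    funext y
    simp only [Function.comp_apply]
    rw [Real.sqrt_sq (norm_nonneg _), dist_eq_norm]
  rw [e1] at h4
  refine h4.congr_fderiv ?_
  ext w
  rw [Real.sqrt_sq (norm_nonneg _), dist_eq_norm]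
  simp only [smul_apply, ContinuousLinearMap.comp_apply,
    ContinuousLinearMap.id_apply, smul_eq_mul, LK_apply, inner_smul_left, innerSL_apply_apply]
  have e2 : inner ℝ (a - x) w = - inner ℝ (x - a) w := by rw [← inner_neg_left, neg_sub]
  rw [e2]
  simp only [conj_trivial]
  field_simp
  simp

theorem hasFDerivAt_potential {n : ℕ} (q : Fin n → ℝ) (a : Fin n → E3) (x : E3)
    (hx : x ∉ Set.range a) :
    HasFDerivAt (potential q a) (LK (∑ j, q j • kk a j x)) x := by
  have h1 : ∀ j ∈ (Finset.univ : Finset (Fin n)),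
      HasFDerivAt (fun y : E3 => q j / dist y (a j)) (LK (q j • kk a j x)) x := by
    intro j _
    have hne : x ≠ a j := fun h => hx ⟨j, h.symm⟩
    have h2 := (hasFDerivAt_inv_dist (a j) x hne).const_mul (q j)
    rw [map_smul]
    have e : (fun y : E3 => q j / dist y (a j)) = fun y => q j * (dist y (a j))⁻¹ := by
      funext y
      rw [div_eq_mul_inv]
    rw [e]
    exact h2
  have h3 := HasFDerivAt.fun_sum h1
  rw [map_sum]
  exact h3

theorem isOpen_compl {n : ℕ} (a : Fin n → E3) : IsOpen (Set.range a)ᶜ :=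
  (Set.finite_range a).isClosed.isOpen_compl

theorem kk_contDiffAt {n : ℕ} (a : Fin n → E3) (j : Fin n) (x : E3) (hx : x ∉ Set.range a) :
    ContDiffAt ℝ 1 (kk a j) x := by
  have hne : x ≠ a j := fun h => hx ⟨j, h.symm⟩
  have h1 : ContDiffAt ℝ 1 (fun y : E3 => a j - y) x := contDiffAt_const.sub contDiffAt_id
  have h2 : ContDiffAt ℝ 1 (fun y : E3 => dist y (a j)) x :=
    ContDiffAt.dist ℝ contDiffAt_id contDiffAt_const hne
  have h3 : ContDiffAt ℝ 1 (fun y : E3 => ((dist y (a j)) ^ 3)⁻¹) x :=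
    (h2.pow 3).inv (pow_ne_zero 3 (dist_ne_zero.2 hne))
  exact h3.smul h1

/-- TARGET -/
theorem good_potential_iff {n : ℕ} (q : Fin n → ℝ) (a : Fin n → E3) (x : E3)
    (hx : x ∉ Set.range a) : Good (potential q a) x ↔ (∑ j, q j • kk a j x = 0 ∧
      ∀ v, fderiv ℝ (fun x => ∑ j, q j • kk a j x) x v = 0 → v = 0) := by
  have hd : DifferentiableAt ℝ (fun x => ∑ j, q j • kk a j x) x := by
    have : ∀ j ∈ (Finset.univ : Finset (Fin n)), DifferentiableAt ℝ (fun y => q j • kk a j y) x :=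
      fun j _ => ((kk_contDiffAt a j x hx).differentiableAt (by simp)).const_smul (q j)
    exact DifferentiableAt.fun_sum this
  have h1 : fderiv ℝ (potential q a) x = LK (∑ j, q j • kk a j x) :=
    (hasFDerivAt_potential q a x hx).fderiv
  have h2 : fderiv ℝ (potential q a) =ᶠ[nhds x] fun y => LK (∑ j, q j • kk a j y) := by
    filter_upwards [(isOpen_compl a).mem_nhds hx] with y hy
    exact (hasFDerivAt_potential q a y hy).fderiv
  have h3 : fderiv ℝ (fderiv ℝ (potential q a)) x =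
      LK.comp (fderiv ℝ (fun x => ∑ j, q j • kk a j x) x) := by
    rw [h2.fderiv_eq]
    exact (LK.hasFDerivAt.comp x hd.hasFDerivAt).fderiv
  unfold Good
  rw [h1, h3]
  constructor
  · rintro ⟨ha, hb⟩
    refine ⟨LK_inj ha, fun v hv => hb v ?_⟩
    rw [ContinuousLinearMap.comp_apply, hv, map_zero]
  · rintro ⟨ha, hb⟩
    refine ⟨by rw [ha, map_zero], fun v hv => hb v ?_⟩
    rw [ContinuousLinearMap.comp_apply] at hv
    exact LK_inj hv

/-- TARGET -/
theorem gradient_potential {n : ℕ} (q : Fin n → ℝ) (a : Fin n → E3) (x : E3)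
    (hx : x ∉ Set.range a) : gradient (potential q a) x = ∑ j, q j • kk a j x := by
  unfold gradient
  rw [(hasFDerivAt_potential q a x hx).fderiv]
  have : LK (∑ j, q j • kk a j x) = InnerProductSpace.toDual ℝ E3 (∑ j, q j • kk a j x) := by
    ext w
    rw [LK_apply, InnerProductSpace.toDual_apply_apply]
  rw [this, LinearIsometryEquiv.symm_apply_apply]

/-- TARGET -/
theorem kk_contDiffOn {n : ℕ} (a : Fin n → E3) (j : Fin n) :
    ContDiffOn ℝ 1 (kk a j) (Set.range a)ᶜ :=
  fun x hx => (kk_contDiffAt a j x hx).contDiffWithinAt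

/-- TARGET -/
theorem potential_contDiffAt {n : ℕ} (q : Fin n → ℝ) (a : Fin n → E3) (x : E3)
    (hx : x ∉ Set.range a) :
    ContDiffAt ℝ 3 (fun z : (Fin n → ℝ) × E3 => potential z.1 a z.2) (q, x) := by
  unfold potential
  refine ContDiffAt.sum fun j _ => ?_
  have hne : x ≠ a j := fun h => hx ⟨j, h.symm⟩
  refine ContDiffAt.div ?_ ?_ (dist_ne_zero.2 hne)
  · exact (contDiffAt_apply ℝ ℝ j q).comp (q, x) contDiffAt_fst
  · exact ContDiffAt.dist ℝ contDiffAt_snd contDiffAt_const hne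


/-- distance to a charge of the ring -/
theorem dist_ring (D : ℕ) (i : Fin 3) (hi : i ≠ 0) (j : ℕ) (t : ℝ) (ht : 0 < t) (x : E3) (q : ℝ) :
    q / dist x (t⁻¹ • uu D i j) =
      q * (t * f0 (t * (2 * (W i x * (starRingEnd ℂ) (om D j)).re - t * ‖x‖ ^ 2))) := by
  have h1 : dist x (t⁻¹ • uu D i j) =
      t⁻¹ * Real.sqrt (1 - t * (2 * (W i x * (starRingEnd ℂ) (om D j)).re - t * ‖x‖ ^ 2)) := by
    rw [dist_eq_norm]
    have h2 : ‖x - t⁻¹ • uu D i j‖ ^ 2 =
        (t⁻¹) ^ 2 * (1 - t * (2 * (W i x * (starRingEnd ℂ) (om D j)).re - t * ‖x‖ ^ 2)) := by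
      rw [norm_sub_sq_real, norm_smul, inner_smul_right, inner_uu D i hi, uu_norm D i hi,
        Real.norm_of_nonneg (inv_nonneg.2 ht.le)]
      field_simp
      ring
    rw [← Real.sqrt_sq (norm_nonneg (x - t⁻¹ • uu D i j)), h2,
      Real.sqrt_mul (sq_nonneg _), Real.sqrt_sq (inv_nonneg.2 ht.le)]
  rw [h1, f0, div_eq_mul_inv, mul_inv, inv_inv]

/-- TARGET -/
theorem ring_formula (D : ℕ) (p : ℕ → ℝ) (i : Fin 3) (hi : i ≠ 0) :
    ∃ (q : ℝ → ℕ → ℝ) (R : ℝ × E3 → ℝ), (∀ x, ContDiffAt ℝ 3 R (0, x)) ∧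
      ∀ t : ℝ, 0 < t → ∀ x : E3,
        ∑ j ∈ Finset.range (2 * D + 1), q t j / dist x (t⁻¹ • uu D i j) =
        ∑ a ∈ Finset.range (D + 1), p a * ((W i x) ^ a).re + t * R (t, x) := by
  obtain ⟨b, hb, hexp⟩ := f0_expansion
  choose ρ hρ hρe using hexp
  set J : ℝ := ((2 * D + 1 : ℕ) : ℝ) with hJ
  have hJ0 : J ≠ 0 := by
    rw [hJ]; positivity
  let s : ℕ → ℝ × E3 → ℝ := fun j z =>
    2 * inner ℝ z.2 (uu D i j) - z.1 * ‖z.2‖ ^ 2
  have hs : ∀ j, ContDiff ℝ 3 (s j) := by
    intro j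
    have h1 : ContDiff ℝ 3 (fun z : ℝ × E3 => inner ℝ z.2 (uu D i j)) :=
      contDiff_snd.inner ℝ contDiff_const
    have h2 : ContDiff ℝ 3 (fun z : ℝ × E3 => ‖z.2‖ ^ 2) := contDiff_snd.norm_sq ℝ
    exact (contDiff_const.mul h1).sub (contDiff_fst.mul h2)
  refine ⟨fun t j => ∑ a ∈ Finset.range (D + 1), p a * ((om D j) ^ a).re / (J * b a * t ^ (a + 1)),
    fun z => ∑ a ∈ Finset.range (D + 1), p a / (J * b a) *
      ∑ j ∈ Finset.range (2 * D + 1), ((om D j) ^ a).re * ((s j z) ^ (a + 1) * ρ a (z.1 * s j z)),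
    ?_, ?_⟩
  · intro x
    apply ContDiffAt.sum
    intro a _
    apply contDiffAt_const.mul
    apply ContDiffAt.sum
    intro j _
    apply contDiffAt_const.mul
    apply ((hs j).contDiffAt.pow _).mul
    have h3 : ContDiffAt ℝ 3 (ρ a) ((fun z : ℝ × E3 => z.1 * s j z) (0, x)) := by
      simp only [zero_mul]
      exact (hρ a).contDiffAt
    exact ContDiffAt.comp (0, x) h3 (contDiff_fst.mul (hs j)).contDiffAt
  · intro t ht x
    have hst : ∀ j, s j (t, x) = 2 * (W i x * (starRingEnd ℂ) (om D j)).re - t * ‖x‖ ^ 2 := by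
      intro j
      simp only [s]
      rw [inner_uu D i hi]
    simp only [dist_ring D i hi _ t ht x, ← hst]
    -- expand
    have h1 : ∀ a ∈ Finset.range (D + 1), ∀ j,
        p a * ((om D j) ^ a).re / (J * b a * t ^ (a + 1)) * (t * f0 (t * s j (t, x))) =
        (∑ n ∈ Finset.range (a + 1), p a / (J * b a * t ^ a) * (b n * t ^ n) *
          (((om D j) ^ a).re * (s j (t, x)) ^ n)) +
        t * (p a / (J * b a) * (((om D j) ^ a).re *
          ((s j (t, x)) ^ (a + 1) * ρ a (t * s j (t, x))))) := by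
      intro a _ j
      rw [hρe a (t * s j (t, x))]
      have hba := hb a
      have htn : t ≠ 0 := ht.ne'
      rw [mul_add, mul_add, Finset.mul_sum, Finset.mul_sum]
      congr 1
      · apply Finset.sum_congr rfl
        intro n _
        rw [mul_pow]
        field_simp
        ring
      · rw [mul_pow]
        field_simp
    have h2 : ∑ j ∈ Finset.range (2 * D + 1),
        (∑ a ∈ Finset.range (D + 1), p a * ((om D j) ^ a).re / (J * b a * t ^ (a + 1))) *
          (t * f0 (t * s j (t, x))) =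
        ∑ a ∈ Finset.range (D + 1), ∑ j ∈ Finset.range (2 * D + 1),
          ((∑ n ∈ Finset.range (a + 1), p a / (J * b a * t ^ a) * (b n * t ^ n) *
          (((om D j) ^ a).re * (s j (t, x)) ^ n)) +
        t * (p a / (J * b a) * (((om D j) ^ a).re *
          ((s j (t, x)) ^ (a + 1) * ρ a (t * s j (t, x)))))) := by
      rw [Finset.sum_comm]
      apply Finset.sum_congr rfl
      intro j _
      rw [Finset.sum_mul]
      apply Finset.sum_congr rfl
      intro a ha
      exact h1 a ha j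
    rw [h2, Finset.mul_sum, ← Finset.sum_add_distrib]
    apply Finset.sum_congr rfl
    intro a ha
    rw [Finset.sum_add_distrib]
    congr 1
    · rw [Finset.sum_comm]
      have haD : a ≤ D := Nat.lt_succ_iff.1 (Finset.mem_range.1 ha)
      have h3 : ∀ n ∈ Finset.range (a + 1), ∑ j ∈ Finset.range (2 * D + 1),
          p a / (J * b a * t ^ a) * (b n * t ^ n) * (((om D j) ^ a).re * (s j (t, x)) ^ n) =
          p a / (J * b a * t ^ a) * (b n * t ^ n) * (if n = a then J * ((W i x) ^ a).re else 0) := by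
        intro n hn
        rw [← Finset.mul_sum]
        congr 1
        simp only [hst]
        exact dft D a n haD (Nat.lt_succ_iff.1 (Finset.mem_range.1 hn)) _ _
      rw [Finset.sum_congr rfl h3]
      rw [Finset.sum_eq_single a]
      · rw [if_pos rfl]
        have hba := hb a
        have htn : t ≠ 0 := ht.ne'
        field_simp
      · intro n _ hn
        rw [if_neg hn, mul_zero]
      · intro h
        exact absurd (Finset.mem_range.2 (Nat.lt_succ_self a)) h
    · simp only [Finset.mul_sum]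

end Pool.Agent.Helper710.Eqb
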