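import Pool.Agent.Helper710.EqInd
import Pool.Agent.Helper710.EqLemC
import Pool.Agent.Helper710.EqLemD

set_option autoImplicit false

open N62f3cee0
open scoped Gradient Topology

namespace Pool.Agent.Helper710.Eqb

theorem Hf_split (c : ℕ → ℝ) (D : ℕ) (x : E3) : Hf c D x =
    (∑ a ∈ Finset.range (D + 1), (if a % 2 = 0 then c a else 0) * ((W 1 x) ^ a).re) +
    ∑ a ∈ Finset.range (D + 1), (if a % 2 = 0 then 0 else c a) * ((W 2 x) ^ a).re := by
  rw [Hf, ← Finset.sum_add_distrib]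
  apply Finset.sum_congr rfl
  intro a _
  unfold pl
  split_ifs <;> simp

theorem ring_config (D : ℕ) (hD : 1 ≤ D) (c : ℕ → ℝ) (S : Finset E3)
    (hS : ∀ x ∈ S, Good (Hf c D) x) :
    ∃ (a : Fin ((2 * D + 1) + (2 * D + 1)) → E3) (q : Fin ((2 * D + 1) + (2 * D + 1)) → ℝ),
      Function.Injective a ∧ (∀ x, Submodule.span ℝ (Set.range (fun j => a j - x)) = ⊤) ∧
      ∃ S' : Finset E3, S'.card = S.card ∧ ∀ x ∈ S', x ∉ Set.range a ∧
        Good (potential q a) x := by
  classical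
  obtain ⟨q1, R1, hR1, hq1⟩ := ring_formula D (fun a => if a % 2 = 0 then c a else 0) 1 (by decide)
  obtain ⟨q2, R2, hR2, hq2⟩ := ring_formula D (fun a => if a % 2 = 0 then 0 else c a) 2 (by decide)
  let Φ : ℝ × E3 → ℝ := fun z => Hf c D z.2 + z.1 * R1 z + (z.1 / 2) * R2 (z.1 / 2, z.2)
  have hH : ContDiff ℝ 3 (fun z : ℝ × E3 => Hf c D z.2) := by
    unfold Hf
    apply ContDiff.sum
    intro a _
    exact contDiff_const.mul (Wpow_contDiff _ _)
  have hΦ : ∀ x, ContDiffAt ℝ 3 Φ (0, x) := by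
    intro x
    apply ContDiffAt.add
    · apply ContDiffAt.add hH.contDiffAt
      exact contDiffAt_fst.mul (hR1 x)
    · apply ContDiffAt.mul (contDiffAt_fst.div_const 2)
      have h1 : ContDiffAt ℝ 3 (fun z : ℝ × E3 => (z.1 / 2, z.2)) (0, x) :=
        (contDiffAt_fst.div_const 2).prodMk contDiffAt_snd
      have h2 : ContDiffAt ℝ 3 R2 ((fun z : ℝ × E3 => (z.1 / 2, z.2)) (0, x)) := by
        simpa using hR2 x
      exact ContDiffAt.comp (g := R2) (f := fun z : ℝ × E3 => (z.1 / 2, z.2)) (0, x) h2 h1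
  obtain ⟨Rr, hRr⟩ : ∃ Rr : ℝ, 0 < Rr ∧ ∀ x ∈ S, ‖x‖ < Rr := by
    obtain ⟨B, hB⟩ := (S.finite_toSet.image (fun x => ‖x‖)).bddAbove
    refine ⟨max B 0 + 1, by positivity, ?_⟩
    intro x hx
    have := hB ⟨x, hx, rfl⟩
    exact lt_of_le_of_lt (le_trans this (le_max_left _ _)) (lt_add_one _)
  have e1 : ∀ᶠ p in 𝓝 (0:ℝ), ∃ S' : Finset E3, S'.card = S.card ∧
      ∀ x ∈ S', x ∈ Metric.ball (0:E3) Rr ∧ Good (fun x => Φ (p, x)) x := by
    apply persist_finset Φ 0 S (fun x _ => hΦ x) _ _ Metric.isOpen_ball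
    · intro x hx; simpa using hRr.2 x hx
    · intro x hx
      have := hS x hx
      have hfun : Hf c D = fun y => Φ (0, y) := by
        funext y; simp [Φ]
      rw [hfun] at this
      exact this
  have e3 : ∀ᶠ p in 𝓝[>] (0:ℝ), p * Rr < 1 := by
    have : Filter.Tendsto (fun p : ℝ => p * Rr) (𝓝 0) (𝓝 (0 * Rr)) :=
      (continuous_id.mul continuous_const).tendsto _
    rw [zero_mul] at this
    exact mem_nhdsWithin_of_mem_nhds (this.eventually (gt_mem_nhds one_pos))
  obtain ⟨t, ⟨⟨S', hS'c, hS'⟩, htr⟩, ht0⟩ :=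
    (((e1.filter_mono nhdsWithin_le_nhds).and e3).and self_mem_nhdsWithin).exists
  have ht : (0:ℝ) < t := ht0
  have ht2 : (0:ℝ) < t / 2 := by positivity
  let a1 : Fin (2 * D + 1) → E3 := fun j => t⁻¹ • uu D 1 j
  let a2 : Fin (2 * D + 1) → E3 := fun j => (t / 2)⁻¹ • uu D 2 j
  have hn1 : ∀ j, ‖a1 j‖ = t⁻¹ := by
    intro j
    simp only [a1]
    rw [norm_smul, uu_norm D 1 (by decide), norm_inv, Real.norm_eq_abs, abs_of_pos ht, mul_one]
  have hn2 : ∀ j, ‖a2 j‖ = (t / 2)⁻¹ := by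
    intro j
    simp only [a2]
    rw [norm_smul, uu_norm D 2 (by decide), norm_inv, Real.norm_eq_abs, abs_of_pos ht2, mul_one]
  have hlt : t⁻¹ < (t / 2)⁻¹ := by
    apply inv_strictAnti₀ ht2; linarith
  have hRt : Rr < t⁻¹ := by
    rw [← one_div, lt_div_iff₀ ht]
    linarith
  refine ⟨Fin.append a1 a2, Fin.append (fun j => q1 t j) (fun j => q2 (t / 2) j), ?_, ?_, S', hS'c, ?_⟩
  · rw [Fin.append_injective_iff]
    refine ⟨?_, ?_, ?_⟩
    · intro i j hij
      exact uu_inj D 1 (by decide) (smul_right_injective E3 (inv_ne_zero ht.ne') hij)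
    · intro i j hij
      exact uu_inj D 2 (by decide) (smul_right_injective E3 (inv_ne_zero ht2.ne') hij)
    · intro i j hij
      have := congrArg norm hij
      rw [hn1, hn2] at this
      exact hlt.ne this
  · intro x
    rw [← ring_span D hD t⁻¹ (t / 2)⁻¹ (inv_ne_zero ht.ne') (inv_ne_zero ht2.ne') x]
    congr 1
    ext y
    constructor
    · rintro ⟨j, rfl⟩
      refine Fin.addCases (fun j => ?_) (fun j => ?_) j
      · left; exact ⟨j, by beta_reduce; rw [Fin.append_left]⟩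
      · right; exact ⟨j, by beta_reduce; rw [Fin.append_right]⟩
    · rintro (⟨j, rfl⟩ | ⟨j, rfl⟩)
      · exact ⟨Fin.castAdd _ j, by simp only [Fin.append_left, a1]⟩
      · exact ⟨Fin.natAdd _ j, by simp only [Fin.append_right, a2]⟩
  · intro x hx
    obtain ⟨hxb, hg⟩ := hS' x hx
    refine ⟨?_, ?_⟩
    · rintro ⟨j, rfl⟩
      revert hxb
      refine Fin.addCases (fun j => ?_) (fun j => ?_) j
      · simp only [Fin.append_left, Metric.mem_ball, dist_zero_right, hn1]
        intro h; linarith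
      · simp only [Fin.append_right, Metric.mem_ball, dist_zero_right, hn2]
        intro h; linarith
    · have hfun : potential (Fin.append (fun j => q1 t j) (fun j => q2 (t / 2) j))
          (Fin.append a1 a2) = fun y => Φ (t, y) := by
        funext y
        simp only [potential]
        rw [Fin.sum_univ_add]
        simp only [Fin.append_left, Fin.append_right, a1, a2, Φ]
        rw [Fin.sum_univ_eq_sum_range (fun j => q1 t j / dist y (t⁻¹ • uu D 1 j)),
          Fin.sum_univ_eq_sum_range (fun j => q2 (t / 2) j / dist y ((t / 2)⁻¹ • uu D 2 j)),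
          hq1 t ht y, hq2 (t / 2) ht2 y, Hf_split]
        ring
      rw [hfun]
      exact hg

theorem generic_final {n : ℕ} (a : Fin n → E3)
    (hs : ∀ x, Submodule.span ℝ (Set.range (fun j => a j - x)) = ⊤)
    (q0 : Fin n → ℝ) (S : Finset E3)
    (hS : ∀ x ∈ S, x ∉ Set.range a ∧ Good (potential q0 a) x) :
    ∃ q : Fin n → ℝ, (∀ j, q j ≠ 0) ∧
      (∀ x ∈ equilibria q a, HasNondegenerateHessianAt (potential q a) x) ∧
      (S.card : ℕ∞) ≤ (equilibria q a).encard := by
  classical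
  have hUo : IsOpen (Set.range a)ᶜ := (Set.finite_range a).isClosed.isOpen_compl
  have hres := generic_residual (kk a) (Set.range a)ᶜ hUo (kk_contDiffOn a) (by
    intro x hx
    rw [eq_top_iff, ← hs x, Submodule.span_le]
    rintro _ ⟨j, rfl⟩
    have hd : dist x (a j) ≠ 0 := by
      rw [dist_ne_zero]
      rintro rfl
      exact hx ⟨j, rfl⟩
    have : a j - x = (dist x (a j)) ^ 3 • kk a j x := by
      rw [kk, smul_smul, mul_inv_cancel₀ (pow_ne_zero 3 hd), one_smul]
    show a j - x ∈ _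
    rw [this]
    exact Submodule.smul_mem _ _ (Submodule.subset_span ⟨j, rfl⟩))
  have hnz : ∀ j : Fin n, {q : Fin n → ℝ | q j ≠ 0} ∈ residual (Fin n → ℝ) := by
    intro j
    apply residual_of_dense_open
    · exact isOpen_ne_fun (continuous_apply j) continuous_const
    · have h := (dense_compl_singleton (0:ℝ)).preimage (isOpenMap_eval (X := fun _ : Fin n => ℝ) j)
      exact h
  have hnz' : {q : Fin n → ℝ | ∀ j, q j ≠ 0} ∈ residual (Fin n → ℝ) := by
    have : {q : Fin n → ℝ | ∀ j, q j ≠ 0} = ⋂ j, {q : Fin n → ℝ | q j ≠ 0} := by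
      ext q; simp
    rw [this]
    exact Filter.iInter_mem.2 hnz
  have hdense := dense_of_mem_residual (Filter.inter_mem hres hnz')
  have hpers := persist_finset (fun z : (Fin n → ℝ) × E3 => potential z.1 a z.2) q0 S
    (fun x hx => potential_contDiffAt q0 a x (hS x hx).1) (fun x hx => (hS x hx).2)
    (Set.range a)ᶜ hUo (fun x hx => (hS x hx).1)
  obtain ⟨q, ⟨hq1, hq2⟩, S', hS'c, hS'⟩ := hdense.inter_nhds_nonempty hpers
  refine ⟨q, hq2, ?_, ?_⟩
  · rintro x ⟨hx, hgx⟩ v hv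
    have hg : Good (potential q a) x := by
      rw [good_potential_iff q a x hx]
      rw [gradient_potential q a x hx] at hgx
      exact ⟨hgx, hq1 x hx hgx⟩
    by_contra hcon
    push Not at hcon
    apply hv
    apply hg.2 v
    ext w
    have := hcon w
    rw [iteratedFDeriv_two_apply] at this
    simpa using this
  · rw [← hS'c, ← Set.encard_coe_eq_coe_finsetCard]
    apply Set.encard_le_encard
    intro x hx
    obtain ⟨hxa, hg⟩ := hS' x hx
    refine ⟨hxa, ?_⟩
    rw [gradient_potential q a x hxa]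
    exact ((good_potential_iff q a x hxa).1 hg).1

/-- adding further charges (of strength zero before the final perturbation) -/
theorem extend_config {m : ℕ} (k : ℕ) (a : Fin m → E3) (q : Fin m → ℝ)
    (ha : Function.Injective a)
    (hs : ∀ x, Submodule.span ℝ (Set.range (fun j => a j - x)) = ⊤) (S : Finset E3)
    (hS : ∀ x ∈ S, x ∉ Set.range a ∧ Good (potential q a) x) :
    ∃ (a' : Fin (m + k) → E3) (q' : Fin (m + k) → ℝ), Function.Injective a' ∧
      (∀ x, Submodule.span ℝ (Set.range (fun j => a' j - x)) = ⊤) ∧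
      ∀ x ∈ S, x ∉ Set.range a' ∧ Good (potential q' a') x := by
  classical
  have hinf : ((Set.range a ∪ (S : Set E3))ᶜ).Infinite :=
    ((Set.finite_range a).union S.finite_toSet).infinite_compl
  have := hinf.to_subtype
  let e : Fin k → E3 := fun j =>
    ((Infinite.natEmbedding ↥((Set.range a ∪ (S : Set E3))ᶜ)) (j : ℕ) : E3)
  have he : Function.Injective e := by
    intro i j hij
    have h1 := Subtype.ext hij
    have h2 := (Infinite.natEmbedding ↥((Set.range a ∪ (S : Set E3))ᶜ)).injective h1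
    exact Fin.ext h2
  have hmem : ∀ j, e j ∉ Set.range a ∧ e j ∉ S := by
    intro j
    have h := ((Infinite.natEmbedding ↥((Set.range a ∪ (S : Set E3))ᶜ)) (j : ℕ)).2
    simp only [Set.mem_compl_iff, Set.mem_union, not_or] at h
    exact ⟨h.1, by simpa using h.2⟩
  refine ⟨Fin.append a e, Fin.append q 0, ?_, ?_, ?_⟩
  · rw [Fin.append_injective_iff]
    refine ⟨ha, he, ?_⟩
    intro i j hij
    exact (hmem j).1 ⟨i, hij⟩
  · intro x
    rw [eq_top_iff, ← hs x]
    apply Submodule.span_mono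
    rintro _ ⟨j, rfl⟩
    exact ⟨Fin.castAdd k j, by beta_reduce; rw [Fin.append_left]⟩
  · intro x hx
    refine ⟨?_, ?_⟩
    · rintro ⟨j, hj⟩
      revert hj
      refine Fin.addCases (fun j => ?_) (fun j => ?_) j
      · rw [Fin.append_left]
        intro hj
        exact (hS x hx).1 ⟨j, hj⟩
      · rw [Fin.append_right]
        intro hj
        apply (hmem j).2
        rw [hj]; exact hx
    · have hfun : potential (Fin.append q 0) (Fin.append a e) = potential q a := by
        funext y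
        simp only [potential]
        rw [Fin.sum_univ_add]
        simp [Fin.append_left, Fin.append_right]
      rw [hfun]
      exact (hS x hx).2

theorem many_equilibria (D : ℕ) (hD : 2 ≤ D) (k : ℕ) :
    ∃ (q : Fin (4 * D + 2 + k) → ℝ) (a : Fin (4 * D + 2 + k) → E3), Function.Injective a ∧
      (∀ j, q j ≠ 0) ∧
      (∀ x ∈ equilibria q a, HasNondegenerateHessianAt (potential q a) x) ∧
      (D.choose 3 : ℕ∞) ≤ (equilibria q a).encard := by
  have key : ∃ (q : Fin ((2 * D + 1) + (2 * D + 1) + k) → ℝ)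
      (a : Fin ((2 * D + 1) + (2 * D + 1) + k) → E3), Function.Injective a ∧ (∀ j, q j ≠ 0) ∧
      (∀ x ∈ equilibria q a, HasNondegenerateHessianAt (potential q a) x) ∧
      (D.choose 3 : ℕ∞) ≤ (equilibria q a).encard := by
    obtain ⟨c, _, S, hS, hSg⟩ := exists_many D hD
    obtain ⟨a0, q0, ha0, hs0, S', hS'c, hS'⟩ := ring_config D (by omega) c S hSg
    obtain ⟨a, q1, ha, hs, hS1⟩ := extend_config k a0 q0 ha0 hs0 S' hS'
    obtain ⟨q, h1, h2, h3⟩ := generic_final a hs q1 S' hS1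
    refine ⟨q, a, ha, h1, h2, le_trans ?_ h3⟩
    rw [hS'c]
    exact_mod_cast hS
  have e : (2 * D + 1) + (2 * D + 1) + k = 4 * D + 2 + k := by ring
  rw [e] at key
  exact key

theorem cubic_lower_bound (n : ℕ) (hn : 26 ≤ n) :
    ∃ (q : Fin n → ℝ) (a : Fin n → E3), Function.Injective a ∧ (∀ j, q j ≠ 0) ∧
      (∀ x ∈ equilibria q a, HasNondegenerateHessianAt (potential q a) x) ∧
      ∃ m : ℕ, n ^ 3 ≤ 3072 * m ∧ (m : ℕ∞) ≤ (equilibria q a).encard := by
  obtain ⟨D, k, hk, rfl⟩ : ∃ D k, k < 4 ∧ n = 4 * D + 2 + k :=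
    ⟨(n - 2) / 4, (n - 2) % 4, Nat.mod_lt _ (by norm_num), by omega⟩
  have hD : 6 ≤ D := by omega
  obtain ⟨q, a, h1, h2, h3, h4⟩ := many_equilibria D (by omega) k
  refine ⟨q, a, h1, h2, h3, D.choose 3, ?_, h4⟩
  obtain ⟨E, rfl⟩ : ∃ E, D = E + 2 := ⟨D - 2, by omega⟩
  have hE : 4 ≤ E := by omega
  have h6 : 6 * (E + 2).choose 3 = (E + 2) * (E + 1) * E := by
    have := Nat.descFactorial_eq_factorial_mul_choose (E + 2) 3
    have h7 : (E + 2).descFactorial 3 = E * ((E + 1) * ((E + 2) * 1)) := by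
      simp [Nat.descFactorial]
    rw [h7] at this
    have h8 : Nat.factorial 3 = 6 := rfl
    rw [h8] at this
    rw [← this]; ring
  have h9 : 3072 * (E + 2).choose 3 = 512 * ((E + 2) * (E + 1) * E) := by
    rw [← h6]; ring
  rw [h9]
  have h10 : 4 * (E + 2) + 2 + k ≤ 4 * E + 13 := by omega
  calc (4 * (E + 2) + 2 + k) ^ 3 ≤ (4 * E + 13) ^ 3 := Nat.pow_le_pow_left h10 3
    _ ≤ 512 * ((E + 2) * (E + 1) * E) := by
      obtain ⟨F, rfl⟩ : ∃ F, E = F + 4 := ⟨E - 4, by omega⟩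
      ring_nf
      nlinarith [sq_nonneg F, Nat.zero_le F, Nat.zero_le (F^2), Nat.zero_le (F^3)]

theorem beats_power (C d : ℝ) (hd : d < 3) : ∃ n0 : ℕ, ∀ n ≥ n0,
    ∃ (q : Fin n → ℝ) (a : Fin n → E3), Function.Injective a ∧ (∀ j, q j ≠ 0) ∧
      (∀ x ∈ equilibria q a, HasNondegenerateHessianAt (potential q a) x) ∧
      ∃ m : ℕ, C * (n : ℝ) ^ d < m ∧ (m : ℕ∞) ≤ (equilibria q a).encard := by
  have ht : Filter.Tendsto (fun n : ℕ => (n : ℝ) ^ (3 - d)) Filter.atTop Filter.atTop :=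
    (tendsto_rpow_atTop (by linarith)).comp tendsto_natCast_atTop_atTop
  obtain ⟨n0, hn0⟩ := (ht.eventually_gt_atTop (3072 * C)).exists_forall_of_atTop
  refine ⟨max n0 26, ?_⟩
  intro n hn
  have hn1 : n0 ≤ n := le_trans (le_max_left _ _) hn
  have hn2 : 26 ≤ n := le_trans (le_max_right _ _) hn
  obtain ⟨q, a, h1, h2, h3, m, h4, h5⟩ := cubic_lower_bound n hn2
  refine ⟨q, a, h1, h2, h3, m, ?_, h5⟩
  have hpos : (0:ℝ) < n := by positivity
  have h6 := hn0 n hn1
  have h7 : (n : ℝ) ^ (3 - d) * (n : ℝ) ^ d = (n : ℝ) ^ 3 := by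
    rw [← Real.rpow_add hpos]
    norm_num
  have h8 : (0:ℝ) < (n : ℝ) ^ d := Real.rpow_pos_of_pos hpos d
  have h9 : ((n : ℝ)) ^ 3 ≤ 3072 * m := by exact_mod_cast h4
  have h10 : 3072 * C * (n : ℝ) ^ d < (n : ℝ) ^ (3 - d) * (n : ℝ) ^ d :=
    mul_lt_mul_of_pos_right h6 h8
  rw [h7] at h10
  linarith

end Pool.Agent.Helper710.Eqb
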