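import Pool.Agent.Helper710.EqLemA

set_option autoImplicit false

open N62f3cee0
open scoped Gradient Topology

namespace Pool.Agent.Helper710.Eqb

theorem persist_finset {P : Type*} [NormedAddCommGroup P] [NormedSpace ℝ P] [CompleteSpace P]
    (Φ : P × E3 → ℝ) (p0 : P) (S : Finset E3) (hΦ : ∀ x ∈ S, ContDiffAt ℝ 3 Φ (p0, x))
    (h : ∀ x ∈ S, Good (fun x => Φ (p0, x)) x) (U : Set E3) (hU : IsOpen U)
    (hSU : ∀ x ∈ S, x ∈ U) :
    ∀ᶠ p in 𝓝 p0, ∃ S' : Finset E3, S'.card = S.card ∧
      ∀ x ∈ S', x ∈ U ∧ Good (fun x => Φ (p, x)) x := by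
  classical
  obtain ⟨V, hV, hVd⟩ := (S.finite_toSet).t2_separation
  have h1 : ∀ x ∈ S, ∀ᶠ p in 𝓝 p0, ∃ y ∈ V x ∩ U, Good (fun x => Φ (p, x)) y := by
    intro x hx
    exact persist Φ p0 x (hΦ x hx) (h x hx) _
      (Filter.inter_mem ((hV x).2.mem_nhds (hV x).1) (hU.mem_nhds (hSU x hx)))
  have h2 := (Finset.eventually_all S).2 h1
  filter_upwards [h2] with p hp
  choose! g hg using hp
  refine ⟨S.image g, ?_, ?_⟩
  · apply Finset.card_image_of_injOn
    intro x hx y hy hxy
    by_contra hne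
    have hd := hVd hx hy hne
    exact Set.disjoint_left.1 hd (hg x hx).1.1 (by simpa [hxy] using (hg y hy).1.1)
  · intro y hy
    obtain ⟨x, hx, rfl⟩ := Finset.mem_image.1 hy
    exact ⟨(hg x hx).1.2, (hg x hx).2⟩

/-- local equality transfers `Good` -/
theorem Good.congr {F G : E3 → ℝ} {x : E3} (h : Good F x) (he : F =ᶠ[𝓝 x] G) : Good G x := by
  refine ⟨?_, ?_⟩
  · rw [← he.fderiv_eq]; exact h.1
  · intro v hv
    apply h.2 v
    rw [(he.fderiv (𝕜 := ℝ)).fderiv_eq]; exact hv

theorem Good.const_mul {F : E3 → ℝ} {x : E3} (κ : ℝ) (hκ : κ ≠ 0) (h : Good F x) :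
    Good (fun y => κ * F y) x := by
  have e : fderiv ℝ (fun y => κ * F y) = fun y => κ • fderiv ℝ F y := by
    have := fderiv_const_smul_field (𝕜 := ℝ) (f := F) κ
    exact this
  refine ⟨by rw [e]; simp [h.1], ?_⟩
  intro v hv
  apply h.2 v
  rw [e] at hv
  have e2 : fderiv ℝ (fun y => κ • fderiv ℝ F y) x = κ • fderiv ℝ (fderiv ℝ F) x :=
    congrFun (fderiv_const_smul_field (𝕜 := ℝ) (f := fderiv ℝ F) κ) x
  rw [e2] at hv
  simpa [hκ] using hv

theorem Good.scale {F : E3 → ℝ} {X : E3} (s : ℝ) (hs : s ≠ 0)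
    (h : Good (fun X => F (s • X)) X) : Good F (s • X) := by
  have e : ∀ Y, fderiv ℝ (fun X => F (s • X)) Y = s • fderiv ℝ F (s • Y) := by
    intro Y
    exact fderiv_comp_smul s
  have e1 : fderiv ℝ F (s • X) = 0 := by
    have := h.1
    rw [e] at this
    simpa [hs] using this
  refine ⟨e1, ?_⟩
  intro v hv
  have e2 : fderiv ℝ (fun X => F (s • X)) = fun Y => s • fderiv ℝ F (s • Y) := funext e
  have h2 := h.2 v
  rw [e2] at h2
  apply h2
  have e3 : fderiv ℝ (fun Y => s • fderiv ℝ F (s • Y)) X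
      = s • fderiv ℝ (fun Y => fderiv ℝ F (s • Y)) X :=
    congrFun (fderiv_const_smul_field (𝕜 := ℝ) (f := fun Y => fderiv ℝ F (s • Y)) s) X
  rw [e3]
  have e4 : fderiv ℝ (fun Y => fderiv ℝ F (s • Y)) X = s • fderiv ℝ (fderiv ℝ F) (s • X) :=
    fderiv_comp_smul s
  rw [e4]
  simp [hv]

/-- which plane is used in degree `a` -/
def pl (a : ℕ) : Fin 3 := if a % 2 = 0 then 1 else 2

theorem pl_ne_zero (a : ℕ) : pl a ≠ 0 := by
  unfold pl; split_ifs <;> decide

theorem pl_ne_succ (a : ℕ) : pl a ≠ pl (a + 1) := by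
  unfold pl
  rcases Nat.mod_two_eq_zero_or_one a with h | h
  · have h2 : (a + 1) % 2 = 1 := by omega
    simp [h, h2]
  · have h2 : (a + 1) % 2 = 0 := by omega
    simp [h, h2]

/-- the harmonic polynomials -/
noncomputable def Hf (c : ℕ → ℝ) (D : ℕ) (x : E3) : ℝ :=
  ∑ a ∈ Finset.range (D + 1), c a * ((W (pl a) x) ^ a).re

theorem W_smul (i : Fin 3) (s : ℝ) (x : E3) : W i (s • x) = (s : ℂ) * W i x := by
  apply Complex.ext <;> simp [W]

theorem W_contDiff (i : Fin 3) : ContDiff ℝ 3 (fun z : ℝ × E3 => W i z.2) := by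
  have h : (fun z : ℝ × E3 => W i z.2) = fun z => WL i z.2 := by
    funext z; rw [WL_apply]
  rw [h]
  exact (WL i).contDiff.comp contDiff_snd

theorem Wpow_contDiff (i : Fin 3) (n : ℕ) :
    ContDiff ℝ 3 (fun z : ℝ × E3 => ((W i z.2) ^ n).re) := by
  have h := (W_contDiff i).pow n
  exact Complex.reCLM.contDiff.comp h

theorem exists_many (D : ℕ) (hD : 2 ≤ D) : ∃ c : ℕ → ℝ, c D ≠ 0 ∧
    ∃ S : Finset E3, D.choose 3 ≤ S.card ∧ ∀ x ∈ S, Good (Hf c D) x := by
  classical
  induction D, hD using Nat.le_induction with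
  | base => exact ⟨fun _ => 1, one_ne_zero, ∅, by simp [Nat.choose], by simp⟩
  | succ D hD ih =>
    obtain ⟨c, hc, S, hS, hSg⟩ := ih
    obtain ⟨m, rfl⟩ : ∃ m, D = m + 1 := ⟨D - 1, by omega⟩
    have hm : 1 ≤ m := by omega
    obtain ⟨T, hT, hTp⟩ := twoTerm_points (pl (m + 1)) (pl (m + 2)) (pl_ne_zero _) (pl_ne_zero _)
      (pl_ne_succ _) m hm
    -- the new coefficient
    set κ : ℝ := c (m + 1) * (m + 1) / (m + 2) with hκ
    have hκ0 : κ ≠ 0 := by
      rw [hκ]; positivity
    -- the two families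
    let Φ1 : ℝ × E3 → ℝ := fun z =>
      (∑ a ∈ Finset.range (m + 2), c a * ((W (pl a) z.2) ^ a).re) +
        z.1 * κ * ((W (pl (m + 2)) z.2) ^ (m + 2)).re
    let Φ2 : ℝ × E3 → ℝ := fun z =>
      (∑ a ∈ Finset.range (m + 2), c a * z.1 ^ (m + 1 - a) * ((W (pl a) z.2) ^ a).re) +
        κ * ((W (pl (m + 2)) z.2) ^ (m + 2)).re
    have hΦ1 : ContDiff ℝ 3 Φ1 := by
      apply ContDiff.add
      · apply ContDiff.sum
        intro a _
        exact contDiff_const.mul (Wpow_contDiff _ _)
      · exact (contDiff_fst.mul contDiff_const).mul (Wpow_contDiff _ _)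
    have hΦ2 : ContDiff ℝ 3 Φ2 := by
      apply ContDiff.add
      · apply ContDiff.sum
        intro a _
        exact (contDiff_const.mul (contDiff_fst.pow _)).mul (Wpow_contDiff _ _)
      · exact contDiff_const.mul (Wpow_contDiff _ _)
    -- radius of old points
    obtain ⟨Rr, hRr⟩ : ∃ Rr : ℝ, 0 < Rr ∧ ∀ x ∈ S, ‖x‖ < Rr := by
      obtain ⟨B, hB⟩ := (S.finite_toSet.image (fun x => ‖x‖)).bddAbove
      refine ⟨max B 0 + 1, by positivity, ?_⟩
      intro x hx
      have := hB ⟨x, hx, rfl⟩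
      exact lt_of_le_of_lt (le_trans this (le_max_left _ _)) (lt_add_one _)
    obtain ⟨r, hr0, hr⟩ : ∃ r : ℝ, 0 < r ∧ ∀ x ∈ T, r < ‖x‖ := by
      have hx0 : ∀ x ∈ T, 0 < ‖x‖ := by
        intro x hx
        apply norm_pos_iff.2
        rintro rfl
        exact (hTp 0 hx).2.2.2.2 (by simp)
      have : ∀ᶠ r in 𝓝[>] (0:ℝ), ∀ x ∈ T, r < ‖x‖ := by
        rw [Finset.eventually_all]
        intro x hx
        exact mem_nhdsWithin_of_mem_nhds (Iio_mem_nhds (hx0 x hx))
      obtain ⟨r, hr1, hr2⟩ := (this.and self_mem_nhdsWithin).exists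
      exact ⟨r, hr2, hr1⟩
    have e1 : ∀ᶠ p in 𝓝 (0:ℝ), ∃ S' : Finset E3, S'.card = S.card ∧
        ∀ x ∈ S', x ∈ Metric.ball (0:E3) Rr ∧ Good (fun x => Φ1 (p, x)) x := by
      apply persist_finset Φ1 0 S (fun x _ => hΦ1.contDiffAt) _ _ Metric.isOpen_ball
      · intro x hx; simpa using hRr.2 x hx
      · intro x hx
        have := hSg x hx
        have hfun : Hf c (m + 1) = fun y => Φ1 (0, y) := by
          funext y; simp [Φ1, Hf]
        rw [hfun] at this
        exact this
    have e2 : ∀ᶠ p in 𝓝 (0:ℝ), ∃ T' : Finset E3, T'.card = T.card ∧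
        ∀ x ∈ T', x ∈ (Metric.closedBall (0:E3) r)ᶜ ∧ Good (fun x => Φ2 (p, x)) x := by
      apply persist_finset Φ2 0 T (fun x _ => hΦ2.contDiffAt) _ _
        Metric.isClosed_closedBall.isOpen_compl
      · intro x hx
        simp only [Set.mem_compl_iff, Metric.mem_closedBall, dist_zero_right, not_le]
        exact hr x hx
      · intro x hx
        obtain ⟨h1, h2, h3, h4, h5⟩ := hTp x hx
        have hg := (twoTerm_good (pl (m + 1)) (pl (m + 2)) (pl_ne_zero _) (pl_ne_zero _)
          (pl_ne_succ _) m hm x h1 h2 h3 h4 h5).const_mul (c (m + 1) * (m + 1))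
          (by positivity)
        have hfun : (fun y => c (m + 1) * (m + 1) * (((W (pl (m + 1)) y) ^ (m + 1)).re / (m + 1)
            + ((W (pl (m + 2)) y) ^ (m + 2)).re / (m + 2))) = fun y => Φ2 (0, y) := by
          funext y
          simp only [Φ2]
          rw [Finset.sum_range_succ]
          rw [Finset.sum_eq_zero]
          · simp only [Nat.sub_self, pow_zero, hκ]
            field_simp
            ring
          · intro a ha
            have : m + 1 - a ≠ 0 := by have := Finset.mem_range.1 ha; omega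
            simp [this]
        rw [hfun] at hg
        exact hg
    have e3 : ∀ᶠ p in 𝓝[>] (0:ℝ), p * Rr < r := by
      have : Filter.Tendsto (fun p : ℝ => p * Rr) (𝓝 0) (𝓝 (0 * Rr)) :=
        (continuous_id.mul continuous_const).tendsto _
      rw [zero_mul] at this
      exact mem_nhdsWithin_of_mem_nhds (this.eventually (gt_mem_nhds hr0))
    obtain ⟨p, ⟨⟨⟨S', hS'c, hS'⟩, T', hT'c, hT'⟩, hpr⟩, hp0⟩ :=
      ((((e1.filter_mono nhdsWithin_le_nhds).and (e2.filter_mono nhdsWithin_le_nhds)).and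
        e3).and self_mem_nhdsWithin).exists
    have hp0' : (0:ℝ) < p := hp0
    refine ⟨fun a => if a = m + 2 then p * κ else c a, by simp [hp0'.ne', hκ0], 
      S' ∪ T'.image (fun X => p⁻¹ • X), ?_, ?_⟩
    · rw [Finset.card_union_of_disjoint]
      · rw [Finset.card_image_of_injective _ (smul_right_injective _ (inv_ne_zero hp0'.ne'))]
        rw [hS'c, hT'c]
        have h2 : (m + 1).choose 2 = m * (m + 1) / 2 := by
          rw [Nat.choose_two_right]; simp [mul_comm]
        have h3 : (m + 1 + 1).choose 3 = (m + 1).choose 2 + (m + 1).choose 3 :=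
          Nat.choose_succ_succ _ _
        omega
      · rw [Finset.disjoint_left]
        intro x hx hx'
        obtain ⟨X, hX, rfl⟩ := Finset.mem_image.1 hx'
        have h1 := (hS' _ hx).1
        have h2 := (hT' _ hX).1
        simp only [Metric.mem_ball, dist_zero_right, norm_smul, norm_inv, Real.norm_eq_abs,
          abs_of_pos hp0'] at h1
        simp only [Set.mem_compl_iff, Metric.mem_closedBall, dist_zero_right, not_le] at h2
        rw [inv_mul_lt_iff₀ hp0'] at h1
        linarith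
    · have hH : ∀ x, Hf (fun a => if a = m + 2 then p * κ else c a) (m + 1 + 1) x = Φ1 (p, x) := by
        intro x
        simp only [Hf, Φ1]
        rw [Finset.sum_range_succ]
        congr 1
        · apply Finset.sum_congr rfl
          intro a ha
          have : a ≠ m + 2 := by have := Finset.mem_range.1 ha; omega
          simp [this]
        · simp
      have hH' : Hf (fun a => if a = m + 2 then p * κ else c a) (m + 1 + 1) = fun x => Φ1 (p, x) :=
        funext hH
      rw [hH']
      intro x hx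
      rcases Finset.mem_union.1 hx with hx | hx
      · exact (hS' x hx).2
      · obtain ⟨X, hX, rfl⟩ := Finset.mem_image.1 hx
        apply Good.scale _ (inv_ne_zero hp0'.ne')
        have hg := ((hT' X hX).2).const_mul ((p ^ (m + 1))⁻¹) (by positivity)
        have : (fun y => (p ^ (m + 1))⁻¹ * Φ2 (p, y)) = fun X => Φ1 (p, p⁻¹ • X) := by
          funext y
          simp only [Φ1, Φ2, W_smul]
          rw [mul_add, Finset.mul_sum]
          congr 1
          · apply Finset.sum_congr rfl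
            intro a ha
            have ha' : a ≤ m + 1 := by have := Finset.mem_range.1 ha; omega
            rw [mul_pow, ← Complex.ofReal_pow, Complex.re_ofReal_mul]
            have : (p ^ (m + 1))⁻¹ * p ^ (m + 1 - a) = p⁻¹ ^ a := by
              rw [inv_pow, inv_mul_eq_iff_eq_mul₀ (by positivity), eq_mul_inv_iff_mul_eq₀ (by positivity),
                ← pow_add]
              congr 1; omega
            rw [← this]; ring
          · rw [mul_pow, ← Complex.ofReal_pow, Complex.re_ofReal_mul]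
            have : (p ^ (m + 1))⁻¹ = p * p⁻¹ ^ (m + 2) := by
              rw [inv_pow, pow_succ p (m + 1)]
              field_simp
            rw [this]; ring
        rw [← this]
        exact hg

end Pool.Agent.Helper710.Eqb
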