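import Pool.Agent.Helper710.EqDefs

set_option autoImplicit false

open N62f3cee0
open scoped Gradient Topology

namespace Pool.Agent.Helper710.Eqb

theorem persist {P : Type*} [NormedAddCommGroup P] [NormedSpace ℝ P] [CompleteSpace P]
    (Φ : P × E3 → ℝ) (p0 : P) (x0 : E3) (hΦ : ContDiffAt ℝ 3 Φ (p0, x0))
    (h : Good (fun x => Φ (p0, x)) x0) (U : Set E3) (hU : U ∈ 𝓝 x0) :
    ∀ᶠ p in 𝓝 p0, ∃ x ∈ U, Good (fun x => Φ (p, x)) x := by
  classical
  -- the partial derivative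
  set G : P × E3 → (E3 →L[ℝ] ℝ) := fun q =>
    (fderiv ℝ Φ q).comp (ContinuousLinearMap.inr ℝ P E3) with hGdef
  have hslice : ∀ (p : P) (x : E3), HasFDerivAt (fun x : E3 => (p, x))
      (ContinuousLinearMap.inr ℝ P E3) x := by
    intro p x
    exact hasFDerivAt_prodMk_right p x
  have hG1 : ∀ q : P × E3, DifferentiableAt ℝ Φ q →
      fderiv ℝ (fun x => Φ (q.1, x)) q.2 = G q := by
    intro q hq
    have h1 : HasFDerivAt Φ (fderiv ℝ Φ q) (q.1, q.2) := hq.hasFDerivAt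
    exact (h1.comp q.2 (hslice q.1 q.2)).fderiv
  have hev3 : ∀ᶠ q in 𝓝 (p0, x0), ContDiffAt ℝ 3 Φ q := hΦ.eventually (by decide)
  have hevG : ∀ᶠ q in 𝓝 (p0, x0), G q = fderiv ℝ (fun x => Φ (q.1, x)) q.2 := by
    filter_upwards [hev3] with q hq
    exact (hG1 q (hq.differentiableAt (by norm_num))).symm
  have hGc : ∀ q, ContDiffAt ℝ 3 Φ q → ContDiffAt ℝ 2 G q := by
    intro q hq
    have h1 : ContDiffAt ℝ 2 (fderiv ℝ Φ) q := hq.fderiv_right (by norm_num)
    exact h1.clm_comp contDiffAt_const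
  -- second derivative
  set H : P × E3 → (E3 →L[ℝ] (E3 →L[ℝ] ℝ)) := fun q =>
    (fderiv ℝ G q).comp (ContinuousLinearMap.inr ℝ P E3) with hHdef
  have hH1 : ∀ᶠ q in 𝓝 (p0, x0),
      fderiv ℝ (fderiv ℝ (fun x => Φ (q.1, x))) q.2 = H q := by
    filter_upwards [hev3, hevG.eventually_nhds] with q hq hq2
    have h1 : HasFDerivAt G (fderiv ℝ G q) (q.1, q.2) :=
      ((hGc q hq).differentiableAt (by norm_num)).hasFDerivAt
    have h2 : HasFDerivAt (fun x => G (q.1, x)) (H q) q.2 := h1.comp q.2 (hslice q.1 q.2)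
    have h3 : (fderiv ℝ (fun x => Φ (q.1, x))) =ᶠ[𝓝 q.2] (fun x => G (q.1, x)) := by
      have h4 : Filter.Tendsto (fun x : E3 => (q.1, x)) (𝓝 q.2) (𝓝 q) := by
        have := (hslice q.1 q.2).continuousAt
        exact this
      filter_upwards [h4.eventually hq2] with x hx
      exact hx.symm
    rw [h3.fderiv_eq]
    exact h2.fderiv
  have hHc : ContinuousAt H (p0, x0) := by
    have h1 : ContDiffAt ℝ 1 (fderiv ℝ G) (p0, x0) := (hGc _ hΦ).fderiv_right (by norm_num)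
    have h2 : ContDiffAt ℝ 1 H (p0, x0) := h1.clm_comp contDiffAt_const
    exact h2.continuousAt
  -- injectivity at the base point
  have hinj0 : ∀ v, H (p0, x0) v = 0 → v = 0 := by
    intro v hv
    apply h.2 v
    have := hH1.self_of_nhds
    simp only at this
    rw [this]
    exact hv
  have hG0 : G (p0, x0) = 0 := by
    have := hevG.self_of_nhds
    simp only at this
    rw [this]
    exact h.1
  have hfin : Module.finrank ℝ E3 = Module.finrank ℝ (E3 →L[ℝ] ℝ) := by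
    have h1 : Module.finrank ℝ (E3 →L[ℝ] ℝ) = Module.finrank ℝ (E3 →ₗ[ℝ] ℝ) :=
      (LinearEquiv.finrank_eq (LinearMap.toContinuousLinearMap (𝕜 := ℝ) (E := E3) (F' := ℝ))).symm
    rw [h1]
    exact (Subspace.dual_finrank_eq (K := ℝ) (V := E3)).symm
  have hinjfun : ∀ T : E3 →L[ℝ] (E3 →L[ℝ] ℝ), (∀ v, T v = 0 → v = 0) → Function.Injective T := by
    intro T hT
    exact (injective_iff_map_eq_zero T).2 hT
  have hbij : ∀ T : E3 →L[ℝ] (E3 →L[ℝ] ℝ), (∀ v, T v = 0 → v = 0) → Function.Surjective T := by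
    intro T hT
    have := (LinearMap.injective_iff_surjective_of_finrank_eq_finrank
      (f := (T : E3 →ₗ[ℝ] (E3 →L[ℝ] ℝ))) hfin).1 (hinjfun T hT)
    exact this
  -- openness
  have hHev : ∀ᶠ q in 𝓝 (p0, x0), ∀ v, H q v = 0 → v = 0 := by
    let e : E3 ≃L[ℝ] (E3 →L[ℝ] ℝ) :=
      (LinearEquiv.ofBijective (H (p0, x0) : E3 →ₗ[ℝ] (E3 →L[ℝ] ℝ))
        ⟨hinjfun _ hinj0, hbij _ hinj0⟩).toContinuousLinearEquiv
    have he : (e : E3 →L[ℝ] (E3 →L[ℝ] ℝ)) = H (p0, x0) := by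
      ext v w
      rfl
    have h1 : Set.range ((↑) : (E3 ≃L[ℝ] (E3 →L[ℝ] ℝ)) → (E3 →L[ℝ] (E3 →L[ℝ] ℝ)))
        ∈ 𝓝 (H (p0, x0)) := by
      rw [← he]
      exact ContinuousLinearEquiv.nhds e
    filter_upwards [hHc h1] with q hq v hv
    obtain ⟨e', he'⟩ := hq
    rw [← he'] at hv
    have : e' v = 0 := hv
    exact (map_eq_zero_iff e' e'.injective).1 this
  -- the open map
  set Ψ : P × E3 → P × (E3 →L[ℝ] ℝ) := fun q => (q.1, G q) with hΨdef
  have hGs : HasStrictFDerivAt G (fderiv ℝ G (p0, x0)) (p0, x0) :=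
    (hGc _ hΦ).hasStrictFDerivAt (by norm_num)
  have hΨs : HasStrictFDerivAt Ψ
      ((ContinuousLinearMap.fst ℝ P E3).prod (fderiv ℝ G (p0, x0))) (p0, x0) :=
    hasStrictFDerivAt_fst.prodMk hGs
  have hsurj : Function.Surjective
      ((ContinuousLinearMap.fst ℝ P E3).prod (fderiv ℝ G (p0, x0))) := by
    rintro ⟨a, b⟩
    obtain ⟨v, hv⟩ := hbij _ hinj0 (b - fderiv ℝ G (p0, x0) (a, 0))
    refine ⟨(a, v), ?_⟩
    have h1 : fderiv ℝ G (p0, x0) (a, v) = fderiv ℝ G (p0, x0) (a, 0) + H (p0, x0) v := by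
      have : ((a, v) : P × E3) = (a, 0) + (0, v) := by simp
      rw [this, map_add]
      rfl
    simp only [ContinuousLinearMap.prod_apply, ContinuousLinearMap.coe_fst']
    rw [h1, hv]
    simp
  have hmap : Filter.map Ψ (𝓝 (p0, x0)) = 𝓝 (Ψ (p0, x0)) :=
    hΨs.map_nhds_eq_of_surj (LinearMap.range_eq_top.2 hsurj)
  have hUev : ∀ᶠ q : P × E3 in 𝓝 (p0, x0), q.2 ∈ U := continuousAt_snd.eventually_mem hU
  have hS : {q : P × E3 | q.2 ∈ U ∧ (G q = fderiv ℝ (fun x => Φ (q.1, x)) q.2) ∧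
      (fderiv ℝ (fderiv ℝ (fun x => Φ (q.1, x))) q.2 = H q) ∧ (∀ v, H q v = 0 → v = 0)}
      ∈ 𝓝 (p0, x0) := by
    filter_upwards [hUev, hevG, hH1, hHev] with q h1 h2 h3 h4
    exact ⟨h1, h2, h3, h4⟩
  have himg := Filter.image_mem_map (m := Ψ) hS
  rw [hmap] at himg
  have hcont : Filter.Tendsto (fun p : P => ((p, 0) : P × (E3 →L[ℝ] ℝ))) (𝓝 p0)
      (𝓝 (Ψ (p0, x0))) := by
    have : Ψ (p0, x0) = (p0, 0) := by simp [hΨdef, hG0]
    rw [this]
    exact (Continuous.prodMk_left (0 : E3 →L[ℝ] ℝ)).continuousAt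
  filter_upwards [hcont himg] with p hp
  obtain ⟨q, hq, hqp⟩ := hp
  obtain ⟨q1, q2⟩ := q
  obtain ⟨hqU, hqG, hqH, hqi⟩ := hq
  have h1 : q1 = p := (Prod.mk.inj hqp).1
  have h2 : G (q1, q2) = 0 := (Prod.mk.inj hqp).2
  subst h1
  refine ⟨q2, hqU, ?_, ?_⟩
  · simp only at hqG
    rw [← hqG]
    exact h2
  · intro v hv
    simp only at hqH
    rw [hqH] at hv
    exact hqi v hv

/-- `W i` as a continuous real linear map -/
noncomputable def WL (i : Fin 3) : E3 →L[ℝ] ℂ :=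
  Complex.ofRealCLM.comp (EuclideanSpace.proj i : E3 →L[ℝ] ℝ) +
    Complex.I • Complex.ofRealCLM.comp (EuclideanSpace.proj (0 : Fin 3) : E3 →L[ℝ] ℝ)

theorem WL_apply (i : Fin 3) (x : E3) : WL i x = W i x := by
  unfold WL W
  apply Complex.ext <;> simp

/-- real part of multiplication, as a linear map in the multiplier -/
noncomputable def LL (i : Fin 3) : ℂ →L[ℝ] (E3 →L[ℝ] ℝ) :=
  LinearMap.toContinuousLinearMap
    { toFun := fun c => Complex.reCLM.comp (c • WL i)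
      map_add' := by
        intro c d
        ext v
        simp [add_mul]
      map_smul' := by
        intro r c
        ext v
        simp [mul_assoc] }

theorem LL_apply (i : Fin 3) (c : ℂ) (v : E3) : LL i c v = (c * WL i v).re := rfl

theorem hasFD_pow (i : Fin 3) (n : ℕ) (y : E3) :
    HasFDerivAt (fun y => (W i y) ^ (n + 1)) ((((n : ℂ) + 1) * (W i y) ^ n) • WL i) y := by
  have h1 : HasFDerivAt (fun y => W i y) (WL i) y := by
    have := (WL i).hasFDerivAt (x := y)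
    refine this.congr_of_eventuallyEq ?_
    exact Filter.Eventually.of_forall (fun z => (WL_apply i z).symm)
  have h2 := h1.pow (n + 1)
  refine h2.congr_fderiv ?_
  ext v
  simp

theorem hasFD_term (i : Fin 3) (n : ℕ) (y : E3) :
    HasFDerivAt (fun y => ((W i y) ^ (n + 1)).re / ((n : ℝ) + 1)) (LL i ((W i y) ^ n)) y := by
  have h1 := (Complex.reCLM.hasFDerivAt (x := (W i y) ^ (n + 1))).comp y (hasFD_pow i n y)
  have h2 := h1.mul_const (((n : ℝ) + 1)⁻¹)
  have hn : (n : ℝ) + 1 ≠ 0 := by positivity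
  refine (h2.congr_fderiv ?_).congr_of_eventuallyEq ?_
  · ext v
    have e : (((n : ℂ) + 1) * (W i y) ^ n) * WL i v = (((n : ℝ) + 1 : ℝ) : ℂ) * ((W i y) ^ n * WL i v) := by
      push_cast
      ring
    have e2 : (Complex.reCLM.comp ((((n : ℂ) + 1) * (W i y) ^ n) • WL i)) v =
        ((n : ℝ) + 1) * ((W i y) ^ n * WL i v).re := by
      show ((((n : ℂ) + 1) * (W i y) ^ n) * WL i v).re = _
      rw [e, Complex.re_ofReal_mul]
    rw [LL_apply]
    show ((n : ℝ) + 1)⁻¹ * (Complex.reCLM.comp ((((n : ℂ) + 1) * (W i y) ^ n) • WL i)) v = _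
    rw [e2]
    field_simp
  · exact Filter.Eventually.of_forall (fun z => by simp only [Function.comp]; rw [div_eq_mul_inv]; rfl)

theorem hasFD_LL (i : Fin 3) (n : ℕ) (y : E3) :
    HasFDerivAt (fun y => LL i ((W i y) ^ (n + 1)))
      ((LL i).comp ((((n : ℂ) + 1) * (W i y) ^ n) • WL i)) y :=
  ((LL i).hasFDerivAt (x := (W i y) ^ (n + 1))).comp y (hasFD_pow i n y)

theorem alg_aux (A B A' B' a a' h s m vi vi' v0 : ℝ) (hh : h ≠ 0) (hs : s ≠ 0)
    (hm : 0 < m) (e1 : A * a - B * h = 0) (e2 : A * h + B * a = m * s)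
    (e3 : A' * a' - B' * h = 0) (e4 : A' * h + B' * a' = -((m + 1) * s))
    (f1 : A * vi - B * v0 = 0) (f2 : A' * vi' - B' * v0 = 0)
    (f3 : (A * v0 + B * vi) + (A' * v0 + B' * vi') = 0) : v0 = 0 ∧ vi = 0 ∧ vi' = 0 := by
  have hB : B = A * a / h := by field_simp; linarith
  have hB' : B' = A' * a' / h := by field_simp; linarith
  have hA : A ≠ 0 := by
    rintro rfl
    rw [zero_mul, zero_div] at hB
    rw [hB] at e2
    have : m * s = 0 := by linarith
    rcases mul_eq_zero.mp this with h1 | h1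
    · exact hm.ne' h1
    · exact hs h1
  have hA' : A' ≠ 0 := by
    rintro rfl
    rw [zero_mul, zero_div] at hB'
    rw [hB'] at e4
    have : (m + 1) * s = 0 := by linarith
    rcases mul_eq_zero.mp this with h1 | h1
    · linarith
    · exact hs h1
  have hvi : vi = a / h * v0 := by
    have h1 : A * (vi - a / h * v0) = 0 := by
      rw [hB] at f1
      have : A * (vi - a / h * v0) = A * vi - A * a / h * v0 := by ring
      rw [this]; exact f1
    rcases mul_eq_zero.mp h1 with h2 | h2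
    · exact absurd h2 hA
    · linarith
  have hvi' : vi' = a' / h * v0 := by
    have h1 : A' * (vi' - a' / h * v0) = 0 := by
      rw [hB'] at f2
      have : A' * (vi' - a' / h * v0) = A' * vi' - A' * a' / h * v0 := by ring
      rw [this]; exact f2
    rcases mul_eq_zero.mp h1 with h2 | h2
    · exact absurd h2 hA'
    · linarith
  have k1 : A * (h ^ 2 + a ^ 2) = m * s * h := by
    rw [hB] at e2
    field_simp at e2
    linarith
  have k2 : A' * (h ^ 2 + a' ^ 2) = -((m + 1) * s) * h := by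
    rw [hB'] at e4
    field_simp at e4
    linarith
  have hv0 : v0 = 0 := by
    rw [hvi, hvi', hB, hB'] at f3
    have h1 : (A * (h ^ 2 + a ^ 2) + A' * (h ^ 2 + a' ^ 2)) * v0 = 0 := by
      field_simp at f3
      linarith
    rw [k1, k2] at h1
    have h2 : (s * h) * v0 = 0 := by linarith
    rcases mul_eq_zero.mp h2 with h3 | h3
    · rcases mul_eq_zero.mp h3 with h4 | h4
      · exact absurd h4 hs
      · exact absurd h4 hh
    · exact h3
  refine ⟨hv0, ?_, ?_⟩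
  · rw [hvi, hv0, mul_zero]
  · rw [hvi', hv0, mul_zero]

theorem twoTerm_good (i i' : Fin 3) (hi : i ≠ 0) (hi' : i' ≠ 0) (hii : i ≠ i') (m : ℕ)
    (hm : 1 ≤ m) (x : E3) (h1 : ((W i x) ^ m).re = 0) (h2 : ((W i' x) ^ (m + 1)).re = 0)
    (h3 : ((W i x) ^ m).im + ((W i' x) ^ (m + 1)).im = 0) (h4 : ((W i x) ^ m).im ≠ 0)
    (h5 : x 0 ≠ 0) :
    Good (fun x => ((W i x) ^ (m + 1)).re / (m + 1) + ((W i' x) ^ (m + 2)).re / (m + 2)) x := by
  obtain ⟨k, rfl⟩ : ∃ k, m = k + 1 := ⟨m - 1, by omega⟩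
  set F : E3 → ℝ := fun x => ((W i x) ^ (k + 1 + 1)).re / (((k + 1 : ℕ) : ℝ) + 1) +
    ((W i' x) ^ (k + 1 + 2)).re / (((k + 1 : ℕ) : ℝ) + 2) with hF
  have hfd : ∀ y, HasFDerivAt F (LL i ((W i y) ^ (k + 1)) + LL i' ((W i' y) ^ (k + 2))) y := by
    intro y
    have a1 := hasFD_term i (k + 1) y
    have a2 := hasFD_term i' (k + 2) y
    have a3 := a1.add a2
    refine a3.congr_of_eventuallyEq (Filter.Eventually.of_forall fun z => ?_)
    rw [hF]
    simp only [Pi.add_apply]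
    congr 2
    push_cast
    ring
  have hfd' : fderiv ℝ F = fun y => LL i ((W i y) ^ (k + 1)) + LL i' ((W i' y) ^ (k + 2)) :=
    funext fun y => (hfd y).fderiv
  have hfd2 : HasFDerivAt (fderiv ℝ F)
      ((LL i).comp ((((k : ℂ) + 1) * (W i x) ^ k) • WL i) +
        (LL i').comp (((((k + 1 : ℕ) : ℂ) + 1) * (W i' x) ^ (k + 1)) • WL i')) x := by
    rw [hfd']
    exact (hasFD_LL i k x).add (hasFD_LL i' (k + 1) x)
  set s : ℝ := ((W i x) ^ (k + 1)).im with hs
  have hw1 : (W i x) ^ (k + 1) = Complex.I * s := by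
    apply Complex.ext
    · rw [h1]; simp
    · simp [hs]
  have hw2 : (W i' x) ^ (k + 1 + 1) = -(Complex.I * s) := by
    apply Complex.ext
    · rw [h2]; simp
    · simp; linarith
  have hWL : ∀ (i : Fin 3) (v : E3), WL i v = (v i : ℂ) + Complex.I * (v 0 : ℂ) := by
    intro i v
    unfold WL
    simp
  constructor
  · rw [hfd']
    ext v
    show LL i ((W i x) ^ (k + 1)) v + LL i' ((W i' x) ^ (k + 1 + 1)) v = 0
    rw [LL_apply, LL_apply, hw1, hw2, hWL, hWL]
    simp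
  · intro v hv
    rw [hfd2.fderiv] at hv
    have hu : ∀ u : E3, ((((k : ℂ) + 1) * (W i x) ^ k * WL i v) * WL i u).re +
        (((((k + 1 : ℕ) : ℂ) + 1) * (W i' x) ^ (k + 1) * WL i' v) * WL i' u).re = 0 := by
      intro u
      have := congrArg (fun L : E3 →L[ℝ] ℝ => L u) hv
      exact this
    set c : ℂ := ((k : ℂ) + 1) * (W i x) ^ k with hc
    set c' : ℂ := (((k + 1 : ℕ) : ℂ) + 1) * (W i' x) ^ (k + 1) with hc'
    have g1 := hu (EuclideanSpace.single i 1)
    have g2 := hu (EuclideanSpace.single i' 1)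
    have g3 := hu (EuclideanSpace.single 0 1)
    have z1 : WL i (EuclideanSpace.single i (1:ℝ)) = 1 := by
      rw [hWL]; simp [hi, Ne.symm hi]
    have z2 : WL i' (EuclideanSpace.single i (1:ℝ)) = 0 := by
      rw [hWL]; simp [hii, Ne.symm hii, hi, Ne.symm hi]
    have z3 : WL i (EuclideanSpace.single i' (1:ℝ)) = 0 := by
      rw [hWL]; simp [hii, Ne.symm hii, hi', Ne.symm hi']
    have z4 : WL i' (EuclideanSpace.single i' (1:ℝ)) = 1 := by
      rw [hWL]; simp [hi', Ne.symm hi']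
    have z5 : WL i (EuclideanSpace.single 0 (1:ℝ)) = Complex.I := by
      rw [hWL]; simp [hi, Ne.symm hi]
    have z6 : WL i' (EuclideanSpace.single 0 (1:ℝ)) = Complex.I := by
      rw [hWL]; simp [hi', Ne.symm hi']
    rw [z1, z2, mul_one, mul_zero, Complex.zero_re, add_zero] at g1
    rw [z3, z4, mul_one, mul_zero, Complex.zero_re, zero_add] at g2
    rw [z5, z6] at g3
    rw [hWL] at g1 g2 g3
    rw [hWL] at g3
    have hcw : c * W i x = ((k + 1 : ℝ) : ℂ) * (Complex.I * s) := by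
      rw [hc, mul_assoc, ← pow_succ, hw1]
      push_cast
      ring
    have hcw' : c' * W i' x = -((((k + 1 : ℝ) + 1 : ℝ) : ℂ) * (Complex.I * s)) := by
      rw [hc', mul_assoc, ← pow_succ, hw2]
      push_cast
      ring
    have r1 := congrArg Complex.re hcw
    have r2 := congrArg Complex.im hcw
    have r3 := congrArg Complex.re hcw'
    have r4 := congrArg Complex.im hcw'
    have wre : ∀ i : Fin 3, (W i x).re = x i := fun _ => rfl
    have wim : ∀ i : Fin 3, (W i x).im = x 0 := fun _ => rfl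
    simp only [Complex.mul_re, Complex.mul_im, Complex.add_re, Complex.add_im, Complex.ofReal_re,
      Complex.ofReal_im, Complex.I_re, Complex.I_im, Complex.neg_re, Complex.neg_im, wre, wim,
      zero_mul, mul_zero, sub_zero, zero_sub, add_zero, zero_add, one_mul, mul_one,
      neg_zero] at r1 r2 r3 r4 g1 g2 g3
    obtain ⟨q0, qi, qi'⟩ := alg_aux c.re c.im c'.re c'.im (x i) (x i') (x 0) s ((k:ℝ) + 1)
      (v i) (v i') (v 0) h5 h4 (by positivity) (by linarith) (by linarith) (by linarith)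
      (by linarith) (by linarith) (by linarith) (by linarith)
    ext j
    show v j = 0
    have hjj : ∀ i i' j : Fin 3, i ≠ 0 → i' ≠ 0 → i ≠ i' → j = 0 ∨ j = i ∨ j = i' := by decide
    have hj := hjj i i' j hi hi' hii
    rcases hj with rfl | rfl | rfl
    · exact q0
    · exact qi
    · exact qi'

theorem aux833_card (m : ℕ) : 2 * ((Finset.range m ×ˢ Finset.range (m + 1)).filter
    (fun p : ℕ × ℕ => Odd (p.1 + p.2))).card = m * (m + 1) := by
  have h1 : ((2 * ((Finset.range m ×ˢ Finset.range (m + 1)).filter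
    (fun p : ℕ × ℕ => Odd (p.1 + p.2))).card : ℕ) : ℤ) =
      ∑ p ∈ Finset.range m ×ˢ Finset.range (m + 1), (1 - (-1 : ℤ) ^ (p.1 + p.2)) := by
    rw [Finset.card_filter]
    push_cast
    rw [Finset.mul_sum]
    refine Finset.sum_congr rfl (fun p _ => ?_)
    by_cases h : Odd (p.1 + p.2)
    · rw [if_pos h, h.neg_one_pow]; norm_num
    · rw [if_neg h, (Nat.not_odd_iff_even.1 h).neg_one_pow]; norm_num
  have h2 : ∑ p ∈ Finset.range m ×ˢ Finset.range (m + 1), (-1 : ℤ) ^ (p.1 + p.2) = 0 := by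
    have : ∑ p ∈ Finset.range m ×ˢ Finset.range (m + 1), (-1 : ℤ) ^ (p.1 + p.2)
        = (∑ j ∈ Finset.range m, (-1 : ℤ) ^ j) * ∑ l ∈ Finset.range (m + 1), (-1 : ℤ) ^ l := by
      rw [Finset.sum_mul_sum, Finset.sum_product]
      exact Finset.sum_congr rfl (fun j _ => Finset.sum_congr rfl (fun l _ => pow_add _ _ _))
    rw [this, neg_one_geom_sum, neg_one_geom_sum]
    rcases Nat.even_or_odd m with h | h
    · simp [h]
    · have : Even (m + 1) := h.add_one
      simp [this]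
  rw [Finset.sum_sub_distrib, h2] at h1
  simp only [Finset.sum_const, Finset.card_product, Finset.card_range, sub_zero] at h1
  have h3 : ((2 * ((Finset.range m ×ˢ Finset.range (m + 1)).filter
    (fun p : ℕ × ℕ => Odd (p.1 + p.2))).card : ℕ) : ℤ) = ((m * (m + 1) : ℕ) : ℤ) := by
    rw [h1]; simp
  exact_mod_cast h3

theorem aux833_ang (m j : ℕ) (hj : j < m) :
    0 < (Real.pi / 2 + Real.pi * j) / m ∧ (Real.pi / 2 + Real.pi * j) / m < Real.pi := by
  have hm : (0 : ℝ) < m := by exact_mod_cast (Nat.zero_le j).trans_lt hj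
  have hj' : (j : ℝ) + 1 ≤ m := by exact_mod_cast hj
  have hpi := Real.pi_pos
  refine ⟨by positivity, ?_⟩
  rw [div_lt_iff₀ hm]
  nlinarith

theorem aux833_ang_inj (m j j' : ℕ) (hm : 0 < m)
    (h : (Real.pi / 2 + Real.pi * j) / m = (Real.pi / 2 + Real.pi * j') / m) : j = j' := by
  have hm' : (m : ℝ) ≠ 0 := by positivity
  rw [div_left_inj' hm'] at h
  have h1 : Real.pi * j = Real.pi * j' := by linarith
  have h2 := mul_left_cancel₀ Real.pi_ne_zero h1
  exact_mod_cast h2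

theorem aux833_pow (r θ : ℝ) (m j : ℕ) (h : (m : ℝ) * θ = Real.pi / 2 + Real.pi * j) :
    (((r : ℂ) * (Complex.cos θ + Complex.sin θ * Complex.I)) ^ m) =
      ((r ^ m * (-1) ^ j : ℝ) : ℂ) * Complex.I := by
  rw [mul_pow, Complex.cos_add_sin_mul_I_pow]
  have h1 : ((m : ℂ) * (θ : ℂ)) = ((Real.pi / 2 + Real.pi * j : ℝ) : ℂ) := by
    rw [← h]; push_cast; ring
  rw [h1, ← Complex.ofReal_cos, ← Complex.ofReal_sin]
  have h2 : Real.cos (Real.pi / 2 + Real.pi * j) = 0 := by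
    rw [Real.cos_add, Real.cos_pi_div_two]
    have : Real.sin (Real.pi * j) = 0 := by rw [mul_comm]; exact Real.sin_nat_mul_pi j
    rw [this]; ring
  have h3 : Real.sin (Real.pi / 2 + Real.pi * j) = (-1) ^ j := by
    rw [Real.sin_add, Real.sin_pi_div_two, Real.cos_pi_div_two]
    have : Real.cos (Real.pi * j) = (-1) ^ j := by rw [mul_comm]; exact Real.cos_nat_mul_pi j
    rw [this]; ring
  rw [h2, h3]
  push_cast
  ring

theorem aux833_mk (r c s : ℝ) : (⟨r * c, r * s⟩ : ℂ) = (r : ℂ) * ((c : ℂ) + (s : ℂ) * Complex.I) := by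
  apply Complex.ext <;> simp

theorem twoTerm_points (i i' : Fin 3) (hi : i ≠ 0) (hi' : i' ≠ 0) (hii : i ≠ i') (m : ℕ)
    (hm : 1 ≤ m) : ∃ T : Finset E3, m * (m + 1) / 2 ≤ T.card ∧ ∀ x ∈ T,
      ((W i x) ^ m).re = 0 ∧ ((W i' x) ^ (m + 1)).re = 0 ∧
      ((W i x) ^ m).im + ((W i' x) ^ (m + 1)).im = 0 ∧ ((W i x) ^ m).im ≠ 0 ∧ x 0 ≠ 0 := by
  classical
  obtain ⟨θ, hθ⟩ : ∃ θ : ℕ → ℝ, ∀ j, θ j = (Real.pi / 2 + Real.pi * j) / m := ⟨_, fun _ => rfl⟩
  obtain ⟨φ, hφ⟩ : ∃ φ : ℕ → ℝ, ∀ l, φ l = (Real.pi / 2 + Real.pi * l) / (m + 1 : ℕ) :=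
    ⟨_, fun _ => rfl⟩
  obtain ⟨q, hq⟩ : ∃ q : ℕ × ℕ → ℝ, ∀ p, q p = Real.sin (φ p.2) / Real.sin (θ p.1) :=
    ⟨_, fun _ => rfl⟩
  obtain ⟨P, hP⟩ : ∃ P : ℕ × ℕ → E3, ∀ p, P p = WithLp.toLp 2 (fun k : Fin 3 =>
      if k = 0 then q p ^ (m + 1) * Real.sin (θ p.1) else
      if k = i then q p ^ (m + 1) * Real.cos (θ p.1) else q p ^ m * Real.cos (φ p.2)) :=
    ⟨_, fun _ => rfl⟩
  obtain ⟨S, hS⟩ : ∃ S : Finset (ℕ × ℕ), S = (Finset.range m ×ˢ Finset.range (m + 1)).filter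
    (fun p : ℕ × ℕ => Odd (p.1 + p.2)) := ⟨_, rfl⟩
  have hm0 : (m : ℝ) ≠ 0 := by positivity
  have hm1 : ((m + 1 : ℕ) : ℝ) ≠ 0 := by positivity
  have key : ∀ p ∈ S, (0 < θ p.1 ∧ θ p.1 < Real.pi) ∧ (0 < φ p.2 ∧ φ p.2 < Real.pi) ∧
      Odd (p.1 + p.2) := by
    intro p hp
    rw [hS, Finset.mem_filter, Finset.mem_product, Finset.mem_range, Finset.mem_range] at hp
    refine ⟨?_, ?_, hp.2⟩
    · rw [hθ]; exact aux833_ang m p.1 hp.1.1
    · rw [hφ]; exact aux833_ang (m + 1) p.2 hp.1.2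
  have hqpos : ∀ p ∈ S, 0 < q p := by
    intro p hp
    obtain ⟨h1, h2, _⟩ := key p hp
    rw [hq]
    exact div_pos (Real.sin_pos_of_pos_of_lt_pi h2.1 h2.2) (Real.sin_pos_of_pos_of_lt_pi h1.1 h1.2)
  have hy : ∀ p ∈ S, q p ^ (m + 1) * Real.sin (θ p.1) = q p ^ m * Real.sin (φ p.2) := by
    intro p hp
    obtain ⟨h1, h2, _⟩ := key p hp
    have hs : Real.sin (θ p.1) ≠ 0 := (Real.sin_pos_of_pos_of_lt_pi h1.1 h1.2).ne'
    have : q p * Real.sin (θ p.1) = Real.sin (φ p.2) := by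
      rw [hq, div_mul_cancel₀ _ hs]
    rw [pow_succ, mul_assoc, this]
  have hW1 : ∀ p, W i (P p) = ((q p ^ (m + 1) : ℝ) : ℂ) *
      (Complex.cos (θ p.1) + Complex.sin (θ p.1) * Complex.I) := by
    intro p
    rw [← Complex.ofReal_cos, ← Complex.ofReal_sin, ← aux833_mk, W]
    have h1 : (P p) i = q p ^ (m + 1) * Real.cos (θ p.1) := by rw [hP]; simp [hi]
    have h2 : (P p) 0 = q p ^ (m + 1) * Real.sin (θ p.1) := by rw [hP]; simp
    rw [h1, h2]
  have hW2 : ∀ p ∈ S, W i' (P p) = ((q p ^ m : ℝ) : ℂ) *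
      (Complex.cos (φ p.2) + Complex.sin (φ p.2) * Complex.I) := by
    intro p hp
    rw [← Complex.ofReal_cos, ← Complex.ofReal_sin, ← aux833_mk, W]
    have h1 : (P p) i' = q p ^ m * Real.cos (φ p.2) := by rw [hP]; simp [hi', hii.symm]
    have h2 : (P p) 0 = q p ^ m * Real.sin (φ p.2) := by rw [← hy p hp, hP]; simp
    rw [h1, h2]
  refine ⟨S.image P, ?_, ?_⟩
  · have hinj : Set.InjOn P (S : Set (ℕ × ℕ)) := by
      intro p hp p' hp' h
      have e1 : W i (P p) = W i (P p') := by rw [h]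
      have e2 : W i' (P p) = W i' (P p') := by rw [h]
      rw [hW1, hW1] at e1
      rw [hW2 p hp, hW2 p' hp'] at e2
      obtain ⟨k1, k2, _⟩ := key p hp
      obtain ⟨k1', k2', _⟩ := key p' hp'
      have q0 := hqpos p hp
      have q0' := hqpos p' hp'
      have a1 := Complex.arg_mul_cos_add_sin_mul_I (r := q p ^ (m + 1)) (by positivity)
        (θ := θ p.1) ⟨by linarith [Real.pi_pos], k1.2.le⟩
      have a1' := Complex.arg_mul_cos_add_sin_mul_I (r := q p' ^ (m + 1)) (by positivity)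
        (θ := θ p'.1) ⟨by linarith [Real.pi_pos], k1'.2.le⟩
      have a2 := Complex.arg_mul_cos_add_sin_mul_I (r := q p ^ m) (by positivity)
        (θ := φ p.2) ⟨by linarith [Real.pi_pos], k2.2.le⟩
      have a2' := Complex.arg_mul_cos_add_sin_mul_I (r := q p' ^ m) (by positivity)
        (θ := φ p'.2) ⟨by linarith [Real.pi_pos], k2'.2.le⟩
      rw [e1, a1'] at a1
      rw [e2, a2'] at a2
      rw [hθ, hθ] at a1
      rw [hφ, hφ] at a2
      have b1 := aux833_ang_inj m p'.1 p.1 (by omega) a1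
      have b2 := aux833_ang_inj (m + 1) p'.2 p.2 (by omega) a2
      exact Prod.ext b1.symm b2.symm
    rw [Finset.card_image_of_injOn hinj]
    have := aux833_card m
    rw [← hS] at this
    omega
  · intro x hx
    rw [Finset.mem_image] at hx
    obtain ⟨p, hp, rfl⟩ := hx
    obtain ⟨k1, k2, hodd⟩ := key p hp
    have q0 := hqpos p hp
    have c1 : ((m : ℕ) : ℝ) * θ p.1 = Real.pi / 2 + Real.pi * (p.1 : ℝ) := by
      rw [hθ]; field_simp
    have c2 : ((m + 1 : ℕ) : ℝ) * φ p.2 = Real.pi / 2 + Real.pi * (p.2 : ℝ) := by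
      rw [hφ]; field_simp
    have d1 := aux833_pow (q p ^ (m + 1)) (θ p.1) m p.1 c1
    have d2 := aux833_pow (q p ^ m) (φ p.2) (m + 1) p.2 c2
    rw [hW1, hW2 p hp, d1, d2]
    have e1 : (q p ^ (m + 1)) ^ m = (q p ^ m) ^ (m + 1) := by rw [← pow_mul, ← pow_mul, mul_comm]
    have hpos : 0 < (q p ^ m) ^ (m + 1) := by positivity
    refine ⟨?_, ?_, ?_, ?_, ?_⟩
    · rw [Complex.re_ofReal_mul]; simp
    · rw [Complex.re_ofReal_mul]; simp
    · rw [Complex.im_ofReal_mul, Complex.im_ofReal_mul, Complex.I_im, mul_one, mul_one, e1,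
        ← mul_add]
      have : (-1 : ℝ) ^ p.1 + (-1) ^ p.2 = 0 := by
        have h1 : (-1 : ℝ) ^ (p.1 + p.2) = -1 := hodd.neg_one_pow
        rw [pow_add] at h1
        rcases neg_one_pow_eq_or ℝ p.1 with h | h <;> rw [h] at h1 ⊢ <;> linarith
      rw [this, mul_zero]
    · rw [Complex.im_ofReal_mul, Complex.I_im, mul_one, e1]
      refine mul_ne_zero hpos.ne' ?_
      exact pow_ne_zero _ (by norm_num)
    · rw [hP]
      simp only [if_true]
      exact (mul_pos (by positivity) (Real.sin_pos_of_pos_of_lt_pi k1.1 k1.2)).ne'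

end Pool.Agent.Helper710.Eqb
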