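import Pool.Agent.Helper710.EqDefs

set_option autoImplicit false

open N62f3cee0
open scoped Gradient Topology

namespace Pool.Agent.Helper710.Eqb

theorem choose_ne_zero (n : ℕ) : Ring.choose ((1 / 2 : ℝ) + n - 1) n ≠ 0 := by
  have h1 : Ring.choose ((1 / 2 : ℝ) + n - 1) n = Ring.multichoose (1 / 2 : ℝ) n := by
    rw [Ring.choose]
    congr 1
    ring
  rw [h1]
  have h2 := Ring.factorial_nsmul_multichoose_eq_ascPochhammer (1 / 2 : ℝ) n
  rw [Polynomial.ascPochhammer_smeval_eq_eval] at h2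
  have h3 : 0 < (ascPochhammer ℝ n).eval (1 / 2 : ℝ) := ascPochhammer_pos n _ (by norm_num)
  intro h4
  rw [h4, smul_zero] at h2
  linarith

theorem f0_eq : f0 = fun x : ℝ => 1 / (1 - x) ^ (1 / 2 : ℝ) := by
  funext x
  unfold f0
  rw [Real.sqrt_eq_rpow, one_div ((1 - x) ^ (1 / 2 : ℝ))]

theorem exp_step (F : ℝ → ℝ) (a : ℕ) : ∀ y : ℝ,
    F y = ∑ n ∈ Finset.range (a + 1), ((Function.swap dslope 0)^[n] F) 0 * y ^ n +
      y ^ (a + 1) * ((Function.swap dslope 0)^[a + 1] F) y := by
  have key : ∀ (G : ℝ → ℝ) (y : ℝ), G y = G 0 + y * dslope G 0 y := by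
    intro G y
    have := sub_smul_dslope G 0 y
    rw [sub_zero, smul_eq_mul] at this
    linarith
  intro y
  induction a with
  | zero =>
    simp only [Finset.range_one, Finset.sum_singleton, Function.iterate_zero, id, pow_zero, mul_one, zero_add, pow_one,
      Function.iterate_one]
    exact key F y
  | succ a ih =>
    rw [Finset.sum_range_succ, Function.iterate_succ' _ (a + 1)]
    have h := key ((Function.swap dslope 0)^[a + 1] F) y
    simp only [Function.comp]
    show F y = _ + y ^ (a + 1 + 1) * dslope ((Function.swap dslope 0)^[a + 1] F) 0 y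
    rw [ih]
    conv_lhs => rw [h]
    ring

theorem f0_expansion : ∃ b : ℕ → ℝ, (∀ n, b n ≠ 0) ∧ ∀ a : ℕ, ∃ ρ : ℝ → ℝ, AnalyticAt ℝ ρ 0 ∧
    ∀ y : ℝ, f0 y = ∑ n ∈ Finset.range (a + 1), b n * y ^ n + y ^ (a + 1) * ρ y := by
  have hp := (Real.one_div_one_sub_rpow_hasFPowerSeriesOnBall_zero (1 / 2)).hasFPowerSeriesAt
  rw [← f0_eq] at hp
  refine ⟨fun n => ((Function.swap dslope 0)^[n] f0) 0, ?_, ?_⟩
  · intro n
    have h1 := (HasFPowerSeriesAt.has_fpower_series_iterate_dslope_fslope n hp).coeff_zero 1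
    rw [← FormalMultilinearSeries.coeff, FormalMultilinearSeries.coeff_iterate_fslope, zero_add,
      FormalMultilinearSeries.coeff_ofScalars] at h1
    simp only
    rw [← h1]
    exact choose_ne_zero n
  · intro a
    refine ⟨(Function.swap dslope 0)^[a + 1] f0, ?_, exp_step f0 a⟩
    exact (HasFPowerSeriesAt.has_fpower_series_iterate_dslope_fslope (a + 1) hp).analyticAt

/-- sum of a polynomial of small degree over the roots of unity -/
theorem sum_eval_root {ζ : ℂ} {J : ℕ} (hζ : IsPrimitiveRoot ζ J) (Q : Polynomial ℂ)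
    (hQ : Q.natDegree < J) :
    ∑ j ∈ Finset.range J, Q.eval (ζ ^ j) = (J : ℂ) * Q.coeff 0 := by
  have h1 : ∀ j, Q.eval (ζ ^ j) = ∑ k ∈ Finset.range J, Q.coeff k * (ζ ^ k) ^ j := by
    intro j
    rw [Polynomial.eval_eq_sum_range' hQ]
    apply Finset.sum_congr rfl
    intro k _
    rw [← pow_mul, ← pow_mul, mul_comm j k]
  simp only [h1]
  rw [Finset.sum_comm]
  have hJ : 0 < J := by omega
  rw [Finset.sum_eq_single 0]
  · simp [mul_comm]
  · intro k hk hk0
    rw [← Finset.mul_sum]
    have h2 : ζ ^ k ≠ 1 := by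
      intro h
      have := (hζ.pow_eq_one_iff_dvd k).1 h
      have := Nat.le_of_dvd (Nat.pos_of_ne_zero hk0) this
      rw [Finset.mem_range] at hk
      omega
    rw [geom_sum_eq h2]
    rw [← pow_mul, mul_comm k J, pow_mul, hζ.pow_eq_one, one_pow]
    simp
  · intro h
    simp at h
    omega

theorem om_eq (D j : ℕ) : om D j = (Complex.exp (2 * Real.pi * Complex.I / ((2 * D + 1 : ℕ) : ℂ))) ^ j := by
  rw [om, ← Complex.exp_nat_mul]
  congr 1
  push_cast
  ring

theorem om_conj (D j : ℕ) : om D j * (starRingEnd ℂ) (om D j) = 1 := by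
  rw [om, ← Complex.exp_conj, ← Complex.exp_add, map_mul, Complex.conj_ofReal, Complex.conj_I,
      mul_neg, add_neg_cancel, Complex.exp_zero]

theorem dft (D a n : ℕ) (ha : a ≤ D) (hn : n ≤ a) (w : ℂ) (c : ℝ) :
    ∑ j ∈ Finset.range (2 * D + 1),
      ((om D j) ^ a).re * (2 * (w * (starRingEnd ℂ) (om D j)).re - c) ^ n =
      if n = a then ((2 * D + 1 : ℕ) : ℝ) * (w ^ a).re else 0 := by
  obtain ⟨Q, hQ⟩ : ∃ Q : Polynomial ℂ, Q = Polynomial.X ^ (a - n) *
    (Polynomial.C w + Polynomial.C ((starRingEnd ℂ) w) * Polynomial.X ^ 2 -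
      Polynomial.C (c : ℂ) * Polynomial.X) ^ n := ⟨_, rfl⟩
  have hd : Q.natDegree < 2 * D + 1 := by
    have h1 : (Polynomial.C w + Polynomial.C ((starRingEnd ℂ) w) * Polynomial.X ^ 2 -
      Polynomial.C (c : ℂ) * Polynomial.X).natDegree ≤ 2 := by compute_degree
    have h2 : Q.natDegree ≤ (a - n) + n * 2 := by
      rw [hQ]
      refine (Polynomial.natDegree_mul_le).trans ?_
      refine add_le_add (by simp) ?_
      exact (Polynomial.natDegree_pow_le).trans (Nat.mul_le_mul_left _ h1)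
    omega
  have hterm : ∀ j, ((om D j) ^ a).re * (2 * (w * (starRingEnd ℂ) (om D j)).re - c) ^ n =
      (Q.eval ((Complex.exp (2 * Real.pi * Complex.I / ((2 * D + 1 : ℕ) : ℂ))) ^ j)).re := by
    intro j
    rw [← om_eq, hQ]
    have e1 : ((2 * (w * (starRingEnd ℂ) (om D j)).re - c : ℝ) : ℂ) =
        w * (starRingEnd ℂ) (om D j) + (starRingEnd ℂ) w * om D j - c := by
      have := Complex.add_conj (w * (starRingEnd ℂ) (om D j))
      rw [map_mul, Complex.conj_conj] at this
      rw [this]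
      push_cast
      ring
    have e2 : Polynomial.eval (om D j) (Polynomial.X ^ (a - n) *
    (Polynomial.C w + Polynomial.C ((starRingEnd ℂ) w) * Polynomial.X ^ 2 -
      Polynomial.C (c : ℂ) * Polynomial.X) ^ n) =
      (om D j) ^ a * ((2 * (w * (starRingEnd ℂ) (om D j)).re - c : ℝ) : ℂ) ^ n := by
      rw [e1]
      have e3 : (om D j) ^ a = (om D j) ^ (a - n) * (om D j) ^ n := by
        rw [← pow_add]
        congr 1
        omega
      rw [e3, mul_assoc, ← mul_pow]
      have e4 : om D j * (w * (starRingEnd ℂ) (om D j) + (starRingEnd ℂ) w * om D j - c) =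
          w + (starRingEnd ℂ) w * (om D j) ^ 2 - c * om D j := by
        linear_combination w * om_conj D j
      rw [e4]
      simp
    rw [e2, ← Complex.ofReal_pow, Complex.re_mul_ofReal]
  simp only [hterm]
  have hprim := Complex.isPrimitiveRoot_exp (2 * D + 1) (by omega)
  rw [← Complex.re_sum, sum_eval_root hprim Q hd]
  have hcoef : Q.coeff 0 = if n = a then w ^ a else 0 := by
    rw [Polynomial.coeff_zero_eq_eval_zero, hQ]
    split_ifs with h
    · subst h
      simp
    · have : a - n ≠ 0 := by omega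
      simp [this]
  rw [hcoef]
  split_ifs with h
  · rw [← Complex.ofReal_natCast, Complex.re_ofReal_mul]
  · simp

end Pool.Agent.Helper710.Eqb
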