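import Mathlib

set_option autoImplicit false
open MeasureTheory Set

namespace Pool.Agent.H710FT

noncomputable section

/-- directional derivative -/
def dd (v : ℝ × ℝ × ℝ) (f : ℝ × ℝ × ℝ → ℝ) (p : ℝ × ℝ × ℝ) : ℝ := fderiv ℝ f p v

lemma dd_contDiff {n : ℕ} {f : ℝ × ℝ × ℝ → ℝ} (v : ℝ × ℝ × ℝ) (hf : ContDiff ℝ (n + 1 : ℕ) f) :
    ContDiff ℝ n (dd v f) := by
  have h1 : ContDiff ℝ n (fderiv ℝ f) := hf.fderiv_right (by norm_cast)
  exact h1.clm_apply contDiff_const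

lemma dd_supp {f : ℝ × ℝ × ℝ → ℝ} (v : ℝ × ℝ × ℝ) (hf : HasCompactSupport f) :
    HasCompactSupport (dd v f) := by
  exact hf.fderiv_apply (𝕜 := ℝ) v

/-- all mixed derivatives vanish where `f` vanishes locally: support statement -/
lemma tsupport_dd {f : ℝ × ℝ × ℝ → ℝ} (v : ℝ × ℝ × ℝ) : tsupport (dd v f) ⊆ tsupport f := by
  exact tsupport_fderiv_apply_subset ℝ v

lemma int1 {f : ℝ × ℝ × ℝ → ℝ} (hf : ContDiff ℝ 1 f) (hs : HasCompactSupport f) (x y z : ℝ) :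
    f (x, y, z) = ∫ t in Iic x, dd (1, 0, 0) f (t, y, z) := by
  have hline : ContDiff ℝ 1 (fun t : ℝ => ((t, y, z) : ℝ × ℝ × ℝ)) := by fun_prop
  have hc : ContDiff ℝ 1 (fun t : ℝ => f (t, y, z)) := hf.comp hline
  have hcs : HasCompactSupport (fun t : ℝ => f (t, y, z)) := by
    obtain ⟨K, hK, hK2⟩ := exists_compact_iff_hasCompactSupport.mpr hs
    apply exists_compact_iff_hasCompactSupport.mp
    refine ⟨Prod.fst '' K, hK.image continuous_fst, ?_⟩
    intro t ht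
    apply hK2
    intro hmem
    exact ht ⟨_, hmem, rfl⟩
  have h := hcs.integral_Iic_deriv_eq hc x
  rw [← h]
  congr 1
  ext t
  have hd : HasDerivAt (fun t : ℝ => ((t, y, z) : ℝ × ℝ × ℝ)) (1, 0, 0) t :=
    (hasDerivAt_id t).prodMk (hasDerivAt_const t (y, z))
  have hfd : HasFDerivAt f (fderiv ℝ f (t, y, z)) (t, y, z) :=
    ((hf.differentiable (by norm_num)) (t, y, z)).hasFDerivAt
  exact (hfd.comp_hasDerivAt t hd).deriv

lemma int2 {f : ℝ × ℝ × ℝ → ℝ} (hf : ContDiff ℝ 1 f) (hs : HasCompactSupport f) (x y z : ℝ) :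
    f (x, y, z) = ∫ t in Iic y, dd (0, 1, 0) f (x, t, z) := by
  have hline : ContDiff ℝ 1 (fun t : ℝ => ((x, t, z) : ℝ × ℝ × ℝ)) := by fun_prop
  have hc : ContDiff ℝ 1 (fun t : ℝ => f (x, t, z)) := hf.comp hline
  have hcs : HasCompactSupport (fun t : ℝ => f (x, t, z)) := by
    obtain ⟨K, hK, hK2⟩ := exists_compact_iff_hasCompactSupport.mpr hs
    apply exists_compact_iff_hasCompactSupport.mp
    refine ⟨(fun p : ℝ × ℝ × ℝ => p.2.1) '' K, hK.image (by fun_prop), ?_⟩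
    intro t ht
    apply hK2
    intro hmem
    exact ht ⟨_, hmem, rfl⟩
  have h := hcs.integral_Iic_deriv_eq hc y
  rw [← h]
  congr 1
  ext t
  have hd : HasDerivAt (fun t : ℝ => ((x, t, z) : ℝ × ℝ × ℝ)) (0, 1, 0) t :=
    (hasDerivAt_const t x).prodMk ((hasDerivAt_id t).prodMk (hasDerivAt_const t z))
  have hfd : HasFDerivAt f (fderiv ℝ f (x, t, z)) (x, t, z) :=
    ((hf.differentiable (by norm_num)) (x, t, z)).hasFDerivAt
  exact (hfd.comp_hasDerivAt t hd).deriv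

lemma int3 {f : ℝ × ℝ × ℝ → ℝ} (hf : ContDiff ℝ 1 f) (hs : HasCompactSupport f) (x y z : ℝ) :
    f (x, y, z) = ∫ t in Iic z, dd (0, 0, 1) f (x, y, t) := by
  have hline : ContDiff ℝ 1 (fun t : ℝ => ((x, y, t) : ℝ × ℝ × ℝ)) := by fun_prop
  have hc : ContDiff ℝ 1 (fun t : ℝ => f (x, y, t)) := hf.comp hline
  have hcs : HasCompactSupport (fun t : ℝ => f (x, y, t)) := by
    obtain ⟨K, hK, hK2⟩ := exists_compact_iff_hasCompactSupport.mpr hs
    apply exists_compact_iff_hasCompactSupport.mp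
    refine ⟨(fun p : ℝ × ℝ × ℝ => p.2.2) '' K, hK.image (by fun_prop), ?_⟩
    intro t ht
    apply hK2
    intro hmem
    exact ht ⟨_, hmem, rfl⟩
  have h := hcs.integral_Iic_deriv_eq hc z
  rw [← h]
  congr 1
  ext t
  have hd : HasDerivAt (fun t : ℝ => ((x, y, t) : ℝ × ℝ × ℝ)) (0, 0, 1) t :=
    (hasDerivAt_const t x).prodMk ((hasDerivAt_const t y).prodMk (hasDerivAt_id t))
  have hfd : HasFDerivAt f (fderiv ℝ f (x, y, t)) (x, y, t) :=
    ((hf.differentiable (by norm_num)) (x, y, t)).hasFDerivAt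
  exact (hfd.comp_hasDerivAt t hd).deriv

/-- the mixed third derivative `∂₁∂₂∂₃ f` -/
def D123 (f : ℝ × ℝ × ℝ → ℝ) : ℝ × ℝ × ℝ → ℝ := dd (0, 0, 1) (dd (0, 1, 0) (dd (1, 0, 0) f))

lemma D123_cont {f : ℝ × ℝ × ℝ → ℝ} (hf : ContDiff ℝ 3 f) : Continuous (D123 f) := by
  have h1 : ContDiff ℝ (2 : ℕ) (dd (1, 0, 0) f) := dd_contDiff (n := 2) _ (by exact_mod_cast hf)
  have h2 : ContDiff ℝ (1 : ℕ) (dd (0, 1, 0) (dd (1, 0, 0) f)) := dd_contDiff (n := 1) _ h1
  have h3 : ContDiff ℝ (0 : ℕ) (D123 f) := dd_contDiff (n := 0) _ h2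
  exact h3.continuous

lemma D123_supp {f : ℝ × ℝ × ℝ → ℝ} (hs : HasCompactSupport f) : HasCompactSupport (D123 f) :=
  dd_supp _ (dd_supp _ (dd_supp _ hs))

lemma repr {f : ℝ × ℝ × ℝ → ℝ} (hf : ContDiff ℝ 3 f) (hs : HasCompactSupport f) (p : ℝ × ℝ × ℝ) :
    f p = ∫ t in Iic p.1 ×ˢ Iic p.2.1 ×ˢ Iic p.2.2, D123 f t := by
  obtain ⟨x, y, z⟩ := p
  have h1 : ContDiff ℝ (2 : ℕ) (dd (1, 0, 0) f) := dd_contDiff (n := 2) _ (by exact_mod_cast hf)
  have h2 : ContDiff ℝ (1 : ℕ) (dd (0, 1, 0) (dd (1, 0, 0) f)) := dd_contDiff (n := 1) _ h1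
  have hint : Integrable (D123 f) (volume : Measure (ℝ × ℝ × ℝ)) :=
    (D123_cont hf).integrable_of_hasCompactSupport (D123_supp hs)
  have e1 : f (x, y, z) = ∫ a in Iic x, ∫ b in Iic y, ∫ c in Iic z, D123 f (a, b, c) := by
    rw [int1 (hf.of_le (by norm_num)) hs]
    congr 1
    ext a
    rw [int2 (h1.of_le (by norm_num)) (dd_supp _ hs)]
    congr 1
    ext b
    rw [int3 (by exact_mod_cast h2) (dd_supp _ (dd_supp _ hs))]
    rfl
  rw [e1]
  rw [Measure.volume_eq_prod, setIntegral_prod _ (by rw [← Measure.volume_eq_prod]; exact hint.integrableOn)]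
  congr 1
  ext a
  have hc : Continuous (fun r : ℝ × ℝ => D123 f (a, r)) := (D123_cont hf).comp (by fun_prop)
  have hcs : HasCompactSupport (fun r : ℝ × ℝ => D123 f (a, r)) := by
    obtain ⟨K, hK, hK2⟩ := exists_compact_iff_hasCompactSupport.mpr (D123_supp hs)
    apply exists_compact_iff_hasCompactSupport.mp
    refine ⟨Prod.snd '' K, hK.image continuous_snd, ?_⟩
    intro t ht
    apply hK2
    intro hmem
    exact ht ⟨_, hmem, rfl⟩
  have hint2 : Integrable (fun r : ℝ × ℝ => D123 f (a, r)) (volume : Measure (ℝ × ℝ)) :=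
    hc.integrable_of_hasCompactSupport hcs
  rw [Measure.volume_eq_prod, setIntegral_prod _ (by rw [← Measure.volume_eq_prod]; exact hint2.integrableOn)]

end

end Pool.Agent.H710FT
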