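import Mathlib
import Pool.Agent.CTH.Main
import Pool.Agent.Helper710.FT1

set_option autoImplicit false
open MeasureTheory Set

namespace Pool.Agent.H710FT

open Pool.Agent.CTH

noncomputable section

/-- step function of one variable -/
def stp (t x : ℝ) : ℝ := if t ≤ x then 1 else 0

lemma stp_abs (t x : ℝ) : |stp t x| ≤ 1 := by
  unfold stp
  split_ifs <;> simp

lemma stp_meas : Measurable (fun p : ℝ × ℝ => stp p.1 p.2) := by
  unfold stp
  exact Measurable.ite (measurableSet_le measurable_fst measurable_snd) measurable_const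
    measurable_const

/-- the structured function attached to a corner `t` -/
def sT (t x : ℝ × ℝ × ℝ) : ℝ := stp t.1 x.1 * stp t.2.1 x.2.1 * stp t.2.2 x.2.2

lemma sT_abs (t x : ℝ × ℝ × ℝ) : |sT t x| ≤ 1 := by
  unfold sT
  rw [abs_mul, abs_mul]
  have h1 := stp_abs t.1 x.1
  have h2 := stp_abs t.2.1 x.2.1
  have h3 := stp_abs t.2.2 x.2.2
  have h12 : |stp t.1 x.1| * |stp t.2.1 x.2.1| ≤ 1 := mul_le_one₀ h1 (abs_nonneg _) h2
  exact mul_le_one₀ h12 (abs_nonneg _) h3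

lemma sT_meas : Measurable (fun z : (ℝ × ℝ × ℝ) × (ℝ × ℝ × ℝ) => sT z.1 z.2) := by
  unfold sT
  refine ((stp_meas.comp (by fun_prop : Measurable fun z : (ℝ × ℝ × ℝ) × (ℝ × ℝ × ℝ) =>
    (z.1.1, z.2.1))).mul (stp_meas.comp (by fun_prop : Measurable
    fun z : (ℝ × ℝ × ℝ) × (ℝ × ℝ × ℝ) => (z.1.2.1, z.2.2.1)))).mul
    (stp_meas.comp (by fun_prop : Measurable fun z : (ℝ × ℝ × ℝ) × (ℝ × ℝ × ℝ) =>
    (z.1.2.2, z.2.2.2)))

lemma repr2 {f : ℝ × ℝ × ℝ → ℝ} (hf : ContDiff ℝ 3 f) (hs : HasCompactSupport f)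
    (x : ℝ × ℝ × ℝ) : f x = ∫ t, D123 f t * sT t x := by
  have hm : MeasurableSet (Iic x.1 ×ˢ Iic x.2.1 ×ˢ Iic x.2.2 : Set (ℝ × ℝ × ℝ)) :=
    measurableSet_Iic.prod (measurableSet_Iic.prod measurableSet_Iic)
  rw [repr hf hs x, ← integral_indicator hm]
  congr 1
  ext t
  unfold sT stp
  by_cases h1 : t.1 ≤ x.1
  · by_cases h2 : t.2.1 ≤ x.2.1
    · by_cases h3 : t.2.2 ≤ x.2.2
      · rw [indicator_of_mem (show t ∈ (Iic x.1 ×ˢ Iic x.2.1 ×ˢ Iic x.2.2 : Set (ℝ × ℝ × ℝ)) from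
          ⟨h1, h2, h3⟩)]
        simp [h1, h2, h3]
      · rw [indicator_of_notMem (fun h => h3 h.2.2)]
        simp [h3]
    · rw [indicator_of_notMem (fun h => h2 h.2.1)]
      simp [h2]
  · rw [indicator_of_notMem (fun h => h1 h.1)]
    simp [h1]

lemma cube_meas (q : ℝ × ℝ × ℝ) (L : ℝ) : MeasurableSet (cube q L) := by
  have : cube q L = Set.Icc q.1 (q.1+L) ×ˢ (Set.Icc q.2.1 (q.2.1+L) ×ˢ Set.Icc q.2.2 (q.2.2+L)) := by
    ext x; rfl
  rw [this]
  exact measurableSet_Icc.prod (measurableSet_Icc.prod measurableSet_Icc)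

lemma repr3 {f : ℝ × ℝ × ℝ → ℝ} (hf : ContDiff ℝ 3 f) (hs : HasCompactSupport f)
    (q : ℝ × ℝ × ℝ) (L : ℝ) (hq : ∀ x, f x ≠ 0 → x ∈ cube q L)
    (x : ℝ × ℝ × ℝ) : f x = ∫ t, D123 f t * (cube q L).indicator (sT t) x := by
  by_cases hx : x ∈ cube q L
  · rw [repr2 hf hs x]
    congr 1
    ext t
    rw [indicator_of_mem hx]
  · have h0 : f x = 0 := by
      by_contra h
      exact hx (hq x h)
    rw [h0]
    symm
    have : (fun t => D123 f t * (cube q L).indicator (sT t) x) = fun _ => 0 := by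
      ext t
      rw [indicator_of_notMem hx, mul_zero]
    rw [this, integral_zero]

/-- the remaining factor -/
def GG (ε N : ℝ) (g h k : ℝ × ℝ × ℝ → ℝ) (p : ℝ × ℝ × ℝ × ℝ) : ℝ :=
  F4 (fun _ => 1) g h k p * trunc ε N (p.1 + p.2.1 + p.2.2.1 + p.2.2.2)

lemma lam_eq (ε N : ℝ) (u g h k : ℝ × ℝ × ℝ → ℝ) :
    Lam4 ε N u g h k = ∫ p : ℝ × ℝ × ℝ × ℝ, u (p.1, p.2.1, p.2.2.1) * GG ε N g h k p := by
  unfold Lam4 GG
  congr 1
  ext p
  unfold F4
  ring

lemma lam_repr {f : ℝ × ℝ × ℝ → ℝ} (hf : ContDiff ℝ 3 f) (hs : HasCompactSupport f)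
    (q : ℝ × ℝ × ℝ) (L : ℝ) (hq : ∀ x, f x ≠ 0 → x ∈ cube q L)
    (g h k : ℝ × ℝ × ℝ → ℝ) (ε N : ℝ) (hG : Integrable (GG ε N g h k) volume) :
    Lam4 ε N f g h k
      = ∫ t, D123 f t * Lam4 ε N ((cube q L).indicator (sT t)) g h k := by
  have hD : Integrable (D123 f) (volume : Measure (ℝ × ℝ × ℝ)) :=
    (D123_cont hf).integrable_of_hasCompactSupport (D123_supp hs)
  have hprod : Integrable (fun z : (ℝ × ℝ × ℝ × ℝ) × (ℝ × ℝ × ℝ) =>
      GG ε N g h k z.1 * D123 f z.2)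
      ((volume : Measure (ℝ × ℝ × ℝ × ℝ)).prod (volume : Measure (ℝ × ℝ × ℝ))) := hG.mul_prod hD
  have hsm : Measurable (fun z : (ℝ × ℝ × ℝ × ℝ) × (ℝ × ℝ × ℝ) =>
      (cube q L).indicator (sT z.2) (z.1.1, z.1.2.1, z.1.2.2.1)) := by
    have e : (fun z : (ℝ × ℝ × ℝ × ℝ) × (ℝ × ℝ × ℝ) =>
        (cube q L).indicator (sT z.2) (z.1.1, z.1.2.1, z.1.2.2.1))
        = fun z => (cube q L).indicator (fun _ => (1:ℝ)) (z.1.1, z.1.2.1, z.1.2.2.1)
          * sT z.2 (z.1.1, z.1.2.1, z.1.2.2.1) := by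
      ext z
      by_cases hx : (z.1.1, z.1.2.1, z.1.2.2.1) ∈ cube q L
      · rw [indicator_of_mem hx, indicator_of_mem hx, one_mul]
      · rw [indicator_of_notMem hx, indicator_of_notMem hx, zero_mul]
    rw [e]
    refine Measurable.mul ?_ ?_
    · exact (measurable_const.indicator (cube_meas q L)).comp (by fun_prop)
    · exact sT_meas.comp (by fun_prop : Measurable fun z : (ℝ × ℝ × ℝ × ℝ) × (ℝ × ℝ × ℝ) =>
        (z.2, (z.1.1, z.1.2.1, z.1.2.2.1)))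
  have hfull : Integrable (Function.uncurry (fun (p : ℝ × ℝ × ℝ × ℝ) (t : ℝ × ℝ × ℝ) =>
      (cube q L).indicator (sT t) (p.1, p.2.1, p.2.2.1) * (GG ε N g h k p * D123 f t)))
      ((volume : Measure (ℝ × ℝ × ℝ × ℝ)).prod (volume : Measure (ℝ × ℝ × ℝ))) := by
    refine hprod.bdd_mul (c := 1) hsm.aestronglyMeasurable ?_
    refine Filter.Eventually.of_forall fun z => ?_
    rw [Real.norm_eq_abs]
    by_cases hx : (z.1.1, z.1.2.1, z.1.2.2.1) ∈ cube q L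
    · rw [indicator_of_mem hx]; exact sT_abs _ _
    · rw [indicator_of_notMem hx, abs_zero]; exact zero_le_one
  rw [lam_eq]
  have e1 : ∀ p : ℝ × ℝ × ℝ × ℝ, f (p.1, p.2.1, p.2.2.1) * GG ε N g h k p
      = ∫ t, (cube q L).indicator (sT t) (p.1, p.2.1, p.2.2.1) * (GG ε N g h k p * D123 f t) := by
    intro p
    rw [repr3 hf hs q L hq (p.1, p.2.1, p.2.2.1), ← integral_mul_const]
    congr 1
    ext t
    ring
  simp_rw [e1]
  rw [integral_integral_swap hfull]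
  congr 1
  ext t
  rw [lam_eq, ← integral_const_mul]
  congr 1
  ext p
  ring

theorem main {C : ℝ} (hC0 : 0 ≤ C) (hC : B3 C) {f : ℝ × ℝ × ℝ → ℝ} (hf : ContDiff ℝ 3 f)
    (hs : HasCompactSupport f)
    (q : ℝ × ℝ × ℝ) (L : ℝ) (hL : 0 < L) (hq : ∀ x, f x ≠ 0 → x ∈ cube q L)
    (g h k : ℝ × ℝ × ℝ → ℝ) (hg : Good4 g) (hh : Good4 h) (hk : Good4 k)
    (ε N : ℝ) (hε : 0 < ε) (hN : ε < N) :
    |Lam4 ε N f g h k| ≤ (2 * C + 1) * (∫ t, |D123 f t|) * L ^ ((3:ℝ)/4) *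
      ((eLpNorm g 4 volume).toReal * (eLpNorm h 4 volume).toReal *
        (eLpNorm k 4 volume).toReal) := by
  have hG : Integrable (GG ε N g h k) volume :=
    F4_int (f := fun _ => (1 : ℝ)) measurable_const ⟨1, fun _ => by simp⟩ hg hh hk ε N hε
  have hD : Integrable (D123 f) (volume : Measure (ℝ × ℝ × ℝ)) :=
    (D123_cont hf).integrable_of_hasCompactSupport (D123_supp hs)
  rw [lam_repr hf hs q L hq g h k ε N hG]
  set P := (eLpNorm g 4 volume).toReal * (eLpNorm h 4 volume).toReal *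
        (eLpNorm k 4 volume).toReal with hP
  have hb : ∀ t : ℝ × ℝ × ℝ, |Lam4 ε N ((cube q L).indicator (sT t)) g h k|
      ≤ (2 * C + 1) * L ^ ((3:ℝ)/4) * P := by
    intro t
    exact cube_main hC0 hC q L hL (fun p => stp t.1 p.1) (fun p => stp t.2.1 p.1)
      (fun p => stp t.2.2 p.1)
      (stp_meas.comp (by fun_prop : Measurable fun p : ℝ × ℝ => (t.1, p.1)))
      (stp_meas.comp (by fun_prop : Measurable fun p : ℝ × ℝ => (t.2.1, p.1)))
      (stp_meas.comp (by fun_prop : Measurable fun p : ℝ × ℝ => (t.2.2, p.1)))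
      (fun p => stp_abs _ _) (fun p => stp_abs _ _) (fun p => stp_abs _ _)
      g h k hg hh hk ε N hε hN
  calc |∫ t, D123 f t * Lam4 ε N ((cube q L).indicator (sT t)) g h k|
      ≤ ∫ t, |D123 f t| * ((2 * C + 1) * L ^ ((3:ℝ)/4) * P) := by
        rw [← Real.norm_eq_abs]
        refine norm_integral_le_of_norm_le (hD.abs.mul_const _) ?_
        refine Filter.Eventually.of_forall fun t => ?_
        rw [Real.norm_eq_abs, abs_mul]
        exact mul_le_mul_of_nonneg_left (hb t) (abs_nonneg _)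
    _ = _ := by
        rw [integral_mul_const]
        ring

end

end Pool.Agent.H710FT
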