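import Mathlib
import Pool.Agent.Helper710.FT2

set_option autoImplicit false
open MeasureTheory Set

namespace Pool.Agent.H710FT

open Pool.Agent.CTH

noncomputable section

/-- cyclic rotation of the four variables -/
def rot4 : ℝ × ℝ × ℝ × ℝ ≃ᵐ ℝ × ℝ × ℝ × ℝ :=
  ((MeasurableEquiv.prodComm : ℝ × (ℝ × ℝ × ℝ) ≃ᵐ (ℝ × ℝ × ℝ) × ℝ).trans
    (MeasurableEquiv.prodAssoc : (ℝ × (ℝ × ℝ)) × ℝ ≃ᵐ ℝ × ((ℝ × ℝ) × ℝ))).trans
    ((MeasurableEquiv.refl ℝ).prodCongr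
      (MeasurableEquiv.prodAssoc : (ℝ × ℝ) × ℝ ≃ᵐ ℝ × (ℝ × ℝ)))

lemma rot4_apply (p : ℝ × ℝ × ℝ × ℝ) : rot4 p = (p.2.1, p.2.2.1, p.2.2.2, p.1) := rfl

lemma rot4_mp : MeasurePreserving rot4 (volume : Measure (ℝ × ℝ × ℝ × ℝ)) volume := by
  have h1 : MeasurePreserving (Prod.swap : ℝ × (ℝ × ℝ × ℝ) → (ℝ × ℝ × ℝ) × ℝ)
      ((volume : Measure ℝ).prod (volume : Measure (ℝ × ℝ × ℝ)))
      ((volume : Measure (ℝ × ℝ × ℝ)).prod (volume : Measure ℝ)) := Measure.measurePreserving_swap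
  have h2 : MeasurePreserving (MeasurableEquiv.prodAssoc : (ℝ × (ℝ × ℝ)) × ℝ ≃ᵐ ℝ × ((ℝ × ℝ) × ℝ))
      (((volume : Measure ℝ).prod (volume : Measure (ℝ × ℝ))).prod (volume : Measure ℝ))
      ((volume : Measure ℝ).prod ((volume : Measure (ℝ × ℝ)).prod (volume : Measure ℝ))) :=
    measurePreserving_prodAssoc _ _ _
  have h3 : MeasurePreserving (MeasurableEquiv.prodAssoc : (ℝ × ℝ) × ℝ ≃ᵐ ℝ × (ℝ × ℝ))
      (((volume : Measure ℝ).prod (volume : Measure ℝ)).prod (volume : Measure ℝ))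
      ((volume : Measure ℝ).prod ((volume : Measure ℝ).prod (volume : Measure ℝ))) :=
    measurePreserving_prodAssoc _ _ _
  have h4 := (MeasurePreserving.id (volume : Measure ℝ)).prod h3
  exact (h4.comp (h2.comp h1))

theorem lam_rot (ε N : ℝ) (f g h k : ℝ × ℝ × ℝ → ℝ) :
    Lam4 ε N f g h k = Lam4 ε N g h k f := by
  unfold Lam4
  have key := rot4_mp.integral_comp rot4.measurableEmbedding
    (fun p : ℝ × ℝ × ℝ × ℝ => F4 g h k f p * trunc ε N (p.1 + p.2.1 + p.2.2.1 + p.2.2.2))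
  rw [← key]
  congr 1
  ext p
  rw [rot4_apply]
  unfold F4
  have : p.2.1 + p.2.2.1 + p.2.2.2 + p.1 = p.1 + p.2.1 + p.2.2.1 + p.2.2.2 := by ring
  rw [this]
  ring

end

end Pool.Agent.H710FT
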