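import Mathlib

set_option autoImplicit false

/-!
Fréchet algebras and Fréchet modules (not necessarily unital) and injective modules.
-/

namespace Pool.Agent.Helper710.FrechetModules

open Filter Topology

universe u v

/-- `E` is a complex Fréchet space: a complete metrizable locally convex topological
vector space over the complex numbers. -/
class IsFrechetSpace (E : Type u) [AddCommGroup E] [Module ℂ E] [UniformSpace E] : Prop extends
    IsUniformAddGroup E, ContinuousSMul ℂ E, LocallyConvexSpace ℝ E, CompleteSpace E where
  metrizable : TopologicalSpace.MetrizableSpace E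

/-- `A` is a complex Fréchet algebra (associative, not necessarily unital or commutative): a
Fréchet space with a bilinear, associative, jointly continuous multiplication. -/
class IsFrechetAlgebra (A : Type u) [NonUnitalRing A] [Module ℂ A] [UniformSpace A] : Prop extends
    IsFrechetSpace A, IsScalarTower ℂ A A, SMulCommClass ℂ A A where
  continuous_mul : Continuous fun p : A × A => p.1 * p.2

/-- A (left) Fréchet `A`-module: a Fréchet space with a bilinear associative jointly continuous
left action of `A`. -/
structure FrechetModule (A : Type u) [NonUnitalRing A] [Module ℂ A] [UniformSpace A] where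
  carrier : Type v
  [addCommGroup : AddCommGroup carrier]
  [module : Module ℂ carrier]
  [uniformSpace : UniformSpace carrier]
  [isFrechetSpace : IsFrechetSpace carrier]
  act : A →ₗ[ℂ] carrier →ₗ[ℂ] carrier
  act_mul : ∀ (a b : A) (x : carrier), act (a * b) x = act a (act b x)
  continuous_act : Continuous fun p : A × carrier => act p.1 p.2

attribute [instance] FrechetModule.addCommGroup FrechetModule.module FrechetModule.uniformSpace
  FrechetModule.isFrechetSpace

variable {A : Type u} [NonUnitalRing A] [Module ℂ A] [UniformSpace A]

/-- The continuous linear map `φ` is a morphism of `A`-modules. -/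
def IsMorphism (X Y : FrechetModule.{u, v} A) (φ : X.carrier →L[ℂ] Y.carrier) : Prop :=
  ∀ (a : A) (x : X.carrier), φ (X.act a x) = Y.act a (φ x)

/-- `X` is injective: every module morphism `φ : X → Y` of Fréchet modules with a continuous
linear left inverse has a left inverse which is a module morphism. -/
def FrechetModule.IsInjective (X : FrechetModule.{u, v} A) : Prop :=
  ∀ (Y : FrechetModule.{u, v} A) (φ : X.carrier →L[ℂ] Y.carrier), IsMorphism X Y φ →
    (∃ ψ : Y.carrier →L[ℂ] X.carrier, ∀ x, ψ (φ x) = x) →
    ∃ ψ : Y.carrier →L[ℂ] X.carrier, IsMorphism Y X ψ ∧ ∀ x, ψ (φ x) = x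

/-! ### The radical algebra of formal power series without constant term

The maximal ideal of the algebra of formal power series is modelled on the space of all
formal power series, the series `f` standing for `X * f`. -/

/-- The algebra `z ℂ[[z]]`: the series `f` represents `z * f`, so the product of (the elements
represented by) `f` and `g` is (represented by) `z * f * g`. -/
def RadSeries : Type := PowerSeries ℂ

namespace RadSeries

open scoped PowerSeries.WithPiTopology

noncomputable instance : AddCommGroup RadSeries := inferInstanceAs (AddCommGroup (PowerSeries ℂ))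

noncomputable instance : Module ℂ RadSeries := inferInstanceAs (Module ℂ (PowerSeries ℂ))

noncomputable instance : UniformSpace RadSeries := inferInstanceAs (UniformSpace (PowerSeries ℂ))

/-- the underlying series -/
noncomputable def toSeries (f : RadSeries) : PowerSeries ℂ := f

/-- the element `z * f` represented by `f` -/
noncomputable def ofSeries (f : PowerSeries ℂ) : RadSeries := f

noncomputable instance : Mul RadSeries := ⟨fun f g => ofSeries (PowerSeries.X * toSeries f * toSeries g)⟩

lemma mul_def (f g : RadSeries) : f * g = ofSeries (PowerSeries.X * toSeries f * toSeries g) := rfl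

noncomputable instance : NonUnitalRing RadSeries :=
  { (inferInstance : AddCommGroup RadSeries), (inferInstance : Mul RadSeries) with
    left_distrib := fun a b c => by
      change (PowerSeries.X * toSeries a * (toSeries b + toSeries c) : PowerSeries ℂ) =
        PowerSeries.X * toSeries a * toSeries b + PowerSeries.X * toSeries a * toSeries c
      ring
    right_distrib := fun a b c => by
      change (PowerSeries.X * (toSeries a + toSeries b) * toSeries c : PowerSeries ℂ) =
        PowerSeries.X * toSeries a * toSeries c + PowerSeries.X * toSeries b * toSeries c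
      ring
    zero_mul := fun a => by
      change (PowerSeries.X * (0 : PowerSeries ℂ) * toSeries a : PowerSeries ℂ) = 0
      ring
    mul_zero := fun a => by
      change (PowerSeries.X * toSeries a * (0 : PowerSeries ℂ) : PowerSeries ℂ) = 0
      ring
    mul_assoc := fun a b c => by
      change (PowerSeries.X * (PowerSeries.X * toSeries a * toSeries b) * toSeries c : PowerSeries ℂ)
        = PowerSeries.X * toSeries a * (PowerSeries.X * toSeries b * toSeries c)
      ring }

instance : IsFrechetSpace (PowerSeries ℂ) where
  toIsUniformAddGroup := inferInstance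
  toContinuousSMul := by
    refine ⟨?_⟩
    change Continuous fun p : ℂ × ((Unit →₀ ℕ) → ℂ) => p.1 • p.2
    fun_prop
  toLocallyConvexSpace := inferInstanceAs (LocallyConvexSpace ℝ ((Unit →₀ ℕ) → ℂ))
  toCompleteSpace := inferInstance
  metrizable := by
    have : (uniformity ((Unit →₀ ℕ) → ℂ)).IsCountablyGenerated := inferInstance
    exact UniformSpace.metrizableSpace (X := (Unit →₀ ℕ) → ℂ)

instance : IsFrechetSpace RadSeries := inferInstanceAs (IsFrechetSpace (PowerSeries ℂ))

instance : IsFrechetAlgebra RadSeries where
  toIsFrechetSpace := inferInstance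
  toIsScalarTower := ⟨fun c f g => by
    change (PowerSeries.X * (c • toSeries f) * toSeries g : PowerSeries ℂ) =
      c • (PowerSeries.X * toSeries f * toSeries g)
    simp only [mul_smul_comm, smul_mul_assoc]⟩
  toSMulCommClass := ⟨fun c f g => by
    change c • (PowerSeries.X * toSeries f * toSeries g : PowerSeries ℂ) =
      (PowerSeries.X * toSeries f * (c • toSeries g))
    simp only [mul_smul_comm]⟩
  continuous_mul := by
    change Continuous fun p : PowerSeries ℂ × PowerSeries ℂ => PowerSeries.X * p.1 * p.2
    exact (continuous_const.mul continuous_fst).mul continuous_snd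

end RadSeries

/-! ### Extensions and divisibility -/

instance : IsFrechetSpace ℂ where
  toIsUniformAddGroup := inferInstance
  toContinuousSMul := inferInstance
  toLocallyConvexSpace := inferInstance
  toCompleteSpace := inferInstance
  metrizable := inferInstance

instance {E F : Type*} [AddCommGroup E] [Module ℂ E] [UniformSpace E] [IsFrechetSpace E]
    [AddCommGroup F] [Module ℂ F] [UniformSpace F] [IsFrechetSpace F] :
    IsFrechetSpace (E × F) where
  toIsUniformAddGroup := inferInstance
  toContinuousSMul := inferInstance
  toLocallyConvexSpace := inferInstance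
  toCompleteSpace := inferInstance
  metrizable := by
    have h1 : TopologicalSpace.MetrizableSpace E := IsFrechetSpace.metrizable
    have h2 : TopologicalSpace.MetrizableSpace F := IsFrechetSpace.metrizable
    infer_instance

namespace RadSeries

open scoped PowerSeries.WithPiTopology

/-- `f ↦ (f - f(0)) / z` on power series -/
noncomputable def shiftS : PowerSeries ℂ →ₗ[ℂ] PowerSeries ℂ where
  toFun f := PowerSeries.mk fun n => PowerSeries.coeff (n + 1) f
  map_add' f g := by
    ext n
    simp
  map_smul' c f := by
    ext n
    simp

/-- `f ↦ (f - f(0)) / z` -/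
noncomputable def shift : RadSeries →ₗ[ℂ] RadSeries := shiftS

/-- constant coefficient -/
noncomputable def c0 : RadSeries →ₗ[ℂ] ℂ := (PowerSeries.coeff 0 : PowerSeries ℂ →ₗ[ℂ] ℂ)

lemma continuous_shift : Continuous shift := by
  change Continuous fun f : PowerSeries ℂ =>
    (PowerSeries.mk fun n => PowerSeries.coeff (n + 1) f : PowerSeries ℂ)
  apply continuous_pi
  intro d
  exact PowerSeries.WithPiTopology.continuous_coeff ℂ (d () + 1)

lemma continuous_c0 : Continuous c0 :=
  PowerSeries.WithPiTopology.continuous_coeff ℂ 0

lemma eq_shift (f : RadSeries) :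
    toSeries f = PowerSeries.X * toSeries (shift f) + PowerSeries.C (c0 f) := by
  have h := PowerSeries.eq_X_mul_shift_add_const (toSeries f)
  rw [← PowerSeries.coeff_zero_eq_constantCoeff_apply] at h
  exact h

/-- the cocycle attached to a vector -/
noncomputable def cocycle (X : FrechetModule.{0, v} RadSeries) (x₀ : X.carrier) :
    RadSeries →ₗ[ℂ] X.carrier :=
  c0.smulRight x₀ + (X.act.flip x₀).comp shift

lemma cocycle_apply (X : FrechetModule.{0, v} RadSeries) (x₀ : X.carrier) (f : RadSeries) :
    cocycle X x₀ f = c0 f • x₀ + X.act (shift f) x₀ := rfl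

lemma cocycle_mul (X : FrechetModule.{0, v} RadSeries) (x₀ : X.carrier) (f g : RadSeries) :
    cocycle X x₀ (f * g) = X.act f (cocycle X x₀ g) := by
  rw [cocycle_apply, cocycle_apply, map_add, map_smul, ← X.act_mul]
  have h1 : c0 (f * g) = 0 := by
    change PowerSeries.coeff 0 (PowerSeries.X * toSeries f * toSeries g) = 0
    rw [mul_assoc, PowerSeries.coeff_zero_X_mul]
  have h2 : shift (f * g) = c0 g • f + f * shift g := by
    have h3 : toSeries (f * g) = PowerSeries.X * (toSeries f * toSeries g) := by
      change PowerSeries.X * toSeries f * toSeries g = _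
      ring
    have h4 : toSeries (shift (f * g)) = toSeries f * toSeries g := by
      ext n
      change PowerSeries.coeff n (PowerSeries.mk fun n => PowerSeries.coeff (n + 1)
        (toSeries (f * g))) = _
      rw [PowerSeries.coeff_mk, h3, PowerSeries.coeff_succ_X_mul]
    change toSeries (shift (f * g)) = c0 g • toSeries f +
      PowerSeries.X * toSeries f * toSeries (shift g)
    rw [h4]
    conv_lhs => rw [eq_shift g]
    rw [PowerSeries.smul_eq_C_mul]
    ring
  rw [h1, h2, zero_smul, zero_add, map_add, map_smul, LinearMap.add_apply, LinearMap.smul_apply]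

/-- the extension of `ℂ` by `X` given by the cocycle -/
noncomputable def extension (X : FrechetModule.{0, v} RadSeries) (x₀ : X.carrier) :
    FrechetModule.{0, v} RadSeries where
  carrier := X.carrier × ℂ
  act := LinearMap.mk₂ ℂ (fun f p => (X.act f p.1 + p.2 • cocycle X x₀ f, 0))
    (by
      intro f g p
      simp only [map_add, LinearMap.add_apply, smul_add, Prod.mk_add_mk, add_zero]
      congr 1
      abel)
    (by
      intro c f p
      simp only [map_smul, LinearMap.smul_apply, Prod.smul_mk, smul_add, smul_zero]
      congr 2
      rw [smul_comm])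
    (by
      intro f p q
      simp only [Prod.fst_add, Prod.snd_add, map_add, add_smul, Prod.mk_add_mk, add_zero]
      congr 1
      abel)
    (by
      intro c f p
      simp only [Prod.smul_fst, Prod.smul_snd, map_smul, Prod.smul_mk, smul_add,
        smul_eq_mul, mul_smul, mul_zero])
  act_mul := by
    intro f g p
    simp only [LinearMap.mk₂_apply, zero_smul, add_zero]
    rw [X.act_mul, cocycle_mul, map_add, map_smul]
  continuous_act := by
    simp only [LinearMap.mk₂_apply]
    have h1 : Continuous fun p : RadSeries × (X.carrier × ℂ) => X.act p.1 p.2.1 :=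
      X.continuous_act.comp (continuous_fst.prodMk (continuous_fst.comp continuous_snd))
    have h2 : Continuous fun f : RadSeries => cocycle X x₀ f := by
      simp only [cocycle_apply]
      exact (continuous_c0.smul continuous_const).add
        (X.continuous_act.comp (continuous_shift.prodMk continuous_const))
    exact (h1.add ((continuous_snd.comp continuous_snd).smul (h2.comp continuous_fst))).prodMk
      continuous_const

lemma extension_act (X : FrechetModule.{0, v} RadSeries) (x₀ : X.carrier) (f : RadSeries)
    (p : X.carrier × ℂ) :
    (extension X x₀).act f p = (X.act f p.1 + p.2 • cocycle X x₀ f, 0) := rfl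

/-- the generator `z` -/
noncomputable def gen : RadSeries := ofSeries 1

lemma cocycle_gen (X : FrechetModule.{0, v} RadSeries) (x₀ : X.carrier) :
    cocycle X x₀ gen = x₀ := by
  rw [cocycle_apply]
  have h1 : c0 gen = 1 := by
    change PowerSeries.coeff 0 (1 : PowerSeries ℂ) = 1
    simp
  have h2 : shift gen = 0 := by
    change (PowerSeries.mk fun n => PowerSeries.coeff (n + 1) (1 : PowerSeries ℂ)) = 0
    ext n
    simp [PowerSeries.coeff_one]
  rw [h1, h2, one_smul, map_zero, LinearMap.zero_apply, add_zero]

/-- On an injective module the generator acts surjectively. -/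
lemma surjective_gen (X : FrechetModule.{0, v} RadSeries) (hX : X.IsInjective) :
    Function.Surjective (X.act gen) := by
  intro x₀
  obtain ⟨ψ, hψ, hψ1⟩ := hX (extension X x₀) (ContinuousLinearMap.inl ℂ X.carrier ℂ)
    (by
      intro f x
      change ((X.act f x, 0) : X.carrier × ℂ) = (X.act f x + (0 : ℂ) • cocycle X x₀ f, 0)
      rw [zero_smul, add_zero])
    ⟨ContinuousLinearMap.fst ℂ X.carrier ℂ, fun x => rfl⟩
  refine ⟨ψ ((0 : X.carrier), (1 : ℂ)), ?_⟩
  have h1 := hψ gen ((0 : X.carrier), (1 : ℂ))
  rw [← h1]
  have h2 : (extension X x₀).act gen ((0 : X.carrier), (1 : ℂ)) =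
      ((X.act gen 0 + (1 : ℂ) • cocycle X x₀ gen, 0) : X.carrier × ℂ) := rfl
  rw [h2, map_zero, zero_add, one_smul, cocycle_gen]
  exact hψ1 x₀

lemma surjective_pow (X : FrechetModule.{0, v} RadSeries) (hX : X.IsInjective) (n : ℕ) :
    Function.Surjective (X.act (ofSeries (PowerSeries.X ^ n))) := by
  induction n with
  | zero => simpa [gen] using surjective_gen X hX
  | succ n ih =>
    have h1 : ofSeries (PowerSeries.X ^ (n + 1)) = ofSeries (PowerSeries.X ^ n) * gen := by
      change (PowerSeries.X ^ (n + 1) : PowerSeries ℂ) = PowerSeries.X * PowerSeries.X ^ n * 1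
      ring
    intro x
    obtain ⟨y, hy⟩ := ih x
    obtain ⟨w, hw⟩ := surjective_gen X hX y
    exact ⟨w, by rw [h1, X.act_mul, hw, hy]⟩

/-- Neighbourhoods of zero contain a line through a power of `z`. -/
lemma exists_pow_line {U : Set RadSeries} (hU : U ∈ 𝓝 (0 : RadSeries)) :
    ∃ n : ℕ, ∀ r : ℂ, r • ofSeries (PowerSeries.X ^ n) ∈ U := by
  by_contra hcon
  push Not at hcon
  choose r hr using hcon
  have htend : Tendsto (fun n => (r n • (PowerSeries.X ^ n : PowerSeries ℂ))) atTop
      (𝓝 (0 : PowerSeries ℂ)) := by
    rw [PowerSeries.WithPiTopology.tendsto_iff_coeff_tendsto]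
    intro d
    apply tendsto_const_nhds.congr'
    filter_upwards [eventually_gt_atTop d] with n hn
    rw [PowerSeries.coeff_smul, PowerSeries.coeff_X_pow, if_neg hn.ne, map_zero, smul_zero]
  have := htend.eventually hU
  obtain ⟨n, hn⟩ := this.exists
  exact hr n hn

/-- The only injective Fréchet module over `z ℂ[[z]]` is zero. -/
theorem subsingleton_of_isInjective (X : FrechetModule.{0, v} RadSeries) (hX : X.IsInjective) :
    Subsingleton X.carrier := by
  have hT : TopologicalSpace.MetrizableSpace X.carrier := IsFrechetSpace.metrizable
  have key : ∀ V ∈ 𝓝 (0 : X.carrier), ∀ x : X.carrier, x ∈ V := by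
    intro V hV x
    have h1 : Tendsto (fun p : RadSeries × X.carrier => X.act p.1 p.2) (𝓝 (0, 0)) (𝓝 0) := by
      have := X.continuous_act.tendsto (0, 0)
      simpa using this
    have h2 := h1 hV
    rw [mem_map, mem_nhds_prod_iff] at h2
    obtain ⟨U, hU, W, hW, hUW⟩ := h2
    obtain ⟨n, hn⟩ := exists_pow_line hU
    obtain ⟨y, hy⟩ := surjective_pow X hX n x
    have h3 : Tendsto (fun k : ℕ => ((1 / ((k : ℂ) + 1)) : ℂ) • y) atTop (𝓝 0) := by
      have h4 : Tendsto (fun k : ℕ => ((1 / ((k : ℂ) + 1)) : ℂ)) atTop (𝓝 0) :=
        tendsto_one_div_add_atTop_nhds_zero_nat (𝕜 := ℂ)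
      have := h4.smul_const y
      rwa [zero_smul] at this
    obtain ⟨k, hk⟩ := (h3.eventually hW).exists
    have hk0 : ((k : ℂ) + 1) ≠ 0 := Nat.cast_add_one_ne_zero k
    have h5 := hUW (Set.mk_mem_prod (hn ((k : ℂ) + 1)) hk)
    simp only [Set.mem_preimage, map_smul, LinearMap.smul_apply] at h5
    rw [hy, smul_smul, one_div, inv_mul_cancel₀ hk0, one_smul] at h5
    exact h5
  refine ⟨fun x y => ?_⟩
  by_contra hxy
  have hne : (0 : X.carrier) ≠ x - y := fun h => hxy (sub_eq_zero.1 h.symm)
  exact key {x - y}ᶜ (isOpen_compl_singleton.mem_nhds hne) (x - y) rfl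

end RadSeries

end Pool.Agent.Helper710.FrechetModules
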