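import Pool.Agent.Helper710.FrechetModules

set_option autoImplicit false

/-!
Unital Fréchet modules over unital Fréchet algebras, and the algebra of formal power series.
-/

namespace Pool.Agent.Helper710.FrechetUnital

open Pool.Agent.Helper710.FrechetModules Filter Topology

universe u v

/-- A unital (left) Fréchet module over the unital algebra `A`: a Fréchet space with a bilinear
associative unital jointly continuous left action of `A`. -/
structure UnitalFrechetModule (A : Type u) [Ring A] [Algebra ℂ A] [UniformSpace A] where
  carrier : Type v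
  [addCommGroup : AddCommGroup carrier]
  [module : Module ℂ carrier]
  [uniformSpace : UniformSpace carrier]
  [isFrechetSpace : IsFrechetSpace carrier]
  act : A →ₗ[ℂ] carrier →ₗ[ℂ] carrier
  act_one : ∀ x : carrier, act 1 x = x
  act_mul : ∀ (a b : A) (x : carrier), act (a * b) x = act a (act b x)
  continuous_act : Continuous fun p : A × carrier => act p.1 p.2

attribute [instance] UnitalFrechetModule.addCommGroup UnitalFrechetModule.module
  UnitalFrechetModule.uniformSpace UnitalFrechetModule.isFrechetSpace

variable {A : Type u} [Ring A] [Algebra ℂ A] [UniformSpace A]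

/-- The continuous linear map `φ` is a morphism of `A`-modules. -/
def IsUMorphism (X Y : UnitalFrechetModule.{u, v} A) (φ : X.carrier →L[ℂ] Y.carrier) : Prop :=
  ∀ (a : A) (x : X.carrier), φ (X.act a x) = Y.act a (φ x)

/-- `X` is injective in the category of unital Fréchet `A`-modules: every morphism `φ : X → Y`
with a continuous linear left inverse has a left inverse which is a module morphism. -/
def UnitalFrechetModule.IsInjective (X : UnitalFrechetModule.{u, v} A) : Prop :=
  ∀ (Y : UnitalFrechetModule.{u, v} A) (φ : X.carrier →L[ℂ] Y.carrier), IsUMorphism X Y φ →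
    (∃ ψ : Y.carrier →L[ℂ] X.carrier, ∀ x, ψ (φ x) = x) →
    ∃ ψ : Y.carrier →L[ℂ] X.carrier, IsUMorphism Y X ψ ∧ ∀ x, ψ (φ x) = x

open scoped PowerSeries.WithPiTopology

open RadSeries

instance : IsFrechetAlgebra (PowerSeries ℂ) where
  toIsFrechetSpace := inferInstance
  toIsScalarTower := inferInstance
  toSMulCommClass := inferInstance
  continuous_mul := continuous_mul

/-- restriction of a unital module over the power series algebra to the maximal ideal -/
noncomputable def restrict (X : UnitalFrechetModule.{0, v} (PowerSeries ℂ)) :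
    FrechetModule.{0, v} RadSeries where
  carrier := X.carrier
  act := X.act.comp (LinearMap.mulLeft ℂ (PowerSeries.X : PowerSeries ℂ) :
    PowerSeries ℂ →ₗ[ℂ] PowerSeries ℂ)
  act_mul := by
    intro f g x
    change X.act (PowerSeries.X * (PowerSeries.X * toSeries f * toSeries g)) x =
      X.act (PowerSeries.X * toSeries f) (X.act (PowerSeries.X * toSeries g) x)
    rw [← X.act_mul]
    congr 2
    ring
  continuous_act := by
    change Continuous fun p : PowerSeries ℂ × X.carrier => X.act (PowerSeries.X * p.1) p.2
    exact X.continuous_act.comp ((continuous_const.mul continuous_fst).prodMk continuous_snd)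

lemma restrict_act (X : UnitalFrechetModule.{0, v} (PowerSeries ℂ)) (f : PowerSeries ℂ)
    (x : X.carrier) : (restrict X).act (ofSeries f) x = X.act (PowerSeries.X * f) x := rfl

lemma c0_mul (f g : PowerSeries ℂ) :
    c0 (ofSeries (f * g)) = c0 (ofSeries f) * c0 (ofSeries g) := by
  change PowerSeries.coeff 0 (f * g) = PowerSeries.coeff 0 f * PowerSeries.coeff 0 g
  simp

lemma shiftS_eq (f : PowerSeries ℂ) :
    f = PowerSeries.X * shiftS f + PowerSeries.C (PowerSeries.coeff 0 f) := by
  have h := PowerSeries.eq_X_mul_shift_add_const f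
  rw [← PowerSeries.coeff_zero_eq_constantCoeff_apply] at h
  exact h

lemma X_mul_inj {f g : PowerSeries ℂ} (h : PowerSeries.X * f = PowerSeries.X * g) : f = g := by
  ext n
  have := congrArg (PowerSeries.coeff (n + 1)) h
  rwa [PowerSeries.coeff_succ_X_mul, PowerSeries.coeff_succ_X_mul] at this

lemma shiftS_mul (f g : PowerSeries ℂ) :
    shiftS (f * g) = PowerSeries.coeff 0 f • shiftS g + PowerSeries.coeff 0 g • shiftS f +
      PowerSeries.X * shiftS f * shiftS g := by
  apply X_mul_inj
  have h1 := shiftS_eq (f * g)
  have h2 : PowerSeries.coeff 0 (f * g) = PowerSeries.coeff 0 f * PowerSeries.coeff 0 g := by simp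
  have h3 : PowerSeries.X * shiftS (f * g) =
      f * g - PowerSeries.C (PowerSeries.coeff 0 f * PowerSeries.coeff 0 g) := by
    rw [← h2, eq_sub_iff_add_eq]
    exact h1.symm
  rw [h3]
  have hf := shiftS_eq f
  have hg := shiftS_eq g
  have h4 : f * g = (PowerSeries.X * shiftS f + PowerSeries.C (PowerSeries.coeff 0 f)) *
      (PowerSeries.X * shiftS g + PowerSeries.C (PowerSeries.coeff 0 g)) := by
    rw [← hf, ← hg]
  rw [h4, map_mul, PowerSeries.smul_eq_C_mul, PowerSeries.smul_eq_C_mul]
  ring

/-- extension of a module over the maximal ideal to a unital module -/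
noncomputable def unitize (Y : FrechetModule.{0, v} RadSeries) :
    UnitalFrechetModule.{0, v} (PowerSeries ℂ) where
  carrier := Y.carrier
  act := (PowerSeries.coeff 0 : PowerSeries ℂ →ₗ[ℂ] ℂ).smulRight (LinearMap.id) +
    Y.act.comp (shiftS : PowerSeries ℂ →ₗ[ℂ] PowerSeries ℂ)
  act_one := by
    intro x
    change PowerSeries.coeff 0 (1 : PowerSeries ℂ) • x + Y.act (ofSeries (shiftS 1)) x = x
    have h2 : (shiftS 1 : PowerSeries ℂ) = 0 := by
      change (PowerSeries.mk fun n => PowerSeries.coeff (n + 1) (1 : PowerSeries ℂ)) = 0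
      ext n
      simp [PowerSeries.coeff_one]
    rw [h2]
    have h3 : Y.act (ofSeries 0) x = 0 := by
      change Y.act 0 x = 0
      rw [map_zero, LinearMap.zero_apply]
    rw [h3]
    simp
  act_mul := by
    intro f g x
    change PowerSeries.coeff 0 (f * g) • x + Y.act (ofSeries (shiftS (f * g))) x =
      PowerSeries.coeff 0 f • (PowerSeries.coeff 0 g • x + Y.act (ofSeries (shiftS g)) x) +
      Y.act (ofSeries (shiftS f)) (PowerSeries.coeff 0 g • x + Y.act (ofSeries (shiftS g)) x)
    have h1 : ofSeries (shiftS (f * g)) = PowerSeries.coeff 0 f • ofSeries (shiftS g) +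
        PowerSeries.coeff 0 g • ofSeries (shiftS f) +
        ofSeries (shiftS f) * ofSeries (shiftS g) := shiftS_mul f g
    have h2 : PowerSeries.coeff 0 (f * g) = PowerSeries.coeff 0 f * PowerSeries.coeff 0 g := by simp
    rw [h1, h2, map_add, map_add, map_smul, map_smul, LinearMap.add_apply, LinearMap.add_apply,
      LinearMap.smul_apply, LinearMap.smul_apply, Y.act_mul, map_add, map_smul, smul_add, mul_smul]
    abel
  continuous_act := by
    change Continuous fun p : PowerSeries ℂ × Y.carrier =>
      PowerSeries.coeff 0 p.1 • p.2 + Y.act (ofSeries (shiftS p.1)) p.2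
    exact (((PowerSeries.WithPiTopology.continuous_coeff ℂ 0).comp continuous_fst).smul
      continuous_snd).add
      (Y.continuous_act.comp ((continuous_shift.comp continuous_fst).prodMk continuous_snd))

lemma unitize_act (Y : FrechetModule.{0, v} RadSeries) (f : PowerSeries ℂ) (y : Y.carrier) :
    (unitize Y).act f y = PowerSeries.coeff 0 f • y + Y.act (ofSeries (shiftS f)) y := rfl

theorem restrict_isInjective (X : UnitalFrechetModule.{0, v} (PowerSeries ℂ))
    (hX : X.IsInjective) : (restrict X).IsInjective := by
  intro Y φ hφ hψ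
  obtain ⟨ψ, hψ1, hψ2⟩ := hX (unitize Y) φ (by
    intro f x
    have h1 : X.act f x = PowerSeries.coeff 0 f • x + X.act (PowerSeries.X * shiftS f) x := by
      conv_lhs => rw [shiftS_eq f]
      rw [map_add, LinearMap.add_apply, add_comm]
      congr 1
      have h2 : (PowerSeries.C (PowerSeries.coeff 0 f) : PowerSeries ℂ) =
          PowerSeries.coeff 0 f • (1 : PowerSeries ℂ) := by
        rw [PowerSeries.smul_eq_C_mul, mul_one]
      rw [h2, map_smul, LinearMap.smul_apply, X.act_one]
    have h3 := hφ (ofSeries (shiftS f)) x
    rw [restrict_act] at h3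
    have h4 : ∀ (c : ℂ) (x u : (restrict X).carrier), φ (c • x + u) = c • φ x + φ u := by
      intro c x u
      rw [map_add, map_smul]
    refine (congrArg φ h1).trans ((h4 (PowerSeries.coeff 0 f) x _).trans ?_)
    rw [h3]
    rfl) hψ
  refine ⟨ψ, ?_, hψ2⟩
  intro f y
  have h1 := hψ1 (PowerSeries.X * toSeries f) y
  have h2 : (unitize Y).act (PowerSeries.X * toSeries f) y = Y.act f y := by
    rw [unitize_act]
    have h3 : shiftS (PowerSeries.X * toSeries f) = toSeries f := by
      ext n
      change PowerSeries.coeff n (PowerSeries.mk fun n => PowerSeries.coeff (n + 1)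
        (PowerSeries.X * toSeries f)) = _
      rw [PowerSeries.coeff_mk, PowerSeries.coeff_succ_X_mul]
    rw [h3, PowerSeries.coeff_zero_X_mul, zero_smul, zero_add]
    rfl
  rw [h2] at h1
  exact h1

/-- The only injective unital Fréchet module over `ℂ[[z]]` is zero. -/
theorem subsingleton_of_isInjective (X : UnitalFrechetModule.{0, v} (PowerSeries ℂ))
    (hX : X.IsInjective) : Subsingleton X.carrier :=
  RadSeries.subsingleton_of_isInjective (restrict X) (restrict_isInjective X hX)

end Pool.Agent.Helper710.FrechetUnital
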