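import Mathlib

set_option autoImplicit false
set_option linter.unusedSectionVars false
open Complex Filter Topology MeasureTheory Set

namespace Pool.Agent.Helper710.PosGroup

variable {K : Type*} [NormedAddCommGroup K] [InnerProductSpace ℂ K] [CompleteSpace K]

/-- strongly continuous one-parameter group of bounded operators -/
structure C0Group (T : ℝ → K →L[ℂ] K) : Prop where
  zero : ∀ x, T 0 x = x
  add : ∀ s t x, T (s + t) x = T s (T t x)
  cont : ∀ x, Continuous fun t => T t x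

/-- `x` is in the domain of the generator `A` and `A x = y`. -/
def Gen (T : ℝ → K →L[ℂ] K) (x y : K) : Prop := HasDerivAt (fun t : ℝ => T t x) y 0

/-- `z` is in the resolvent set of the generator with resolvent `R`. -/
def IsRes (T : ℝ → K →L[ℂ] K) (z : ℂ) (R : K →L[ℂ] K) : Prop :=
  (∀ x, Gen T (R x) (z • R x - x)) ∧ ∀ x y, Gen T x y → R (z • x - y) = x

variable {T : ℝ → K →L[ℂ] K}

lemma C0Group.bdd (hT : C0Group T) (a b : ℝ) : ∃ M : ℝ, 1 ≤ M ∧ ∀ t ∈ Icc a b, ‖T t‖ ≤ M := by
  obtain ⟨C, hC⟩ := banach_steinhaus (g := fun t : Icc a b => T t) (by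
    intro x
    obtain ⟨C, hC⟩ := isCompact_Icc.exists_bound_of_continuousOn (s := Icc a b)
      (hT.cont x).continuousOn
    exact ⟨C, fun t => hC t t.2⟩)
  exact ⟨max C 1, le_max_right _ _, fun t ht => (hC ⟨t, ht⟩).trans (le_max_left _ _)⟩

lemma C0Group.norm_add_le (hT : C0Group T) (s t : ℝ) : ‖T (s + t)‖ ≤ ‖T s‖ * ‖T t‖ := by
  apply ContinuousLinearMap.opNorm_le_bound _ (by positivity)
  intro x
  rw [hT.add]
  calc ‖T s (T t x)‖ ≤ ‖T s‖ * ‖T t x‖ := (T s).le_opNorm _
    _ ≤ ‖T s‖ * (‖T t‖ * ‖x‖) := by gcongr; exact (T t).le_opNorm _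
    _ = _ := by ring

lemma C0Group.norm_zero_eq [Nontrivial K] (hT : C0Group T) : ‖T 0‖ = 1 := by
  have : T 0 = ContinuousLinearMap.id ℂ K := by ext x; simp [hT.zero]
  rw [this]; exact ContinuousLinearMap.norm_id

lemma C0Group.norm_pos [Nontrivial K] (hT : C0Group T) (t : ℝ) : 0 < ‖T t‖ := by
  have h := hT.norm_add_le (-t) t
  rw [neg_add_cancel, hT.norm_zero_eq] at h
  rcases (norm_nonneg (T t)).lt_or_eq with h1 | h1
  · exact h1
  · rw [← h1] at h; norm_num at h

lemma C0Group.norm_nsmul_le [Nontrivial K] (hT : C0Group T) (t : ℝ) (n : ℕ) :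
    ‖T (n * t)‖ ≤ ‖T t‖ ^ n := by
  induction n with
  | zero => simp [hT.norm_zero_eq]
  | succ n ih =>
    have h : ((n + 1 : ℕ) : ℝ) * t = n * t + t := by push_cast; ring
    rw [h, pow_succ]
    exact (hT.norm_add_le _ _).trans (by gcongr)

theorem C0Group.exists_growth [Nontrivial K] (hT : C0Group T) :
    ∃ w : ℝ, Tendsto (fun t : ℝ => Real.log ‖T t‖ / t) atTop (𝓝 w) ∧
      ∀ t : ℝ, 0 < t → w * t ≤ Real.log ‖T t‖ := by
  set u : ℕ → ℝ := fun n => Real.log ‖T n‖ with hu
  have hsub : Subadditive u := by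
    intro m n
    simp only [hu]
    rw [← Real.log_mul (hT.norm_pos _).ne' (hT.norm_pos _).ne']
    apply Real.log_le_log (hT.norm_pos _)
    push_cast
    exact hT.norm_add_le _ _
  have hbdd : BddBelow (range fun n => u n / n) := by
    refine ⟨min 0 (-Real.log ‖T (-1)‖), ?_⟩
    rintro _ ⟨n, rfl⟩
    rcases Nat.eq_zero_or_pos n with rfl | hn
    · simp
    · apply (min_le_right _ _).trans
      have hn' : (0 : ℝ) < n := by exact_mod_cast hn
      show _ ≤ u n / n
      rw [le_div_iff₀ hn']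
      have h1 : ‖T (n * (-1 : ℝ))‖ ≤ ‖T (-1)‖ ^ n := hT.norm_nsmul_le (-1) n
      have h2 : (1 : ℝ) ≤ ‖T n‖ * ‖T (n * (-1 : ℝ))‖ := by
        have := hT.norm_add_le (n : ℝ) (n * (-1 : ℝ))
        rwa [mul_neg_one, add_neg_cancel, hT.norm_zero_eq, ← mul_neg_one] at this
      have h3 : (1 : ℝ) ≤ ‖T n‖ * ‖T (-1)‖ ^ n :=
        h2.trans (by gcongr)
      have h4 := Real.log_nonneg h3
      rw [Real.log_mul (hT.norm_pos _).ne' (pow_pos (hT.norm_pos _) _).ne', Real.log_pow] at h4
      simp only [hu]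
      linarith
  have hlim := hsub.tendsto_lim hbdd
  set w := hsub.lim with hw
  obtain ⟨M, hM1, hM⟩ := hT.bdd (-1) 1
  have hfl : Tendsto (fun t : ℝ => u ⌊t⌋₊ / (⌊t⌋₊ : ℝ)) atTop (𝓝 w) :=
    hlim.comp tendsto_nat_floor_atTop
  have hfl2 : Tendsto (fun t : ℝ => ((⌊t⌋₊ : ℕ) : ℝ) / t) atTop (𝓝 1) := tendsto_nat_floor_div_atTop
  have hprod := hfl.mul hfl2
  rw [mul_one] at hprod
  have hprod2 : Tendsto (fun t : ℝ => u ⌊t⌋₊ / t) atTop (𝓝 w) := by
    refine hprod.congr' ?_
    filter_upwards [eventually_ge_atTop (1 : ℝ)] with t ht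
    have h1 : (0 : ℝ) < (⌊t⌋₊ : ℝ) := by
      have := Nat.floor_pos.2 ht
      exact_mod_cast this
    field_simp
  have hdiff : Tendsto (fun t : ℝ => (Real.log ‖T t‖ - u ⌊t⌋₊) / t) atTop (𝓝 0) := by
    apply squeeze_zero_norm' (a := fun t : ℝ => Real.log M / t)
    · filter_upwards [eventually_ge_atTop (1 : ℝ)] with t ht
      have ht0 : 0 < t := by linarith
      rw [norm_div, Real.norm_of_nonneg ht0.le]
      apply div_le_div_of_nonneg_right _ ht0.le
      have hf1 : (⌊t⌋₊ : ℝ) ≤ t := Nat.floor_le ht0.le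
      have hf2 : t < (⌊t⌋₊ : ℝ) + 1 := Nat.lt_floor_add_one t
      rw [Real.norm_eq_abs, abs_le]
      constructor
      · have : u ⌊t⌋₊ ≤ Real.log M + Real.log ‖T t‖ := by
          rw [← Real.log_mul (by linarith) (hT.norm_pos _).ne']
          apply Real.log_le_log (hT.norm_pos _)
          have h5 := hT.norm_add_le ((⌊t⌋₊ : ℝ) - t) t
          rw [sub_add_cancel] at h5
          exact h5.trans (mul_le_mul_of_nonneg_right (hM _ ⟨by linarith, by linarith⟩)
            (norm_nonneg _))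
        linarith
      · have : Real.log ‖T t‖ ≤ Real.log M + u ⌊t⌋₊ := by
          simp only [hu]
          rw [← Real.log_mul (by linarith) (hT.norm_pos _).ne']
          apply Real.log_le_log (hT.norm_pos _)
          have h5 := hT.norm_add_le (t - (⌊t⌋₊ : ℝ)) (⌊t⌋₊ : ℝ)
          rw [sub_add_cancel] at h5
          exact h5.trans (mul_le_mul_of_nonneg_right (hM _ ⟨by linarith, by linarith⟩)
            (norm_nonneg _))
        linarith
    · exact tendsto_const_nhds.div_atTop tendsto_id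
  have hmain : Tendsto (fun t : ℝ => Real.log ‖T t‖ / t) atTop (𝓝 w) := by
    have := hprod2.add hdiff
    rw [add_zero] at this
    refine this.congr ?_
    intro t
    ring
  refine ⟨w, hmain, ?_⟩
  intro t ht
  have h1 : Tendsto (fun n : ℕ => (n : ℝ) * t) atTop atTop :=
    tendsto_natCast_atTop_atTop.atTop_mul_const ht
  have h2 := hmain.comp h1
  have h3 : w ≤ Real.log ‖T t‖ / t := by
    apply le_of_tendsto h2
    filter_upwards [eventually_gt_atTop 0] with n hn
    have hn' : (0 : ℝ) < n := by exact_mod_cast hn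
    simp only [Function.comp]
    rw [div_le_div_iff₀ (by positivity) ht]
    have h4 : Real.log ‖T (n * t)‖ ≤ n * Real.log ‖T t‖ := by
      rw [← Real.log_pow]
      exact Real.log_le_log (hT.norm_pos _) (hT.norm_nsmul_le t n)
    calc Real.log ‖T (n * t)‖ * t ≤ (n * Real.log ‖T t‖) * t := by gcongr
      _ = _ := by ring
  rwa [le_div_iff₀ ht] at h3

theorem C0Group.exp_bound [Nontrivial K] (hT : C0Group T) {w : ℝ}
    (hw : Tendsto (fun t : ℝ => Real.log ‖T t‖ / t) atTop (𝓝 w)) {r : ℝ} (hr : w < r) :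
    ∃ M : ℝ, 0 < M ∧ ∀ t : ℝ, 0 ≤ t → ‖T t‖ ≤ M * Real.exp (r * t) := by
  have h1 : ∀ᶠ t in atTop, Real.log ‖T t‖ / t < r := hw.eventually_lt_const hr
  obtain ⟨t1, ht1⟩ := (h1.and (eventually_gt_atTop 0)).exists_forall_of_atTop
  have ht1' : 0 < t1 := (ht1 t1 le_rfl).2
  obtain ⟨M, hM1, hM⟩ := hT.bdd 0 t1
  refine ⟨M * Real.exp (|r| * t1), by positivity, ?_⟩
  intro t ht
  rcases le_total t t1 with h | h
  · calc ‖T t‖ ≤ M := hM t ⟨ht, h⟩
      _ ≤ M * (Real.exp (|r| * t1) * Real.exp (r * t)) := by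
          have : 1 ≤ Real.exp (|r| * t1) * Real.exp (r * t) := by
            rw [← Real.exp_add]
            apply Real.one_le_exp
            have h6 : |r| * t ≤ |r| * t1 := by gcongr
            have h7 : -(|r| * t) ≤ r * t := by
              have := neg_abs_le r
              nlinarith
            linarith
          nlinarith
      _ = _ := by ring
  · obtain ⟨h2, h3⟩ := ht1 t h
    rw [div_lt_iff₀ h3] at h2
    have h4 : ‖T t‖ ≤ Real.exp (r * t) := by
      rw [← Real.exp_log (hT.norm_pos t)]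
      exact Real.exp_le_exp.2 h2.le
    calc ‖T t‖ ≤ Real.exp (r * t) := h4
      _ ≤ (M * Real.exp (|r| * t1)) * Real.exp (r * t) := by
          have : 1 ≤ M * Real.exp (|r| * t1) := by
            have : 1 ≤ Real.exp (|r| * t1) := Real.one_le_exp (by positivity)
            nlinarith
          have h5 := Real.exp_pos (r * t)
          nlinarith

end Pool.Agent.Helper710.PosGroup
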