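import Mathlib

set_option autoImplicit false
open Complex Filter Topology MeasureTheory FourierTransform
open scoped InnerProductSpace SchwartzMap ENNReal ContDiff

namespace Pool.Agent.Helper710.PosGroup

variable {K : Type*} [NormedAddCommGroup K] [InnerProductSpace ℂ K] [CompleteSpace K]

lemma fourier_toLp_ae (h : ℝ → K) (h1 : Integrable h) (h2 : MemLp h 2) :
    (𝓕 (h2.toLp h : Lp (α := ℝ) K 2) : Lp (α := ℝ) K 2) =ᵐ[volume] 𝓕 h := by
  apply ae_eq_of_integral_contDiff_smul_eq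
  · exact (Lp.memLp _).locallyIntegrable (by norm_num)
  · apply Continuous.locallyIntegrable
    exact VectorFourier.fourierIntegral_continuous Real.continuous_fourierChar
      (innerSL ℝ).continuous₂ h1
  · intro g g_smooth g_cpt
    have hg₁ : HasCompactSupport (Complex.ofRealCLM ∘ g) := g_cpt.comp_left rfl
    have hg₂ : ContDiff ℝ ∞ (Complex.ofRealCLM ∘ g) := by fun_prop
    set G : 𝓢(ℝ, ℂ) := hg₁.toSchwartzMap hg₂ with hG
    have e1 : ∫ x, g x • (𝓕 (h2.toLp h : Lp (α := ℝ) K 2) : Lp (α := ℝ) K 2) x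
        = (Lp.toTemperedDistribution (𝓕 (h2.toLp h : Lp (α := ℝ) K 2) : Lp (α := ℝ) K 2)) G := by
      rw [Lp.toTemperedDistribution_apply]
      simp [hG]
    rw [e1, ← Lp.fourier_toTemperedDistribution_eq, TemperedDistribution.fourier_apply,
      Lp.toTemperedDistribution_apply]
    have e2 : ∫ x, (𝓕 G) x • (h2.toLp h : Lp (α := ℝ) K 2) x = ∫ x, (𝓕 (G : ℝ → ℂ)) x • h x := by
      apply integral_congr_ae
      filter_upwards [h2.coeFn_toLp] with x hx
      rw [hx]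
      rfl
    rw [e2]
    have e3 : ∫ x, (𝓕 (G : ℝ → ℂ)) x • h x = ∫ x, (G x) • (𝓕 h) x := by
      simpa using! (VectorFourier.integral_fourierIntegral_smul_eq_flip (L := innerₗ ℝ)
        Real.continuous_fourierChar continuous_inner G.integrable h1)
    rw [e3]
    apply integral_congr_ae
    filter_upwards with x
    simp [hG]

lemma plancherel_lintegral (h : ℝ → K) (h1 : Integrable h) (h2 : MemLp h 2) :
    ∫⁻ ξ, ‖𝓕 h ξ‖ₑ ^ 2 = ∫⁻ t, ‖h t‖ₑ ^ 2 := by
  have e1 : ‖(𝓕 (h2.toLp h : Lp (α := ℝ) K 2) : Lp (α := ℝ) K 2)‖ₑ = ‖(h2.toLp h : Lp (α := ℝ) K 2)‖ₑ := by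
    rw [← ofReal_norm, ← ofReal_norm, Lp.norm_fourier_eq]
  rw [Lp.enorm_def, Lp.enorm_def, eLpNorm_congr_ae (fourier_toLp_ae h h1 h2),
    eLpNorm_congr_ae h2.coeFn_toLp] at e1
  have e2 : ∀ f : ℝ → K, eLpNorm f 2 volume = (∫⁻ x, ‖f x‖ₑ ^ 2) ^ (1 / 2 : ℝ) := by
    intro f
    rw [eLpNorm_eq_lintegral_rpow_enorm_toReal (by norm_num) (by norm_num)]
    simp
  rw [e2, e2] at e1
  exact ENNReal.rpow_left_injective (by norm_num) e1

end Pool.Agent.Helper710.PosGroup
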