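import Mathlib
import Pool.Agent.Helper710.PGBasic
import Pool.Agent.Helper710.PGPlancherel

set_option autoImplicit false
set_option linter.unusedSectionVars false
open Complex Filter Topology MeasureTheory Set

namespace Pool.Agent.Helper710.PosGroup

variable {K : Type*} [NormedAddCommGroup K] [InnerProductSpace ℂ K] [CompleteSpace K]
variable {T : ℝ → K →L[ℂ] K}

/-- the integrand of the Laplace transform -/
noncomputable def lf (T : ℝ → K →L[ℂ] K) (z : ℂ) (x : K) (t : ℝ) : K :=
  Complex.exp (-(z * t)) • T t x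

/-- the Laplace transform -/
noncomputable def lap (T : ℝ → K →L[ℂ] K) (z : ℂ) (x : K) : K :=
  ∫ t in Ioi (0 : ℝ), lf T z x t

lemma lf_cont (hT : C0Group T) (z : ℂ) (x : K) : Continuous (lf T z x) := by
  unfold lf
  have := hT.cont x
  fun_prop

lemma norm_lf (z : ℂ) (x : K) (t : ℝ) : ‖lf T z x t‖ = Real.exp (-(z.re * t)) * ‖T t x‖ := by
  unfold lf
  rw [norm_smul, Complex.norm_exp]
  simp

lemma norm_lf_le {M r : ℝ} (hM : ∀ t : ℝ, 0 ≤ t → ‖T t‖ ≤ M * Real.exp (r * t)) (z : ℂ) (x : K)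
    {t : ℝ} (ht : 0 ≤ t) : ‖lf T z x t‖ ≤ M * ‖x‖ * Real.exp (-(z.re - r) * t) := by
  rw [norm_lf]
  calc Real.exp (-(z.re * t)) * ‖T t x‖ ≤ Real.exp (-(z.re * t)) * ((M * Real.exp (r * t)) * ‖x‖) := by
        gcongr
        exact ((T t).le_opNorm x).trans (by gcongr; exact hM t ht)
    _ = M * ‖x‖ * (Real.exp (-(z.re * t)) * Real.exp (r * t)) := by ring
    _ = _ := by rw [← Real.exp_add]; congr 2; ring

lemma lf_integrableOn (hT : C0Group T) {M r : ℝ}
    (hM : ∀ t : ℝ, 0 ≤ t → ‖T t‖ ≤ M * Real.exp (r * t)) {z : ℂ} (hz : r < z.re) (x : K) :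
    IntegrableOn (lf T z x) (Ioi 0) := by
  have h1 : IntegrableOn (fun t : ℝ => M * ‖x‖ * Real.exp (-(z.re - r) * t)) (Ioi 0) :=
    (exp_neg_integrableOn_Ioi 0 (by linarith)).const_mul _
  refine Integrable.mono' h1 (lf_cont hT z x).aestronglyMeasurable ?_
  rw [ae_restrict_iff' measurableSet_Ioi]
  filter_upwards with t ht
  exact norm_lf_le hM z x (le_of_lt ht)

lemma norm_lap_le {M r : ℝ}
    (hM : ∀ t : ℝ, 0 ≤ t → ‖T t‖ ≤ M * Real.exp (r * t)) {z : ℂ} (hz : r < z.re) (x : K) :
    ‖lap T z x‖ ≤ M / (z.re - r) * ‖x‖ := by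
  have h0 : 0 < z.re - r := by linarith
  have h1 : IntegrableOn (fun t : ℝ => M * ‖x‖ * Real.exp (-(z.re - r) * t)) (Ioi 0) :=
    (exp_neg_integrableOn_Ioi 0 h0).const_mul _
  calc ‖lap T z x‖ ≤ ∫ t in Ioi (0 : ℝ), M * ‖x‖ * Real.exp (-(z.re - r) * t) := by
        apply norm_integral_le_of_norm_le h1
        rw [ae_restrict_iff' measurableSet_Ioi]
        filter_upwards with t ht
        exact norm_lf_le hM z x (le_of_lt ht)
    _ = M / (z.re - r) * ‖x‖ := by
        rw [integral_const_mul, integral_exp_mul_Ioi (by linarith) 0, mul_zero, Real.exp_zero,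
          neg_div_neg_eq]
        ring

/-- the Laplace transform as a bounded operator -/
lemma exists_lapCLM (hT : C0Group T) {M r : ℝ}
    (hM : ∀ t : ℝ, 0 ≤ t → ‖T t‖ ≤ M * Real.exp (r * t)) {z : ℂ} (hz : r < z.re) :
    ∃ R : K →L[ℂ] K, ∀ x, R x = lap T z x := by
  refine ⟨LinearMap.mkContinuous
    { toFun := lap T z
      map_add' := ?_
      map_smul' := ?_ } (M / (z.re - r)) (norm_lap_le hM hz), fun x => rfl⟩
  · intro x y
    unfold lap
    rw [← integral_add (lf_integrableOn hT hM hz x) (lf_integrableOn hT hM hz y)]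
    congr 1
    ext t
    simp [lf]
  · intro c x
    unfold lap
    rw [RingHom.id_apply, ← integral_smul]
    congr 1
    ext t
    simp only [lf, map_smul]
    rw [smul_comm]

lemma tendsto_int (hT : C0Group T) {M r : ℝ}
    (hM : ∀ t : ℝ, 0 ≤ t → ‖T t‖ ≤ M * Real.exp (r * t)) {z : ℂ} (hz : r < z.re) (x : K) :
    Tendsto (fun a : ℝ => ∫ t in (0 : ℝ)..a, lf T z x t) atTop (𝓝 (lap T z x)) :=
  intervalIntegral_tendsto_integral_Ioi 0 (lf_integrableOn hT hM hz x) tendsto_id

lemma T_int (hT : C0Group T) (z : ℂ) (x : K) (s a : ℝ) :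
    T s (∫ t in (0 : ℝ)..a, lf T z x t) =
      Complex.exp (z * s) • ((∫ t in (0 : ℝ)..(a + s), lf T z x t) - ∫ t in (0 : ℝ)..s, lf T z x t) := by
  have hc := lf_cont hT z x
  rw [← ContinuousLinearMap.intervalIntegral_comp_comm _ (hc.intervalIntegrable _ _)]
  have h1 : ∀ t : ℝ, T s (lf T z x t) = Complex.exp (z * s) • lf T z x (t + s) := by
    intro t
    simp only [lf, map_smul, smul_smul]
    rw [← Complex.exp_add, add_comm t s, hT.add]
    congr 2
    push_cast
    ring
  simp only [h1]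
  rw [intervalIntegral.integral_smul]
  congr 1
  rw [intervalIntegral.integral_comp_add_right (fun t => lf T z x t) s, zero_add]
  rw [intervalIntegral.integral_interval_sub_left (hc.intervalIntegrable _ _)
    (hc.intervalIntegrable _ _)]

lemma T_lap (hT : C0Group T) {M r : ℝ}
    (hM : ∀ t : ℝ, 0 ≤ t → ‖T t‖ ≤ M * Real.exp (r * t)) {z : ℂ} (hz : r < z.re) (x : K) (s : ℝ) :
    T s (lap T z x) = Complex.exp (z * s) • (lap T z x - ∫ t in (0 : ℝ)..s, lf T z x t) := by
  have h1 := ((T s).continuous.tendsto _).comp (tendsto_int hT hM hz x)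
  have h2 : Tendsto (fun a : ℝ => Complex.exp (z * s) •
      ((∫ t in (0 : ℝ)..(a + s), lf T z x t) - ∫ t in (0 : ℝ)..s, lf T z x t)) atTop
      (𝓝 (Complex.exp (z * s) • (lap T z x - ∫ t in (0 : ℝ)..s, lf T z x t))) := by
    apply Tendsto.const_smul
    apply Tendsto.sub_const
    exact (tendsto_int hT hM hz x).comp (tendsto_atTop_add_const_right _ s tendsto_id)
  refine tendsto_nhds_unique h1 (h2.congr ?_)
  intro a
  simp only [Function.comp]
  rw [T_int hT]

lemma gen_lap (hT : C0Group T) {M r : ℝ}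
    (hM : ∀ t : ℝ, 0 ≤ t → ‖T t‖ ≤ M * Real.exp (r * t)) {z : ℂ} (hz : r < z.re) (x : K) :
    Gen T (lap T z x) (z • lap T z x - x) := by
  unfold Gen
  have h1 : (fun s : ℝ => T s (lap T z x)) =
      fun s : ℝ => Complex.exp (z * s) • (lap T z x - ∫ t in (0 : ℝ)..s, lf T z x t) := by
    ext s; exact T_lap hT hM hz x s
  rw [h1]
  have hc := lf_cont hT z x
  have h2 : HasDerivAt (fun s : ℝ => lap T z x - ∫ t in (0 : ℝ)..s, lf T z x t) (-(lf T z x 0)) 0 := by
    have := (intervalIntegral.integral_hasDerivAt_right (hc.intervalIntegrable 0 0)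
      (hc.stronglyMeasurableAtFilter _ _) hc.continuousAt)
    exact this.const_sub _
  have h3 : HasDerivAt (fun s : ℝ => Complex.exp (z * s)) z 0 := by
    have h4 : HasDerivAt (fun s : ℝ => z * (s : ℂ)) z 0 := by
      simpa using (Complex.ofRealCLM.hasDerivAt (x := (0 : ℝ))).const_mul z
    have := h4.cexp
    simpa using this
  have h5 : HasDerivAt (fun s : ℝ => Complex.exp (z * s) •
      (lap T z x - ∫ t in (0 : ℝ)..s, lf T z x t)) _ 0 := h3.smul h2
  refine h5.congr_deriv ?_
  have h6 : lf T z x 0 = x := by simp [lf, hT.zero]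
  rw [h6, intervalIntegral.integral_same, sub_zero]
  simp
  abel

lemma gen_shift (hT : C0Group T) {x y : K} (h : Gen T x y) (t : ℝ) :
    HasDerivAt (fun s : ℝ => T s x) (T t y) t := by
  have h1 : (fun s : ℝ => T s x) = fun s : ℝ => T t (T (s - t) x) := by
    ext s
    rw [← hT.add]
    congr 2
    ring
  rw [h1]
  have h2 : HasDerivAt (fun s : ℝ => T (s - t) x) y t := by
    unfold Gen at h
    have h4 : HasDerivAt (fun u : ℝ => T u x) y (t - t) := by rw [sub_self]; exact h
    exact HasDerivAt.comp_sub_const t t h4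
  exact (((T t).restrictScalars ℝ).hasFDerivAt.comp_hasDerivAt t h2)

lemma lap_gen (hT : C0Group T) {M r : ℝ}
    (hM : ∀ t : ℝ, 0 ≤ t → ‖T t‖ ≤ M * Real.exp (r * t)) {z : ℂ} (hz : r < z.re) {x y : K}
    (h : Gen T x y) : lap T z (z • x - y) = x := by
  have h1 : ∀ t : ℝ, HasDerivAt (fun s => -(lf T z x s)) (lf T z (z • x - y) t) t := by
    intro t
    have h2 := gen_shift hT h t
    have h3 : HasDerivAt (fun s : ℝ => Complex.exp (-(z * s))) (Complex.exp (-(z * t)) * (-z)) t := by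
      have h4 : HasDerivAt (fun s : ℝ => (z * (s : ℂ))) z t := by
        simpa using ((Complex.ofRealCLM.hasDerivAt (x := t)).const_mul z)
      exact h4.neg.cexp
    have h5 := (h3.smul h2).neg
    refine h5.congr_deriv ?_
    simp only [lf, map_sub, map_smul, smul_sub, smul_smul, mul_neg, neg_smul]
    abel
  have h6 : Tendsto (fun s => -(lf T z x s)) atTop (𝓝 0) := by
    rw [← neg_zero]
    apply Tendsto.neg
    have h7 : Tendsto (fun t : ℝ => M * ‖x‖ * Real.exp (-(z.re - r) * t)) atTop (𝓝 0) := by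
      rw [← mul_zero (M * ‖x‖)]
      apply Tendsto.const_mul
      apply Real.tendsto_exp_atBot.comp
      exact tendsto_id.const_mul_atTop_of_neg (by linarith)
    refine squeeze_zero_norm' ?_ h7
    filter_upwards [eventually_ge_atTop 0] with t ht
    exact norm_lf_le hM z x ht
  have h8 := integral_Ioi_of_hasDerivAt_of_tendsto (a := 0) (m := 0)
    (h1 0).continuousAt.continuousWithinAt (fun t _ => h1 t)
    (lf_integrableOn hT hM hz (z • x - y)) h6
  unfold lap
  rw [h8]
  simp [lf, hT.zero]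

/-- every point to the right of the growth bound is in the resolvent set and the resolvent is the
Laplace transform -/
lemma exists_res (hT : C0Group T) {M r : ℝ}
    (hM : ∀ t : ℝ, 0 ≤ t → ‖T t‖ ≤ M * Real.exp (r * t)) {z : ℂ} (hz : r < z.re) :
    ∃ R : K →L[ℂ] K, IsRes T z R ∧ ∀ x, R x = lap T z x := by
  obtain ⟨R, hR⟩ := exists_lapCLM hT hM hz
  refine ⟨R, ⟨?_, ?_⟩, hR⟩
  · intro x
    rw [hR]
    exact gen_lap hT hM hz x
  · intro x y hxy
    rw [hR]
    exact lap_gen hT hM hz hxy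

/-- the resolvent identity -/
lemma IsRes.identity {z w : ℂ} {R S : K →L[ℂ] K} (hR : IsRes T z R) (hS : IsRes T w S) (x : K) :
    R x = S x + (w - z) • R (S x) := by
  have h1 := hS.1 x
  have h2 := hR.2 _ _ h1
  have h3 : z • S x - (w • S x - x) = x - (w - z) • S x := by
    rw [sub_smul]; abel
  rw [h3, map_sub, map_smul] at h2
  exact sub_eq_iff_eq_add.1 h2

end Pool.Agent.Helper710.PosGroup
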