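import Mathlib
import Pool.Agent.Helper710.PGLaplace

set_option autoImplicit false
set_option linter.unusedSectionVars false
open Complex Filter Topology MeasureTheory Set

namespace Pool.Agent.Helper710.PosGroup

variable {K : Type*} [NormedAddCommGroup K] [InnerProductSpace ℂ K] [CompleteSpace K]
variable {H : Type*} [NormedAddCommGroup H] [InnerProductSpace ℝ H] [CompleteSpace H]
variable {T : ℝ → K →L[ℂ] K}

/-- `K` is the complexification of `H` (via `ι`). -/
def Cplx (ι : H →ₗ[ℝ] K) : Prop :=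
  (∀ x y : H, ‖ι x + Complex.I • ι y‖ ^ 2 = ‖x‖ ^ 2 + ‖y‖ ^ 2) ∧
    ∀ z : K, ∃ x y : H, z = ι x + Complex.I • ι y

/-- closed, normal (constant `c`) and generating cone -/
structure OCone (P : Set H) (c : ℝ) : Prop where
  zero_mem : (0 : H) ∈ P
  add_mem : ∀ x ∈ P, ∀ y ∈ P, x + y ∈ P
  smul_mem : ∀ a : ℝ, 0 ≤ a → ∀ x ∈ P, a • x ∈ P
  closed : IsClosed P
  pos : 0 < c
  normal : ∀ x y : H, x ∈ P → y - x ∈ P → ‖x‖ ≤ c * ‖y‖
  gen : ∀ x : H, ∃ a ∈ P, ∃ b ∈ P, x = a - b

variable {P : Set H} {c : ℝ} {ι : H →ₗ[ℝ] K}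

lemma Cplx.norm_map (h : Cplx ι) (x : H) : ‖ι x‖ = ‖x‖ := by
  have h1 := h.1 x 0
  simp only [map_zero, smul_zero, add_zero, norm_zero] at h1
  have h2 : ‖ι x‖ ^ 2 = ‖x‖ ^ 2 := by rw [h1]; ring
  exact (sq_eq_sq₀ (norm_nonneg _) (norm_nonneg _)).1 h2

/-- the isometric embedding -/
def Cplx.iso (h : Cplx ι) : H →ₗᵢ[ℝ] K := ⟨ι, h.norm_map⟩

lemma OCone.integral_mem (hP : OCone P c) {μ : Measure ℝ} {f : ℝ → H} (hf : Integrable f μ)
    (hm : ∀ᵐ t ∂μ, f t ∈ P) : ∫ t, f t ∂μ ∈ P := by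
  by_contra hcon
  have hconv : Convex ℝ P := by
    intro x hx y hy a b ha hb _
    exact hP.add_mem _ (hP.smul_mem a ha x hx) _ (hP.smul_mem b hb y hy)
  obtain ⟨g, u, hg, hu⟩ := geometric_hahn_banach_closed_point hconv hP.closed hcon
  have hu0 : 0 < u := by simpa using hg 0 hP.zero_mem
  have hle : ∀ a ∈ P, g a ≤ 0 := by
    intro a ha
    by_contra hpos
    push Not at hpos
    have h1 := hg ((u / g a) • a) (hP.smul_mem _ (by positivity) a ha)
    rw [map_smul, smul_eq_mul, div_mul_cancel₀ _ hpos.ne'] at h1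
    exact lt_irrefl _ h1
  have h2 : g (∫ t, f t ∂μ) = ∫ t, g (f t) ∂μ := (g.integral_comp_comm hf).symm
  have h3 : ∫ t, g (f t) ∂μ ≤ 0 := by
    apply integral_nonpos_of_ae
    filter_upwards [hm] with t ht
    exact hle _ ht
  linarith

/-- the key comparison for weights of modulus at most one -/
lemma OCone.weight_bound (hP : OCone P c) {μ : Measure ℝ} {g : ℝ → H} (hg : Integrable g μ)
    (hm : ∀ᵐ t ∂μ, g t ∈ P) {φ : ℝ → ℝ} (hφ : Continuous φ) (hφ1 : ∀ t, |φ t| ≤ 1) :
    ‖∫ t, φ t • g t ∂μ‖ ≤ (2 * c + 1) * ‖∫ t, g t ∂μ‖ := by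
  have hint : Integrable (fun t => φ t • g t) μ := by
    refine Integrable.mono hg (hφ.aestronglyMeasurable.smul hg.aestronglyMeasurable) ?_
    filter_upwards with t
    rw [norm_smul]
    calc ‖φ t‖ * ‖g t‖ ≤ 1 * ‖g t‖ := by gcongr; exact hφ1 t
      _ = ‖g t‖ := one_mul _
  set z := ∫ t, g t ∂μ with hz
  set y := ∫ t, φ t • g t ∂μ with hy
  have h1 : z + y ∈ P := by
    rw [hz, hy, ← integral_add hg hint]
    apply hP.integral_mem (hg.add hint)
    filter_upwards [hm] with t ht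
    have : g t + φ t • g t = (1 + φ t) • g t := by rw [add_smul, one_smul]
    show g t + φ t • g t ∈ P
    rw [this]
    exact hP.smul_mem _ (by have := neg_le_of_abs_le (hφ1 t); linarith) _ ht
  have h2 : z - y ∈ P := by
    rw [hz, hy, ← integral_sub hg hint]
    apply hP.integral_mem (hg.sub hint)
    filter_upwards [hm] with t ht
    have : g t - φ t • g t = (1 - φ t) • g t := by rw [sub_smul, one_smul]
    show g t - φ t • g t ∈ P
    rw [this]
    exact hP.smul_mem _ (by have := le_of_abs_le (hφ1 t); linarith) _ ht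
  have h3 := hP.normal (z + y) ((2 : ℝ) • z) h1 (by
    have : (2 : ℝ) • z - (z + y) = z - y := by rw [two_smul]; abel
    rw [this]; exact h2)
  rw [norm_smul, Real.norm_of_nonneg (by norm_num : (0:ℝ) ≤ 2)] at h3
  calc ‖y‖ = ‖(z + y) - z‖ := by rw [add_sub_cancel_left]
    _ ≤ ‖z + y‖ + ‖z‖ := norm_sub_le _ _
    _ ≤ c * (2 * ‖z‖) + ‖z‖ := by linarith
    _ = _ := by ring

lemma pos_bound (hT : C0Group T) (hι : Cplx ι) (hP : OCone P c)
    (hpos : ∀ t : ℝ, ∀ x ∈ P, ∃ y ∈ P, T t (ι x) = ι y) {M r : ℝ}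
    (hM : ∀ t : ℝ, 0 ≤ t → ‖T t‖ ≤ M * Real.exp (r * t)) {l : ℝ} (hl : r < l) (m : ℝ)
    {x : H} (hx : x ∈ P) :
    ‖lap T ((l : ℂ) + m * Complex.I) (ι x)‖ ≤ 2 * (2 * c + 1) * ‖lap T (l : ℂ) (ι x)‖ := by
  choose u hu hTu using fun t : ℝ => hpos t x hx
  have hucont : Continuous u := by
    have h1 : Continuous (hι.iso ∘ u) := by
      have : (hι.iso ∘ u) = fun t => T t (ι x) := by
        ext t
        exact (hTu t).symm
      rw [this]
      exact hT.cont _
    exact (hι.iso.isometry.isEmbedding.continuous_iff).2 h1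
  set g : ℝ → H := fun t => Real.exp (-(l * t)) • u t with hg
  have hgc : Continuous g := by fun_prop
  have hgm : ∀ t, g t ∈ P := fun t => hP.smul_mem _ (Real.exp_pos _).le _ (hu t)
  have hgι : ∀ t : ℝ, lf T (l : ℂ) (ι x) t = ι (g t) := by
    intro t
    simp only [lf, hg, hTu, map_smul]
    rw [← Complex.coe_smul]
    congr 1
    push_cast
    rfl
  have hgi : IntegrableOn g (Ioi 0) := by
    have h1 := (lf_integrableOn hT hM (z := (l : ℂ)) (by simpa using hl) (ι x)).norm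
    refine Integrable.mono' h1 hgc.aestronglyMeasurable ?_
    filter_upwards with t
    rw [hgι, hι.norm_map]
  have hlap : lap T (l : ℂ) (ι x) = ι (∫ t in Ioi (0 : ℝ), g t) := by
    unfold lap
    have h1 : (fun t => lf T (l : ℂ) (ι x) t) = fun t => hι.iso.toContinuousLinearMap (g t) := by
      ext t; exact hgι t
    rw [show (lf T (l : ℂ) (ι x)) = fun t => hι.iso.toContinuousLinearMap (g t) from h1]
    exact ContinuousLinearMap.integral_comp_comm _ hgi
  have hint : ∀ φ : ℝ → ℝ, Continuous φ → (∀ t, |φ t| ≤ 1) →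
      IntegrableOn (fun t => φ t • g t) (Ioi 0) := by
    intro φ hφ hφ1
    refine Integrable.mono hgi (hφ.smul hgc).aestronglyMeasurable ?_
    filter_upwards with t
    rw [norm_smul]
    calc ‖φ t‖ * ‖g t‖ ≤ 1 * ‖g t‖ := by gcongr; exact hφ1 t
      _ = ‖g t‖ := one_mul _
  have hcos : Continuous fun t : ℝ => Real.cos (m * t) := by fun_prop
  have hsin : Continuous fun t : ℝ => -Real.sin (m * t) := by fun_prop
  have hcos1 : ∀ t : ℝ, |Real.cos (m * t)| ≤ 1 := fun t => Real.abs_cos_le_one _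
  have hsin1 : ∀ t : ℝ, |-Real.sin (m * t)| ≤ 1 := fun t => by
    rw [abs_neg]; exact Real.abs_sin_le_one _
  have hdec : ∀ t : ℝ, lf T ((l : ℂ) + m * Complex.I) (ι x) t =
      ι (Real.cos (m * t) • g t) + Complex.I • ι ((-Real.sin (m * t)) • g t) := by
    intro t
    have h1 : lf T ((l : ℂ) + m * Complex.I) (ι x) t =
        Complex.exp (-(m * t : ℝ) * Complex.I) • lf T (l : ℂ) (ι x) t := by
      simp only [lf, smul_smul]
      rw [← Complex.exp_add]
      congr 2
      push_cast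
      ring
    have hs : ∀ a : ℝ, ι (a • g t) = (a : ℂ) • ι (g t) := by
      intro a
      rw [map_smul, Complex.coe_smul]
    rw [h1, hgι, hs, hs, smul_smul, ← add_smul]
    congr 1
    rw [Complex.exp_mul_I, Complex.cos_neg, Complex.sin_neg]
    push_cast
    ring
  have hlap2 : lap T ((l : ℂ) + m * Complex.I) (ι x) =
      ι (∫ t in Ioi (0 : ℝ), Real.cos (m * t) • g t) +
      Complex.I • ι (∫ t in Ioi (0 : ℝ), (-Real.sin (m * t)) • g t) := by
    unfold lap
    have e1 : (lf T ((l : ℂ) + m * Complex.I) (ι x)) = fun t : ℝ =>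
      hι.iso.toContinuousLinearMap (Real.cos (m * t) • g t) +
      Complex.I • hι.iso.toContinuousLinearMap ((-Real.sin (m * t)) • g t) := by
      ext t; exact hdec t
    rw [e1, integral_add, integral_smul, ContinuousLinearMap.integral_comp_comm _ (hint _ hcos hcos1),
      ContinuousLinearMap.integral_comp_comm _ (hint _ hsin hsin1)]
    · rfl
    · exact hι.iso.toContinuousLinearMap.integrable_comp (hint _ hcos hcos1)
    · exact (hι.iso.toContinuousLinearMap.integrable_comp (hint _ hsin hsin1)).smul _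
  have hb1 := hP.weight_bound hgi (Eventually.of_forall hgm) hcos hcos1
  have hb2 := hP.weight_bound hgi (Eventually.of_forall hgm) hsin hsin1
  rw [hlap2, hlap, hι.norm_map]
  calc ‖ι (∫ t in Ioi (0 : ℝ), Real.cos (m * t) • g t) +
      Complex.I • ι (∫ t in Ioi (0 : ℝ), (-Real.sin (m * t)) • g t)‖
      ≤ ‖ι (∫ t in Ioi (0 : ℝ), Real.cos (m * t) • g t)‖ +
        ‖Complex.I • ι (∫ t in Ioi (0 : ℝ), (-Real.sin (m * t)) • g t)‖ := norm_add_le _ _
    _ = ‖∫ t in Ioi (0 : ℝ), Real.cos (m * t) • g t‖ +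
        ‖∫ t in Ioi (0 : ℝ), (-Real.sin (m * t)) • g t‖ := by
        rw [norm_smul, hι.norm_map, hι.norm_map, Complex.norm_I, one_mul]
    _ ≤ _ := by linarith

end Pool.Agent.Helper710.PosGroup
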