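import Mathlib
import Pool.Agent.Helper710.PGCone

set_option autoImplicit false
set_option linter.unusedSectionVars false
open Complex Filter Topology MeasureTheory Set FourierTransform
open scoped ENNReal

namespace Pool.Agent.Helper710.PosGroup

variable {K : Type*} [NormedAddCommGroup K] [InnerProductSpace ℂ K] [CompleteSpace K]
variable {H : Type*} [NormedAddCommGroup H] [InnerProductSpace ℝ H] [CompleteSpace H]
variable {T : ℝ → K →L[ℂ] K}
variable {P : Set H} {c : ℝ} {ι : H →ₗ[ℝ] K}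

/-- near a resolvent point on the real line the resolvent stays bounded -/
lemma real_bound (hT : C0Group T) {w : ℝ} {R0 : K →L[ℂ] K} (h0 : IsRes T (w : ℂ) R0)
    {δ : ℝ} (hδ : δ * ‖R0‖ ≤ 1 / 2) {l : ℝ} (hl : w < l) (hl2 : l ≤ w + δ) {M r : ℝ}
    (hM : ∀ t : ℝ, 0 ≤ t → ‖T t‖ ≤ M * Real.exp (r * t)) (hr : r < l) (x : K) :
    ‖lap T (l : ℂ) x‖ ≤ 2 * ‖R0‖ * ‖x‖ := by
  obtain ⟨S, hS, hS2⟩ := exists_res hT hM (z := (l : ℂ)) (by simpa using hr)
  have h1 := h0.identity hS x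
  rw [hS2] at h1
  have h2 : lap T (l : ℂ) x = R0 x - ((l : ℂ) - w) • R0 (lap T (l : ℂ) x) := by
    rw [h1]; abel
  have h3 : ‖lap T (l : ℂ) x‖ ≤ ‖R0‖ * ‖x‖ + (l - w) * (‖R0‖ * ‖lap T (l : ℂ) x‖) := by
    calc ‖lap T (l : ℂ) x‖ = ‖R0 x - ((l : ℂ) - w) • R0 (lap T (l : ℂ) x)‖ := by rw [← h2]
      _ ≤ ‖R0 x‖ + ‖((l : ℂ) - w) • R0 (lap T (l : ℂ) x)‖ := norm_sub_le _ _
      _ ≤ ‖R0‖ * ‖x‖ + (l - w) * (‖R0‖ * ‖lap T (l : ℂ) x‖) := by
        rw [norm_smul]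
        have : ‖(l : ℂ) - w‖ = l - w := by
          rw [← Complex.ofReal_sub, Complex.norm_real, Real.norm_of_nonneg (by linarith)]
        rw [this]
        gcongr
        · exact R0.le_opNorm _
        · exact R0.le_opNorm _
  have h4 : (l - w) * (‖R0‖ * ‖lap T (l : ℂ) x‖) ≤ 1 / 2 * ‖lap T (l : ℂ) x‖ := by
    rw [← mul_assoc]
    gcongr
    calc (l - w) * ‖R0‖ ≤ δ * ‖R0‖ := by gcongr; linarith
      _ ≤ _ := hδ
  linarith

/-- the uniform bound of the resolvent on a strip -/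
lemma unif_bound [Nontrivial K] (hT : C0Group T) (hι : Cplx ι) (hP : OCone P c)
    (hpos : ∀ t : ℝ, ∀ x ∈ P, ∃ y ∈ P, T t (ι x) = ι y) {w : ℝ}
    (hw : Tendsto (fun t : ℝ => Real.log ‖T t‖ / t) atTop (𝓝 w)) {R0 : K →L[ℂ] K}
    (h0 : IsRes T (w : ℂ) R0) {δ : ℝ} (hδ : δ * ‖R0‖ ≤ 1 / 2) :
    ∃ C : ℝ, 0 ≤ C ∧ ∀ l : ℝ, w < l → l ≤ w + δ → ∀ m : ℝ, ∀ x : K,
      ‖lap T ((l : ℂ) + m * Complex.I) x‖ ≤ C * ‖x‖ := by
  have hex : ∀ p : {p : ℝ × ℝ // w < p.1 ∧ p.1 ≤ w + δ}, ∃ R : K →L[ℂ] K,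
      ∀ x, R x = lap T ((p.1.1 : ℂ) + p.1.2 * Complex.I) x := by
    intro p
    obtain ⟨r, hr1, hr2⟩ := exists_between p.2.1
    obtain ⟨M, _, hM⟩ := hT.exp_bound hw hr1
    exact exists_lapCLM hT hM (by simpa using hr2)
  choose R hR using hex
  have hcone : ∀ x ∈ P, ∀ p : {p : ℝ × ℝ // w < p.1 ∧ p.1 ≤ w + δ},
      ‖R p (ι x)‖ ≤ 2 * (2 * c + 1) * (2 * ‖R0‖ * ‖x‖) := by
    intro x hx p
    obtain ⟨r, hr1, hr2⟩ := exists_between p.2.1
    obtain ⟨M, _, hM⟩ := hT.exp_bound hw hr1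
    rw [hR]
    have h1 := pos_bound hT hι hP hpos hM hr2 p.1.2 hx
    have h2 := real_bound hT h0 hδ p.2.1 p.2.2 hM hr2 (ι x)
    rw [hι.norm_map] at h2
    have := hP.pos
    exact h1.trans (by gcongr)
  obtain ⟨C, hC⟩ := banach_steinhaus (g := R) (by
    intro z
    obtain ⟨x, y, rfl⟩ := hι.2 z
    obtain ⟨x1, hx1, x2, hx2, rfl⟩ := hP.gen x
    obtain ⟨y1, hy1, y2, hy2, rfl⟩ := hP.gen y
    refine ⟨2 * (2 * c + 1) * (2 * ‖R0‖ * ‖x1‖) + 2 * (2 * c + 1) * (2 * ‖R0‖ * ‖x2‖) +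
      (2 * (2 * c + 1) * (2 * ‖R0‖ * ‖y1‖) + 2 * (2 * c + 1) * (2 * ‖R0‖ * ‖y2‖)), ?_⟩
    intro p
    rw [map_add, map_smul, map_sub, map_sub, map_sub, map_sub]
    calc ‖R p (ι x1) - R p (ι x2) + Complex.I • (R p (ι y1) - R p (ι y2))‖
        ≤ ‖R p (ι x1) - R p (ι x2)‖ + ‖Complex.I • (R p (ι y1) - R p (ι y2))‖ := norm_add_le _ _
      _ = ‖R p (ι x1) - R p (ι x2)‖ + ‖R p (ι y1) - R p (ι y2)‖ := by
          rw [norm_smul, Complex.norm_I, one_mul]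
      _ ≤ (‖R p (ι x1)‖ + ‖R p (ι x2)‖) + (‖R p (ι y1)‖ + ‖R p (ι y2)‖) := by
          gcongr <;> exact norm_sub_le _ _
      _ ≤ _ := by
          gcongr
          · exact hcone _ hx1 p
          · exact hcone _ hx2 p
          · exact hcone _ hy1 p
          · exact hcone _ hy2 p)
  refine ⟨max C 0, le_max_right _ _, ?_⟩
  intro l hl1 hl2 m x
  have h1 := (R ⟨(l, m), hl1, hl2⟩).le_opNorm x
  rw [hR] at h1
  exact h1.trans (by gcongr; exact (hC _).trans (le_max_left _ _))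

/-- Plancherel for the Laplace transform -/
lemma plancherel_lap (hT : C0Group T) {M r : ℝ}
    (hM : ∀ t : ℝ, 0 ≤ t → ‖T t‖ ≤ M * Real.exp (r * t)) {l : ℝ} (hl : r < l) (x : K) :
    ∫⁻ ξ : ℝ, ‖lap T ((l : ℂ) + ((2 * Real.pi * ξ : ℝ) : ℂ) * Complex.I) x‖ₑ ^ 2 =
      ∫⁻ t in Ioi (0 : ℝ), ‖lf T (l : ℂ) x t‖ₑ ^ 2 := by
  set h : ℝ → K := (Ioi (0 : ℝ)).indicator (lf T (l : ℂ) x) with hh
  have hl' : r < ((l : ℂ)).re := by simpa using hl
  have h1 : Integrable h := (integrable_indicator_iff measurableSet_Ioi).2 (lf_integrableOn hT hM hl' x)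
  have hmeas : AEStronglyMeasurable h volume := h1.aestronglyMeasurable
  have h2 : MemLp h 2 := by
    rw [memLp_two_iff_integrable_sq_norm hmeas]
    have h3 : (fun t => ‖h t‖ ^ 2) = (Ioi (0 : ℝ)).indicator (fun t => ‖lf T (l : ℂ) x t‖ ^ 2) := by
      ext t
      by_cases ht : t ∈ Ioi (0 : ℝ)
      · simp [hh, indicator_of_mem ht]
      · simp [hh, indicator_of_notMem ht]
    rw [h3, integrable_indicator_iff measurableSet_Ioi]
    have h4 : IntegrableOn (fun t : ℝ => (M * ‖x‖) ^ 2 * Real.exp (-(2 * (l - r)) * t)) (Ioi 0) :=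
      (exp_neg_integrableOn_Ioi 0 (by linarith)).const_mul _
    refine Integrable.mono' h4 ((lf_cont hT _ x).norm.pow 2).aestronglyMeasurable ?_
    rw [ae_restrict_iff' measurableSet_Ioi]
    filter_upwards with t ht
    rw [Real.norm_of_nonneg (by positivity)]
    have h5 := norm_lf_le hM (l : ℂ) x (le_of_lt ht)
    calc ‖lf T (l : ℂ) x t‖ ^ 2 ≤ (M * ‖x‖ * Real.exp (-((l : ℂ).re - r) * t)) ^ 2 := by gcongr
      _ = _ := by
        rw [mul_pow, ← Real.exp_nat_mul]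
        congr 2
        simp
        ring
  have h6 := plancherel_lintegral h h1 h2
  have h7 : ∀ ξ : ℝ, 𝓕 h ξ = lap T ((l : ℂ) + ((2 * Real.pi * ξ : ℝ) : ℂ) * Complex.I) x := by
    intro ξ
    rw [Real.fourier_real_eq_integral_exp_smul]
    unfold lap
    rw [← integral_indicator measurableSet_Ioi]
    congr 1
    ext t
    by_cases ht : t ∈ Ioi (0 : ℝ)
    · simp only [hh, indicator_of_mem ht, lf, smul_smul]
      rw [← Complex.exp_add]
      congr 2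
      push_cast
      ring
    · simp only [hh, indicator_of_notMem ht, smul_zero]
  simp only [h7] at h6
  rw [h6, ← lintegral_indicator measurableSet_Ioi]
  congr 1
  ext t
  by_cases ht : t ∈ Ioi (0 : ℝ)
  · simp [hh, indicator_of_mem ht]
  · simp [hh, indicator_of_notMem ht]

/-- the energy bound -/
lemma energy_bound [Nontrivial K] (hT : C0Group T) (hι : Cplx ι) (hP : OCone P c)
    (hpos : ∀ t : ℝ, ∀ x ∈ P, ∃ y ∈ P, T t (ι x) = ι y) {w : ℝ}
    (hw : Tendsto (fun t : ℝ => Real.log ‖T t‖ / t) atTop (𝓝 w)) {R0 : K →L[ℂ] K}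
    (h0 : IsRes T (w : ℂ) R0) {δ : ℝ} (hδ0 : 0 < δ) (hδ : δ * ‖R0‖ ≤ 1 / 2) :
    ∃ C : ℝ, 0 ≤ C ∧ ∀ l : ℝ, w < l → l ≤ w + δ → ∀ x : K,
      ∫⁻ t in Ioi (0 : ℝ), ‖lf T (l : ℂ) x t‖ₑ ^ 2 ≤ ENNReal.ofReal (C * ‖x‖ ^ 2) := by
  obtain ⟨C, hC0, hC⟩ := unif_bound hT hι hP hpos hw h0 hδ
  set l1 := w + δ with hl1
  obtain ⟨r, hr1, hr2⟩ := exists_between (show w < l1 by linarith)
  obtain ⟨M, hM0, hM⟩ := hT.exp_bound hw hr1
  have hgap : 0 < 2 * (l1 - r) := by linarith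
  refine ⟨(1 + δ * C) ^ 2 * (M ^ 2 / (2 * (l1 - r))), by positivity, ?_⟩
  intro l hlw hll x
  obtain ⟨r', hr1', hr2'⟩ := exists_between hlw
  obtain ⟨M', hM0', hM'⟩ := hT.exp_bound hw hr1'
  rw [← plancherel_lap hT hM' hr2' x]
  have hpt : ∀ ξ : ℝ, ‖lap T ((l : ℂ) + ((2 * Real.pi * ξ : ℝ) : ℂ) * Complex.I) x‖ₑ ^ 2 ≤
      ENNReal.ofReal ((1 + δ * C) ^ 2) *
        ‖lap T ((l1 : ℂ) + ((2 * Real.pi * ξ : ℝ) : ℂ) * Complex.I) x‖ₑ ^ 2 := by
    intro ξ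
    set m : ℝ := 2 * Real.pi * ξ with hm
    obtain ⟨S, hS, hS2⟩ := exists_res hT hM' (z := (l : ℂ) + (m : ℂ) * Complex.I) (by simpa using hr2')
    obtain ⟨S1, hS1, hS12⟩ := exists_res hT hM (z := (l1 : ℂ) + (m : ℂ) * Complex.I)
      (by simpa using hr2)
    have h1 := hS.identity hS1 x
    rw [hS2, hS2, hS12] at h1
    have h2 : ((l1 : ℂ) + (m : ℂ) * Complex.I) - ((l : ℂ) + (m : ℂ) * Complex.I) =
        ((l1 - l : ℝ) : ℂ) := by push_cast; ring
    rw [h2] at h1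
    have h3 : ‖lap T ((l : ℂ) + (m : ℂ) * Complex.I) x‖ ≤
        (1 + δ * C) * ‖lap T ((l1 : ℂ) + (m : ℂ) * Complex.I) x‖ := by
      set y := lap T ((l1 : ℂ) + (m : ℂ) * Complex.I) x with hy
      calc ‖lap T ((l : ℂ) + (m : ℂ) * Complex.I) x‖
          = ‖y + ((l1 - l : ℝ) : ℂ) • lap T ((l : ℂ) + (m : ℂ) * Complex.I) y‖ := by rw [← h1]
        _ ≤ ‖y‖ + ‖((l1 - l : ℝ) : ℂ) • lap T ((l : ℂ) + (m : ℂ) * Complex.I) y‖ := norm_add_le _ _
        _ ≤ ‖y‖ + δ * (C * ‖y‖) := by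
            rw [norm_smul, Complex.norm_real, Real.norm_of_nonneg (by linarith)]
            gcongr
            · linarith
            · exact hC l hlw hll m y
        _ = _ := by ring
    have h4 : ‖lap T ((l : ℂ) + (m : ℂ) * Complex.I) x‖ₑ ≤
        ENNReal.ofReal (1 + δ * C) * ‖lap T ((l1 : ℂ) + (m : ℂ) * Complex.I) x‖ₑ := by
      rw [← ofReal_norm, ← ofReal_norm, ← ENNReal.ofReal_mul (by positivity)]
      exact ENNReal.ofReal_le_ofReal h3
    calc ‖lap T ((l : ℂ) + (m : ℂ) * Complex.I) x‖ₑ ^ 2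
        ≤ (ENNReal.ofReal (1 + δ * C) * ‖lap T ((l1 : ℂ) + (m : ℂ) * Complex.I) x‖ₑ) ^ 2 := by
          gcongr
      _ = _ := by rw [mul_pow, ← ENNReal.ofReal_pow (by positivity)]
  have hA1 : ∫⁻ t in Ioi (0 : ℝ), ‖lf T (l1 : ℂ) x t‖ₑ ^ 2 ≤
      ENNReal.ofReal (M ^ 2 / (2 * (l1 - r)) * ‖x‖ ^ 2) := by
    have h5 : ∀ t ∈ Ioi (0 : ℝ), ‖lf T (l1 : ℂ) x t‖ₑ ^ 2 ≤
        ENNReal.ofReal ((M * ‖x‖) ^ 2 * Real.exp (-(2 * (l1 - r)) * t)) := by
      intro t ht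
      rw [← ofReal_norm, ← ENNReal.ofReal_pow (norm_nonneg _)]
      apply ENNReal.ofReal_le_ofReal
      have h5 := norm_lf_le hM (l1 : ℂ) x (le_of_lt ht)
      calc ‖lf T (l1 : ℂ) x t‖ ^ 2 ≤ (M * ‖x‖ * Real.exp (-((l1 : ℂ).re - r) * t)) ^ 2 := by gcongr
        _ = _ := by
          rw [mul_pow, ← Real.exp_nat_mul]
          congr 2
          simp
          ring
    have h6 : IntegrableOn (fun t : ℝ => (M * ‖x‖) ^ 2 * Real.exp (-(2 * (l1 - r)) * t)) (Ioi 0) :=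
      (exp_neg_integrableOn_Ioi 0 hgap).const_mul _
    calc ∫⁻ t in Ioi (0 : ℝ), ‖lf T (l1 : ℂ) x t‖ₑ ^ 2
        ≤ ∫⁻ t in Ioi (0 : ℝ), ENNReal.ofReal ((M * ‖x‖) ^ 2 * Real.exp (-(2 * (l1 - r)) * t)) :=
          setLIntegral_mono' measurableSet_Ioi h5
      _ = ENNReal.ofReal (∫ t in Ioi (0 : ℝ), (M * ‖x‖) ^ 2 * Real.exp (-(2 * (l1 - r)) * t)) := by
          rw [ofReal_integral_eq_lintegral_ofReal h6]
          filter_upwards with t
          positivity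
      _ = _ := by
          congr 1
          rw [integral_const_mul, integral_exp_mul_Ioi (by linarith) 0, mul_zero, Real.exp_zero,
            neg_div_neg_eq]
          ring
  calc ∫⁻ ξ : ℝ, ‖lap T ((l : ℂ) + ((2 * Real.pi * ξ : ℝ) : ℂ) * Complex.I) x‖ₑ ^ 2
      ≤ ∫⁻ ξ : ℝ, ENNReal.ofReal ((1 + δ * C) ^ 2) *
        ‖lap T ((l1 : ℂ) + ((2 * Real.pi * ξ : ℝ) : ℂ) * Complex.I) x‖ₑ ^ 2 := lintegral_mono hpt
    _ = ENNReal.ofReal ((1 + δ * C) ^ 2) * ∫⁻ ξ : ℝ,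
        ‖lap T ((l1 : ℂ) + ((2 * Real.pi * ξ : ℝ) : ℂ) * Complex.I) x‖ₑ ^ 2 :=
        lintegral_const_mul' _ _ ENNReal.ofReal_ne_top
    _ = ENNReal.ofReal ((1 + δ * C) ^ 2) * ∫⁻ t in Ioi (0 : ℝ), ‖lf T (l1 : ℂ) x t‖ₑ ^ 2 := by
        rw [plancherel_lap hT hM hr2 x]
    _ ≤ ENNReal.ofReal ((1 + δ * C) ^ 2) * ENNReal.ofReal (M ^ 2 / (2 * (l1 - r)) * ‖x‖ ^ 2) := by
        gcongr
    _ = _ := by
        rw [← ENNReal.ofReal_mul (by positivity)]
        congr 1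
        ring

/-- finite-time energy bound at the growth rate -/
lemma energy_bound' [Nontrivial K] (hT : C0Group T) (hι : Cplx ι) (hP : OCone P c)
    (hpos : ∀ t : ℝ, ∀ x ∈ P, ∃ y ∈ P, T t (ι x) = ι y) {w : ℝ}
    (hw : Tendsto (fun t : ℝ => Real.log ‖T t‖ / t) atTop (𝓝 w)) {R0 : K →L[ℂ] K}
    (h0 : IsRes T (w : ℂ) R0) :
    ∃ C : ℝ, 0 < C ∧ ∀ a : ℝ, 0 < a → ∀ x : K,
      ∫⁻ t in Ioc (0 : ℝ) a, ENNReal.ofReal ((Real.exp (-(w * t)) * ‖T t x‖) ^ 2) ≤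
        ENNReal.ofReal (C * ‖x‖ ^ 2) := by
  set δ : ℝ := 1 / (2 * (‖R0‖ + 1)) with hδdef
  have hδ0 : 0 < δ := by positivity
  have hδ : δ * ‖R0‖ ≤ 1 / 2 := by
    rw [hδdef, div_mul_eq_mul_div, one_mul, div_le_div_iff₀ (by positivity) (by norm_num)]
    linarith [norm_nonneg R0]
  obtain ⟨C, hC0, hC⟩ := energy_bound hT hι hP hpos hw h0 hδ0 hδ
  refine ⟨Real.exp 1 * (C + 1), by positivity, ?_⟩
  intro a ha x
  set l : ℝ := w + min δ (1 / (2 * a)) with hl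
  have hm0 : 0 < min δ (1 / (2 * a)) := lt_min hδ0 (by positivity)
  have h1 := hC l (by linarith) (by have := min_le_left δ (1 / (2 * a)); linarith) x
  have h2 : ∀ t ∈ Ioc (0 : ℝ) a, ENNReal.ofReal ((Real.exp (-(w * t)) * ‖T t x‖) ^ 2) ≤
      ENNReal.ofReal (Real.exp 1) * ‖lf T (l : ℂ) x t‖ₑ ^ 2 := by
    intro t ht
    rw [← ofReal_norm, ← ENNReal.ofReal_pow (norm_nonneg _), ← ENNReal.ofReal_mul (by positivity)]
    apply ENNReal.ofReal_le_ofReal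
    rw [norm_lf, mul_pow, mul_pow, ← mul_assoc]
    gcongr
    rw [← Real.exp_nat_mul, ← Real.exp_nat_mul, ← Real.exp_add]
    apply Real.exp_le_exp.2
    have h3 : (l - w) * t ≤ 1 / 2 := by
      calc (l - w) * t ≤ (1 / (2 * a)) * a := by
            have h4 : l - w ≤ 1 / (2 * a) := by
              have := min_le_right δ (1 / (2 * a)); linarith
            have h5 : 0 < 1 / (2 * a) := by positivity
            have := ht.1
            have := ht.2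
            gcongr
        _ = 1 / 2 := by field_simp
    simp only [Complex.ofReal_re]
    push_cast
    nlinarith
  calc ∫⁻ t in Ioc (0 : ℝ) a, ENNReal.ofReal ((Real.exp (-(w * t)) * ‖T t x‖) ^ 2)
      ≤ ∫⁻ t in Ioc (0 : ℝ) a, ENNReal.ofReal (Real.exp 1) * ‖lf T (l : ℂ) x t‖ₑ ^ 2 :=
        setLIntegral_mono' measurableSet_Ioc h2
    _ = ENNReal.ofReal (Real.exp 1) * ∫⁻ t in Ioc (0 : ℝ) a, ‖lf T (l : ℂ) x t‖ₑ ^ 2 :=
        lintegral_const_mul' _ _ ENNReal.ofReal_ne_top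
    _ ≤ ENNReal.ofReal (Real.exp 1) * ∫⁻ t in Ioi (0 : ℝ), ‖lf T (l : ℂ) x t‖ₑ ^ 2 := by
        gcongr
        exact Ioc_subset_Ioi_self
    _ ≤ ENNReal.ofReal (Real.exp 1) * ENNReal.ofReal (C * ‖x‖ ^ 2) := by gcongr
    _ ≤ _ := by
        rw [← ENNReal.ofReal_mul (by positivity)]
        apply ENNReal.ofReal_le_ofReal
        rw [← mul_assoc]
        gcongr
        linarith

/-- the growth bound lies in the spectrum -/
theorem growth_mem_spectrum [Nontrivial K] (hT : C0Group T) (hι : Cplx ι) (hP : OCone P c)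
    (hpos : ∀ t : ℝ, ∀ x ∈ P, ∃ y ∈ P, T t (ι x) = ι y) {w : ℝ}
    (hw : Tendsto (fun t : ℝ => Real.log ‖T t‖ / t) atTop (𝓝 w))
    (hw2 : ∀ t : ℝ, 0 < t → w * t ≤ Real.log ‖T t‖) (R0 : K →L[ℂ] K)
    (h0 : IsRes T (w : ℂ) R0) : False := by
  obtain ⟨C, hC0, hC⟩ := energy_bound' hT hι hP hpos hw h0
  obtain ⟨M, hM1, hM⟩ := hT.bdd 0 1
  set g : K → ℝ → ℝ := fun x t => Real.exp (-(w * t)) * ‖T t x‖ with hg
  have hg0 : ∀ x t, 0 ≤ g x t := fun x t => by positivity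
  -- splitting
  have hsplit : ∀ x s t, g x t = Real.exp (-(w * s)) * g (T s x) (t - s) := by
    intro x s t
    simp only [hg]
    rw [← hT.add, sub_add_cancel, ← mul_assoc, ← Real.exp_add]
    congr 2
    ring
  set B : ℝ := Real.exp |w| * M with hB
  have hB0 : 0 < B := by positivity
  have hB1 : 1 ≤ Real.exp |w| := Real.one_le_exp (abs_nonneg _)
  have hshort : ∀ x t, 0 ≤ t → t ≤ 1 → g x t ≤ B * ‖x‖ := by
    intro x t ht0 ht1
    simp only [hg, hB]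
    have h1 : Real.exp (-(w * t)) ≤ Real.exp |w| := by
      apply Real.exp_le_exp.2
      have h2 : |w| * t ≤ |w| := by nlinarith [abs_nonneg w]
      have h3 := neg_abs_le w
      nlinarith
    calc Real.exp (-(w * t)) * ‖T t x‖ ≤ Real.exp |w| * (M * ‖x‖) := by
          gcongr
          exact ((T t).le_opNorm x).trans (by gcongr; exact hM t ⟨ht0, ht1⟩)
      _ = _ := by ring
  -- abstract averaging argument
  have havg : ∀ (x : K) (t h D : ℝ), 0 < h → h ≤ t → 0 < D →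
      (∀ s, t - h < s → s ≤ t → g x t ≤ D * g x s) → h * (g x t) ^ 2 ≤ D ^ 2 * (C * ‖x‖ ^ 2) := by
    intro x t h D hh hht hD hs
    have h1 : ∀ s ∈ Ioc (t - h) t, ENNReal.ofReal ((g x t) ^ 2 / D ^ 2) ≤
        ENNReal.ofReal ((g x s) ^ 2) := by
      intro s hs'
      apply ENNReal.ofReal_le_ofReal
      rw [div_le_iff₀ (by positivity)]
      have h2 := hs s hs'.1 hs'.2
      calc (g x t) ^ 2 ≤ (D * g x s) ^ 2 := by
            have := hg0 x t
            gcongr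
        _ = _ := by ring
    have h3 : ENNReal.ofReal ((g x t) ^ 2 / D ^ 2) * ENNReal.ofReal h ≤
        ENNReal.ofReal (C * ‖x‖ ^ 2) := by
      calc ENNReal.ofReal ((g x t) ^ 2 / D ^ 2) * ENNReal.ofReal h
          = ∫⁻ s in Ioc (t - h) t, ENNReal.ofReal ((g x t) ^ 2 / D ^ 2) := by
            rw [setLIntegral_const, Real.volume_Ioc]
            congr 2
            ring
        _ ≤ ∫⁻ s in Ioc (t - h) t, ENNReal.ofReal ((g x s) ^ 2) :=
            setLIntegral_mono' measurableSet_Ioc h1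
        _ ≤ ∫⁻ s in Ioc 0 t, ENNReal.ofReal ((g x s) ^ 2) := by
            apply lintegral_mono_set
            exact Ioc_subset_Ioc_left (by linarith)
        _ ≤ _ := hC t (by linarith) x
    rw [← ENNReal.ofReal_mul (by positivity), ENNReal.ofReal_le_ofReal_iff (by positivity)] at h3
    rw [div_mul_eq_mul_div, div_le_iff₀ (by positivity)] at h3
    linarith
  -- boundedness
  set L : ℝ := B * (C + 1) with hL
  have hL0 : 0 < L := by positivity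
  have hLb : ∀ x t, 0 ≤ t → g x t ≤ L * ‖x‖ := by
    intro x t ht
    have hB2 : 1 ≤ B := by
      calc (1 : ℝ) = 1 * 1 := by ring
        _ ≤ Real.exp |w| * M := by gcongr
    rcases le_total t 1 with h1 | h1
    · calc g x t ≤ B * ‖x‖ := hshort x t ht h1
        _ ≤ L * ‖x‖ := by
          gcongr
          rw [hL]
          nlinarith
    · have h2 := havg x t 1 B one_pos h1 hB0 (by
        intro s hs1 hs2
        rw [hsplit x s t]
        have h3 := hshort (T s x) (t - s) (by linarith) (by linarith)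
        calc Real.exp (-(w * s)) * g (T s x) (t - s) ≤ Real.exp (-(w * s)) * (B * ‖T s x‖) := by
              gcongr
          _ = B * g x s := by simp only [hg]; ring)
      rw [one_mul] at h2
      have h3 : (g x t) ^ 2 ≤ (L * ‖x‖) ^ 2 := by
        calc (g x t) ^ 2 ≤ B ^ 2 * (C * ‖x‖ ^ 2) := h2
          _ ≤ B ^ 2 * ((C + 1) ^ 2 * ‖x‖ ^ 2) := by
              gcongr
              nlinarith
          _ = _ := by rw [hL]; ring
      exact (sq_le_sq₀ (hg0 x t) (by positivity)).1 h3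
  have hfin : ∀ x t, 0 < t → t * (g x t) ^ 2 ≤ L ^ 2 * (C * ‖x‖ ^ 2) := by
    intro x t ht
    apply havg x t t L ht le_rfl hL0
    intro s hs1 hs2
    rw [hsplit x s t]
    have h3 := hLb (T s x) (t - s) (by linarith)
    calc Real.exp (-(w * s)) * g (T s x) (t - s) ≤ Real.exp (-(w * s)) * (L * ‖T s x‖) := by
          gcongr
      _ = L * g x s := by simp only [hg]; ring
  set t : ℝ := 4 * (L ^ 2 * C) with ht
  have ht0 : 0 < t := by positivity
  have hnorm : ‖T t‖ ≤ Real.exp (w * t) / 2 := by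
    apply ContinuousLinearMap.opNorm_le_bound _ (by positivity)
    intro x
    have h1 := hfin x t ht0
    have h2 : (2 * g x t) ^ 2 ≤ ‖x‖ ^ 2 := by
      have h3 : 0 < L ^ 2 * C := by positivity
      have h4 : (L ^ 2 * C) * (2 * g x t) ^ 2 ≤ (L ^ 2 * C) * ‖x‖ ^ 2 := by
        calc (L ^ 2 * C) * (2 * g x t) ^ 2 = t * (g x t) ^ 2 := by rw [ht]; ring
          _ ≤ L ^ 2 * (C * ‖x‖ ^ 2) := h1
          _ = _ := by ring
      exact le_of_mul_le_mul_left h4 h3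
    have h5 : 2 * g x t ≤ ‖x‖ := by
      have := hg0 x t
      exact (sq_le_sq₀ (by positivity) (norm_nonneg _)).1 h2
    have h6 : ‖T t x‖ = Real.exp (w * t) * g x t := by
      simp only [hg]
      rw [← mul_assoc, ← Real.exp_add]
      simp
    rw [h6]
    have := Real.exp_pos (w * t)
    nlinarith
  have h7 := hw2 t ht0
  have h8 : Real.log ‖T t‖ ≤ w * t - Real.log 2 := by
    have h9 := Real.log_le_log (hT.norm_pos t) hnorm
    rw [Real.log_div (Real.exp_pos _).ne' (by norm_num), Real.log_exp] at h9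
    exact h9
  have h10 : 0 < Real.log 2 := Real.log_pos (by norm_num)
  linarith

end Pool.Agent.Helper710.PosGroup
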