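import Pool.Agent.Helper710.QPDefs

set_option autoImplicit false

namespace Pool.Agent.Helper710.QuasiProper

open Filter Topology Set Complex ComplexConjugate

lemma den_ne_zero {a z : ℂ} (ha : ‖a‖ < 1) (hz : ‖z‖ ≤ 1) : 1 - conj a * z ≠ 0 := by
  intro h
  have h1 : conj a * z = 1 := (sub_eq_zero.1 h).symm
  have h2 : ‖conj a * z‖ = 1 := by rw [h1]; simp
  rw [norm_mul, RCLike.norm_conj] at h2
  nlinarith [norm_nonneg a, norm_nonneg z]

/-- the basic identity for the pseudohyperbolic distance -/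
lemma mobius_identity (a z : ℂ) :
    ‖1 - conj a * z‖^2 - ‖a - z‖^2 = (1 - ‖a‖^2) * (1 - ‖z‖^2) := by
  rw [← Complex.normSq_eq_norm_sq, ← Complex.normSq_eq_norm_sq, ← Complex.normSq_eq_norm_sq,
    ← Complex.normSq_eq_norm_sq]
  simp only [Complex.normSq_apply, Complex.sub_re, Complex.sub_im, Complex.one_re, Complex.one_im,
    Complex.mul_re, Complex.mul_im, Complex.conj_re, Complex.conj_im]
  ring

lemma norm_mobius_le {a z : ℂ} (ha : ‖a‖ < 1) (hz : ‖z‖ < 1) :
    ‖(a - z) / (1 - conj a * z)‖ < 1 := by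
  have h0 := den_ne_zero ha hz.le
  rw [norm_div, div_lt_one (norm_pos_iff.2 h0)]
  have h1 := mobius_identity a z
  have h2 : 0 < (1 - ‖a‖^2) * (1 - ‖z‖^2) := by
    apply mul_pos <;> nlinarith [norm_nonneg a, norm_nonneg z]
  exact lt_of_pow_lt_pow_left₀ 2 (norm_nonneg _) (by linarith)

lemma norm_factor_lt {a z : ℂ} (ha : ‖a‖ < 1) (hz : ‖z‖ < 1) : ‖factor a z‖ < 1 := by
  unfold factor
  split_ifs with h
  · exact hz
  · rw [norm_mul]
    have : ‖(‖a‖ : ℂ) / a‖ = 1 := by
      rw [norm_div, Complex.norm_real, norm_norm, div_self (norm_ne_zero_iff.2 h)]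
    rw [this, one_mul]
    exact norm_mobius_le ha hz

lemma norm_one_sub_factor_le {a z : ℂ} (ha : ‖a‖ < 1) (hz : ‖z‖ < 1) :
    ‖1 - factor a z‖ ≤ (1 - ‖a‖) * (2 / (1 - ‖z‖)) := by
  have hz' : 0 < 1 - ‖z‖ := by linarith
  unfold factor
  split_ifs with h
  · subst h
    rw [norm_zero, sub_zero, one_mul]
    have h1 : ‖1 - z‖ ≤ 2 := by
      refine (norm_sub_le _ _).trans ?_
      rw [norm_one]; linarith
    refine h1.trans ?_
    rw [le_div_iff₀ hz']
    nlinarith [norm_nonneg z]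
  · have h0 := den_ne_zero ha hz.le
    have hane : a * (1 - conj a * z) ≠ 0 := mul_ne_zero h h0
    have hna : (a * conj a) = ((‖a‖^2 : ℝ) : ℂ) := by
      rw [Complex.mul_conj, Complex.normSq_eq_norm_sq]
    have h2 : 1 - (‖a‖ : ℂ) / a * ((a - z) / (1 - conj a * z)) =
        ((1 - ‖a‖ : ℝ) : ℂ) * ((a + (‖a‖ : ℂ) * z) / (a * (1 - conj a * z))) := by
      rw [div_mul_div_comm, mul_div_assoc', eq_div_iff hane, sub_mul, div_mul_cancel₀ _ hane]
      push_cast at hna ⊢
      linear_combination (-z) * hna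
    rw [h2, norm_mul, Complex.norm_real, Real.norm_eq_abs, abs_of_pos (by linarith)]
    apply mul_le_mul_of_nonneg_left _ (by linarith)
    rw [norm_div, norm_mul]
    have hap : 0 < ‖a‖ := norm_pos_iff.2 h
    have h3 : ‖a + (‖a‖ : ℂ) * z‖ ≤ ‖a‖ * 2 := by
      refine (norm_add_le _ _).trans ?_
      rw [norm_mul, Complex.norm_real, norm_norm]
      nlinarith
    have h4 : 1 - ‖z‖ ≤ ‖1 - conj a * z‖ := by
      have := norm_sub_norm_le (1 : ℂ) (conj a * z)
      rw [norm_one, norm_mul, RCLike.norm_conj] at this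
      nlinarith [norm_nonneg z]
    rw [div_le_div_iff₀ (mul_pos hap (norm_pos_iff.2 h0)) hz']
    nlinarith [norm_nonneg (a + (‖a‖ : ℂ) * z), mul_le_mul_of_nonneg_left h4 hap.le]

section General

variable {ι : Type}

lemma multipliable_factor {α : ι → ℂ} (hα : ∀ i, ‖α i‖ < 1) (hs : Summable (fun i => 1 - ‖α i‖))
    {z : ℂ} (hz : ‖z‖ < 1) : Multipliable (fun i => factor (α i) z) := by
  rw [show (fun i => factor (α i) z) = fun i => 1 + (factor (α i) z - 1) from
    funext (fun i => by ring)]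
  apply multipliable_one_add_of_summable
  apply Summable.of_nonneg_of_le (fun i => norm_nonneg _) _ (hs.mul_right (2 / (1 - ‖z‖)))
  intro i
  rw [norm_sub_rev]
  exact norm_one_sub_factor_le (hα i) hz

lemma norm_blaschke_le {α : ι → ℂ} {c : ℂ} {b : ℂ → ℂ} (hb : IsBlaschkeWith α c b) (i : ι)
    {z : ℂ} (hz : ‖z‖ < 1) : ‖b z‖ ≤ ‖factor (α i) z‖ := by
  classical
  obtain ⟨hc, hα, hs, hbz⟩ := hb
  rw [hbz z hz, norm_mul, hc, one_mul]
  have hm := (multipliable_factor hα hs hz).hasProd.norm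
  refine le_of_tendsto hm ?_
  filter_upwards [eventually_ge_atTop ({i} : Finset ι)] with s hs
  have his : i ∈ s := hs (Finset.mem_singleton_self i)
  rw [← Finset.mul_prod_erase s _ his]
  apply mul_le_of_le_one_right (norm_nonneg _)
  exact Finset.prod_le_one (fun _ _ => norm_nonneg _) (fun j _ => (norm_factor_lt (hα j) hz).le)

end General

section General2

variable {ι : Type}

lemma factor_differentiableOn {a : ℂ} (ha : ‖a‖ < 1) :
    DifferentiableOn ℂ (factor a) (Metric.ball 0 1) := by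
  unfold factor
  split_ifs with h
  · exact differentiableOn_id
  · apply DifferentiableOn.const_mul
    apply DifferentiableOn.div
    · exact (differentiableOn_const _).sub differentiableOn_id
    · exact (differentiableOn_const _).sub (differentiableOn_id.const_mul _)
    · intro z hz
      exact den_ne_zero ha (by simpa using (mem_ball_zero_iff.1 hz).le)

lemma tprod_differentiableOn {g : ι → ℂ → ℂ}
    (hg : ∀ i, DifferentiableOn ℂ (g i) (Metric.ball 0 1)) {u : ι → ℝ} (hu : Summable u)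
    (hgu : ∀ i z, ‖z‖ < 1 → ‖1 - g i z‖ ≤ u i * (2 / (1 - ‖z‖))) (hu0 : ∀ i, 0 ≤ u i) :
    DifferentiableOn ℂ (fun z => ∏' i, g i z) (Metric.ball 0 1) := by
  intro z hz
  rw [mem_ball_zero_iff] at hz
  obtain ⟨r, hzr, hr1⟩ := exists_between hz
  have hr0 : 0 ≤ r := (norm_nonneg z).trans hzr.le
  have hK : IsCompact (Metric.closedBall (0:ℂ) r) := isCompact_closedBall _ _
  have hsub : Metric.closedBall (0:ℂ) r ⊆ Metric.ball 0 1 := Metric.closedBall_subset_ball hr1
  have h1 := Summable.hasProdUniformlyOn_one_add (f := fun i z => g i z - 1) hK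
    (hu.mul_right (2 / (1 - r))) (Eventually.of_forall (fun i w hw => by
      rw [norm_sub_rev]
      rw [mem_closedBall_zero_iff] at hw
      refine (hgu i w (by linarith)).trans ?_
      apply mul_le_mul_of_nonneg_left _ (hu0 i)
      apply div_le_div_of_nonneg_left (by norm_num) (by linarith) (by linarith)))
    (fun i => ((hg i).continuousOn.mono hsub).sub continuousOn_const)
  simp only [add_sub_cancel] at h1
  rw [hasProdUniformlyOn_iff_tendstoUniformlyOn] at h1
  have h2 : TendstoLocallyUniformlyOn (fun s : Finset ι => fun w => ∏ i ∈ s, g i w)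
      (fun w => ∏' i, g i w) atTop (Metric.ball 0 r) :=
    (h1.mono Metric.ball_subset_closedBall).tendstoLocallyUniformlyOn
  have h3 : DifferentiableOn ℂ (fun w => ∏' i, g i w) (Metric.ball 0 r) := by
    apply h2.differentiableOn _ Metric.isOpen_ball
    refine Eventually.of_forall (fun s => ?_)
    apply DifferentiableOn.fun_finsetProd
    intro i _
    exact (hg i).mono (Metric.ball_subset_ball hr1.le)
  exact (h3.differentiableAt (Metric.isOpen_ball.mem_nhds (by simpa using hzr))).differentiableWithinAt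

lemma blaschke_differentiableOn {α : ι → ℂ} {c : ℂ} {b : ℂ → ℂ} (hb : IsBlaschkeWith α c b) :
    DifferentiableOn ℂ b (Metric.ball 0 1) := by
  obtain ⟨hc, hα, hs, hbz⟩ := hb
  have h1 := (tprod_differentiableOn (g := fun i z => factor (α i) z)
    (fun i => factor_differentiableOn (hα i)) hs
    (fun i z hz => norm_one_sub_factor_le (hα i) hz)
    (fun i => by linarith [hα i])).const_mul c
  exact h1.congr (fun z hz => hbz z (by simpa using hz))

lemma one_sub_sum_le_prod {x : ι → ℝ} (h0 : ∀ i, 0 ≤ x i) (h1 : ∀ i, x i ≤ 1) (s : Finset ι) :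
    1 - ∑ i ∈ s, x i ≤ ∏ i ∈ s, (1 - x i) := by
  classical
  induction s using Finset.induction_on with
  | empty => simp
  | insert i s hi ih =>
    rw [Finset.sum_insert hi, Finset.prod_insert hi]
    have h2 : 0 ≤ ∑ i ∈ s, x i := Finset.sum_nonneg (fun i _ => h0 i)
    have h3 : 0 ≤ 1 - x i := by linarith [h1 i]
    have h4 := mul_le_mul_of_nonneg_left ih h3
    nlinarith [h0 i]

lemma norm_prod_ge {g : ι → ℂ} {P : ℂ} (hP : HasProd g P) {x : ι → ℝ} {S : ℝ}
    (h0 : ∀ i, 0 ≤ x i) (h1 : ∀ i, x i ≤ 1) (hS : HasSum x S) (hg : ∀ i, 1 - x i ≤ ‖g i‖) :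
    1 - S ≤ ‖P‖ := by
  have hn := hP.norm
  refine ge_of_tendsto hn ?_
  refine Eventually.of_forall (fun s => ?_)
  have h2 : ∑ i ∈ s, x i ≤ S := sum_le_hasSum s (fun i _ => h0 i) hS
  have h3 : ∏ i ∈ s, (1 - x i) ≤ ∏ i ∈ s, ‖g i‖ :=
    Finset.prod_le_prod (fun i _ => by linarith [h1 i]) (fun i _ => hg i)
  linarith [one_sub_sum_le_prod h0 h1 s]

end General2

/-! ### The sparse Blaschke product -/

/-- `ε n = 4 ^ (-(n+1)^2)` -/
noncomputable def eps (n : ℕ) : ℝ := (1/4)^((n+1)^2)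

/-- the zeros -/
noncomputable def za (n : ℕ) : ℝ := 1 - eps n

lemma eps_pos (n : ℕ) : 0 < eps n := by unfold eps; positivity

lemma eps_le (n : ℕ) : eps n ≤ 1/4 := by
  unfold eps
  have : (1/4 : ℝ)^((n+1)^2) ≤ (1/4)^1 := by
    apply pow_le_pow_of_le_one (by norm_num) (by norm_num)
    exact Nat.one_le_pow _ _ (Nat.succ_pos n)
  simpa using this

lemma za_pos (n : ℕ) : 0 < za n := by unfold za; linarith [eps_le n]

lemma za_lt (n : ℕ) : za n < 1 := by unfold za; linarith [eps_pos n]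

lemma norm_za (n : ℕ) : ‖(za n : ℂ)‖ = za n := by
  rw [Complex.norm_real, Real.norm_eq_abs, abs_of_pos (za_pos n)]

lemma norm_za_lt (n : ℕ) : ‖(za n : ℂ)‖ < 1 := by rw [norm_za]; exact za_lt n

lemma eps_le_geo (n : ℕ) : eps n ≤ (1/4)^n := by
  unfold eps
  apply pow_le_pow_of_le_one (by norm_num) (by norm_num)
  nlinarith

lemma summable_za : Summable (fun n => 1 - ‖(za n : ℂ)‖) := by
  simp_rw [norm_za]
  apply Summable.of_nonneg_of_le (fun n => by linarith [za_lt n]) _
    (summable_geometric_of_lt_one (r := (1/4:ℝ)) (by norm_num) (by norm_num))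
  intro n
  unfold za
  linarith [eps_le_geo n]

lemma factor_za (n : ℕ) (z : ℂ) : factor (za n) z = ((za n : ℂ) - z) / (1 - (za n : ℂ) * z) := by
  unfold factor
  have h : (za n : ℂ) ≠ 0 := by exact_mod_cast (za_pos n).ne'
  rw [if_neg h, norm_za, div_self h, one_mul, Complex.conj_ofReal]

/-- the sparse Blaschke product -/
noncomputable def BB (z : ℂ) : ℂ := ∏' n, factor (za n) z

/-- the sparse Blaschke product without its `n`-th factor -/
noncomputable def BBn (n : ℕ) (z : ℂ) : ℂ := ∏' k, (if k = n then 1 else factor (za k) z)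

lemma isBlaschkeWith_BB : IsBlaschkeWith (fun n => (za n : ℂ)) 1 BB :=
  ⟨by simp, norm_za_lt, summable_za, fun z _ => by rw [one_mul]; rfl⟩

lemma BB_differentiableOn : DifferentiableOn ℂ BB (Metric.ball 0 1) :=
  blaschke_differentiableOn isBlaschkeWith_BB

lemma BBn_differentiableOn (n : ℕ) : DifferentiableOn ℂ (BBn n) (Metric.ball 0 1) := by
  apply tprod_differentiableOn (g := fun k z => if k = n then 1 else factor (za k) z)
    (u := fun k => 1 - ‖(za k : ℂ)‖)
  · intro k
    by_cases h : k = n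
    · simp only [h, if_true]; exact differentiableOn_const _
    · simp only [h, if_false]; exact factor_differentiableOn (norm_za_lt k)
  · exact summable_za
  · intro k z hz
    have h0 : 0 ≤ (1 - ‖(za k : ℂ)‖) * (2 / (1 - ‖z‖)) := by
      apply mul_nonneg
      · linarith [norm_za_lt k]
      · apply div_nonneg (by norm_num); linarith
    by_cases h : k = n
    · simp only [h, if_true, sub_self, norm_zero]
      rw [h] at h0
      exact h0
    · simp only [h, if_false]
      exact norm_one_sub_factor_le (norm_za_lt k) hz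
  · intro k
    linarith [norm_za_lt k]

lemma multipliable_BBn (n : ℕ) {z : ℂ} (hz : ‖z‖ < 1) :
    Multipliable (fun k => if k = n then 1 else factor (za k) z) := by
  rw [show (fun k => if k = n then (1:ℂ) else factor (za k) z) =
    fun k => 1 + ((if k = n then (1:ℂ) else factor (za k) z) - 1) from funext (fun i => by ring)]
  apply multipliable_one_add_of_summable
  apply Summable.of_nonneg_of_le (fun i => norm_nonneg _) _ (summable_za.mul_right (2 / (1 - ‖z‖)))
  intro k
  have h0 : 0 ≤ (1 - ‖(za k : ℂ)‖) * (2 / (1 - ‖z‖)) := by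
    apply mul_nonneg
    · linarith [norm_za_lt k]
    · apply div_nonneg (by norm_num); linarith
  split_ifs with h
  · rw [sub_self, norm_zero]; exact h0
  · rw [norm_sub_rev]
    exact norm_one_sub_factor_le (norm_za_lt k) hz

lemma BB_eq (n : ℕ) {z : ℂ} (hz : ‖z‖ < 1) : BB z = factor (za n) z * BBn n z := by
  unfold BB BBn
  have h := Multipliable.tprod_eq_mul_tprod_ite' (f := fun k => factor (za k) z) n (by
    have := multipliable_BBn n hz
    refine this.congr (fun k => ?_)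
    by_cases h : k = n
    · subst h; simp
    · simp [h])
  exact h

lemma BB_ne_zero {z : ℂ} (hz : ‖z‖ < 1) (h : ∀ n, z ≠ za n) : BB z ≠ 0 := by
  unfold BB
  rw [show (fun k => factor (za k) z) = fun k => 1 + (factor (za k) z - 1) from
    funext (fun i => by ring)]
  apply tprod_one_add_ne_zero_of_summable
  · intro k
    rw [add_sub_cancel, factor_za]
    apply div_ne_zero
    · exact sub_ne_zero.2 (h k).symm
    · have := den_ne_zero (norm_za_lt k) hz.le
      rwa [Complex.conj_ofReal] at this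
  · apply Summable.of_nonneg_of_le (fun i => norm_nonneg _) _
      (summable_za.mul_right (2 / (1 - ‖z‖)))
    intro k
    rw [norm_sub_rev]
    exact norm_one_sub_factor_le (norm_za_lt k) hz

lemma BB_za (n : ℕ) : BB (za n) = 0 := by
  rw [BB_eq n (norm_za_lt n), factor_za, sub_self, zero_div, zero_mul]

lemma norm_BB_lt {z : ℂ} (hz : ‖z‖ < 1) : ‖BB z‖ < 1 :=
  lt_of_le_of_lt (norm_blaschke_le isBlaschkeWith_BB 0 hz) (norm_factor_lt (norm_za_lt 0) hz)

/-- quantitative lower bound for a factor -/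
lemma norm_factor_ge (n : ℕ) {z : ℂ} (hz : ‖z‖ < 1) {ρ : ℝ} (hρ0 : 0 ≤ ρ)
    (hρ : 1 - za n ≤ ρ * (1 - ‖z‖) ∨ 1 - ‖z‖ ≤ ρ * (1 - za n)) :
    1 - 4 * ρ ≤ ‖factor (za n) z‖ := by
  have ha0 := za_pos n
  have ha1 := za_lt n
  have hz0 := norm_nonneg z
  have hden := den_ne_zero (norm_za_lt n) hz.le
  have hfac : ‖factor (za n) z‖ = ‖(za n : ℂ) - z‖ / ‖1 - conj (za n : ℂ) * z‖ := by
    rw [factor_za, norm_div, Complex.conj_ofReal]
  have hid := mobius_identity (za n : ℂ) z
  rw [norm_za] at hid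
  set D := ‖1 - conj (za n : ℂ) * z‖ with hD
  have hDpos : 0 < D := norm_pos_iff.2 hden
  have hDge : 1 - za n * ‖z‖ ≤ D := by
    have := norm_sub_norm_le (1 : ℂ) (conj (za n : ℂ) * z)
    rw [norm_one, norm_mul, RCLike.norm_conj, norm_za] at this
    exact this
  -- ‖f‖^2 = 1 - (1-a^2)(1-r^2)/D^2
  have hsq : ‖factor (za n) z‖^2 = 1 - (1 - za n^2) * (1 - ‖z‖^2) / D^2 := by
    rw [hfac, div_pow]
    field_simp
    linarith
  have hbound : (1 - za n^2) * (1 - ‖z‖^2) ≤ 4 * ρ * D^2 := by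
    have e1 : (1 - za n^2) * (1 - ‖z‖^2) ≤ 4 * ((1 - za n) * (1 - ‖z‖)) := by
      have h1 : 1 - za n^2 = (1 - za n) * (1 + za n) := by ring
      have h2 : 1 - ‖z‖^2 = (1 - ‖z‖) * (1 + ‖z‖) := by ring
      rw [h1, h2]
      have h3 : (1 + za n) * (1 + ‖z‖) ≤ 4 := by nlinarith
      have h4 : 0 ≤ (1 - za n) * (1 - ‖z‖) := mul_nonneg (by linarith) (by linarith)
      nlinarith [mul_le_mul_of_nonneg_left h3 h4]
    have e2 : (1 - za n) * (1 - ‖z‖) ≤ ρ * D^2 := by
      rcases hρ with h | h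
      · have h5 : 1 - ‖z‖ ≤ D := by nlinarith
        have h6 : (1 - ‖z‖)^2 ≤ D^2 := by
          apply pow_le_pow_left₀ (by linarith) h5
        calc (1 - za n) * (1 - ‖z‖) ≤ (ρ * (1 - ‖z‖)) * (1 - ‖z‖) :=
              mul_le_mul_of_nonneg_right h (by linarith)
          _ = ρ * (1 - ‖z‖)^2 := by ring
          _ ≤ ρ * D^2 := mul_le_mul_of_nonneg_left h6 hρ0
      · have h5 : 1 - za n ≤ D := by nlinarith
        have h6 : (1 - za n)^2 ≤ D^2 := by
          apply pow_le_pow_left₀ (by linarith) h5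
        calc (1 - za n) * (1 - ‖z‖) ≤ (1 - za n) * (ρ * (1 - za n)) :=
              mul_le_mul_of_nonneg_left h (by linarith)
          _ = ρ * (1 - za n)^2 := by ring
          _ ≤ ρ * D^2 := mul_le_mul_of_nonneg_left h6 hρ0
    linarith
  have h7 : (1 - za n^2) * (1 - ‖z‖^2) / D^2 ≤ 4 * ρ := by
    rw [div_le_iff₀ (by positivity)]
    exact hbound
  have h8 : ‖factor (za n) z‖ < 1 := norm_factor_lt (norm_za_lt n) hz
  nlinarith [norm_nonneg (factor (za n) z)]

/-- the radii of the good circles -/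
noncomputable def rad (m : ℕ) : ℝ := 1 - (1/2)^(2*m^2+6*m+5)

lemma rad_pos (m : ℕ) : 0 < rad m := by
  unfold rad
  have : (1/2 : ℝ)^(2*m^2+6*m+5) ≤ (1/2)^1 := by
    apply pow_le_pow_of_le_one (by norm_num) (by norm_num)
    nlinarith
  linarith

lemma rad_lt (m : ℕ) : rad m < 1 := by
  unfold rad
  have : (0:ℝ) < (1/2)^(2*m^2+6*m+5) := by positivity
  linarith

lemma rad_tendsto : Tendsto rad atTop (𝓝 1) := by
  have h : Tendsto (fun m : ℕ => (1/2 : ℝ)^(2*m^2+6*m+5)) atTop (𝓝 0) := by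
    apply squeeze_zero (fun m => by positivity) (fun m => ?_)
      (tendsto_pow_atTop_nhds_zero_of_lt_one (r := (1/2:ℝ)) (by norm_num) (by norm_num))
    apply pow_le_pow_of_le_one (by norm_num) (by norm_num)
    nlinarith
  have := h.const_sub 1
  rw [sub_zero] at this
  exact this

lemma norm_BB_ge (m : ℕ) {z : ℂ} (hz : ‖z‖ = rad m) : 1 - 2 * (1/2)^m ≤ ‖BB z‖ := by
  have hz1 : ‖z‖ < 1 := by rw [hz]; exact rad_lt m
  have hP := (multipliable_factor norm_za_lt summable_za hz1).hasProd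
  have hS : HasSum (fun n : ℕ => (1/2:ℝ)^m * (1/2)^n) ((1/2)^m * 2) :=
    hasSum_geometric_two.mul_left _
  have := norm_prod_ge hP (x := fun n : ℕ => (1/2:ℝ)^m * (1/2)^n) (fun n => by positivity)
    (fun n => by
      have h1 : (1/2:ℝ)^m ≤ 1 := pow_le_one₀ (by norm_num) (by norm_num)
      have h2 : (1/2:ℝ)^n ≤ 1 := pow_le_one₀ (by norm_num) (by norm_num)
      have h3 : (0:ℝ) < (1/2)^n := by positivity
      nlinarith) hS (fun n => by
      have h := norm_factor_ge n hz1 (ρ := (1/2)^(m+n+2)) (by positivity) ?_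
      · have e : 4 * (1/2:ℝ)^(m+n+2) = (1/2)^m * (1/2)^n := by
          rw [pow_add, pow_add]; norm_num; ring
        rw [e] at h
        exact h
      · rw [hz]
        unfold rad za eps
        have e4 : (1/4 : ℝ)^((n+1)^2) = (1/2)^(2*(n+1)^2) := by
          rw [pow_mul]; norm_num
        rw [sub_sub_cancel, sub_sub_cancel, e4, ← pow_add, ← pow_add]
        rcases le_or_gt n m with hnm | hnm
        · right
          apply pow_le_pow_of_le_one (by norm_num) (by norm_num)
          nlinarith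
        · left
          apply pow_le_pow_of_le_one (by norm_num) (by norm_num)
          obtain ⟨j, rfl⟩ := Nat.exists_eq_add_of_lt hnm
          nlinarith [Nat.zero_le j, Nat.zero_le m, Nat.zero_le (m*j), Nat.zero_le (j*j)])
  change _ ≤ ‖BB z‖ at this
  linarith

lemma norm_BBn_ge (n : ℕ) : 1 - (1/4)^n ≤ ‖BBn n (za n)‖ := by
  have hP := (multipliable_BBn n (norm_za_lt n)).hasProd
  have hS : HasSum (fun k : ℕ => (1/4:ℝ)^(n+1) * (1/4)^k) ((1/4)^(n+1) * (1 - 1/4)⁻¹) :=
    (hasSum_geometric_of_lt_one (by norm_num) (by norm_num)).mul_left _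
  have := norm_prod_ge hP (x := fun k : ℕ => (1/4:ℝ)^(n+1) * (1/4)^k) (fun n => by positivity)
    (fun k => by
      have h1 : (1/4:ℝ)^(n+1) ≤ 1 := pow_le_one₀ (by norm_num) (by norm_num)
      have h2 : (1/4:ℝ)^k ≤ 1 := pow_le_one₀ (by norm_num) (by norm_num)
      have h3 : (0:ℝ) < (1/4)^k := by positivity
      nlinarith) hS (fun k => by
      by_cases hkn : k = n
      · simp only [hkn, if_true, norm_one]
        have : (0:ℝ) < (1/4)^(n+1) * (1/4)^n := by positivity
        linarith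
      · simp only [hkn, if_false]
        have h := norm_factor_ge k (norm_za_lt n) (ρ := (1/4)^(n+k+2)) (by positivity) ?_
        · have e : 4 * (1/4:ℝ)^(n+k+2) = (1/4)^(n+1) * (1/4)^k := by
            rw [pow_add, pow_add, pow_add]; norm_num; ring
          rw [e] at h
          exact h
        · rw [norm_za]
          unfold za eps
          rw [sub_sub_cancel, sub_sub_cancel, ← pow_add, ← pow_add]
          rcases lt_or_gt_of_ne hkn with hlt | hlt
          · right
            apply pow_le_pow_of_le_one (by norm_num) (by norm_num)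
            obtain ⟨j, rfl⟩ := Nat.exists_eq_add_of_lt hlt
            nlinarith [Nat.zero_le j, Nat.zero_le k, Nat.zero_le (k*j), Nat.zero_le (j*j)]
          · left
            apply pow_le_pow_of_le_one (by norm_num) (by norm_num)
            obtain ⟨j, rfl⟩ := Nat.exists_eq_add_of_lt hlt
            nlinarith [Nat.zero_le j, Nat.zero_le n, Nat.zero_le (n*j), Nat.zero_le (j*j)])
  have e : (1/4:ℝ)^(n+1) * (1 - 1/4)⁻¹ ≤ (1/4)^n := by
    rw [pow_succ]
    have : (0:ℝ) < (1/4)^n := by positivity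
    norm_num
    nlinarith
  change _ ≤ ‖BBn n (za n)‖ at this
  linarith

/-! ### Function theory on the disc -/

lemma den_ne_zero' {c w : ℂ} (hc : ‖c‖ < 1) (hw : ‖w‖ ≤ 1) : 1 - conj c * w ≠ 0 :=
  den_ne_zero hc hw

/-- the infinitesimal Schwarz-Pick inequality -/
lemma schwarz_pick {G : ℂ → ℂ} (hG : DifferentiableOn ℂ G (Metric.ball 0 1))
    (hG1 : ∀ z, ‖z‖ < 1 → ‖G z‖ ≤ 1) {a : ℂ} (ha : ‖a‖ < 1) (hGa : ‖G a‖ < 1) :
    ‖deriv G a‖ * (1 - ‖a‖^2) ≤ 1 - ‖G a‖^2 := by
  set c := G a with hc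
  let ζ : ℂ → ℂ := fun t => (a - t) / (1 - conj a * t)
  let K : ℂ → ℂ := fun t => (G (ζ t) - c) / (1 - conj c * G (ζ t))
  have hζ1 : ∀ t, ‖t‖ < 1 → ‖ζ t‖ < 1 := fun t ht => norm_mobius_le ha ht
  have hζd : ∀ t, ‖t‖ < 1 → DifferentiableAt ℂ ζ t := by
    intro t ht
    apply DifferentiableAt.div
    · fun_prop
    · fun_prop
    · exact den_ne_zero ha ht.le
  have hζ0 : ζ 0 = a := by simp [ζ]
  have hGd : ∀ z, ‖z‖ < 1 → DifferentiableAt ℂ G z := fun z hz =>
    hG.differentiableAt (Metric.isOpen_ball.mem_nhds (by simpa using hz))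
  have hKd : DifferentiableOn ℂ K (Metric.ball 0 1) := by
    intro t ht
    rw [mem_ball_zero_iff] at ht
    have h1 : DifferentiableAt ℂ (fun t => G (ζ t)) t :=
      (hGd _ (hζ1 t ht)).comp t (hζd t ht)
    apply DifferentiableAt.differentiableWithinAt
    apply DifferentiableAt.div
    · exact h1.sub_const _
    · exact (differentiableAt_const _).sub (h1.const_mul _)
    · exact den_ne_zero' hGa (hG1 _ (hζ1 t ht))
  have hK0 : K 0 = 0 := by simp [K, hζ0, hc]
  have hK1 : MapsTo K (Metric.ball 0 1) (Metric.closedBall (K 0) 1) := by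
    intro t ht
    rw [mem_ball_zero_iff] at ht
    rw [hK0, mem_closedBall_zero_iff]
    have hw := hG1 _ (hζ1 t ht)
    have hd := den_ne_zero' hGa hw
    simp only [K]
    rw [norm_div, div_le_one (norm_pos_iff.2 hd)]
    have h1 := mobius_identity c (G (ζ t))
    have h2 : 0 ≤ (1 - ‖c‖^2) * (1 - ‖G (ζ t)‖^2) := by
      apply mul_nonneg <;> nlinarith [norm_nonneg c, norm_nonneg (G (ζ t))]
    rw [norm_sub_rev c] at h1
    exact le_of_sq_le_sq (by linarith) (norm_nonneg _)
  have hS := Complex.norm_deriv_le_one_of_mapsTo_ball hKd hK1 one_pos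
  -- compute the derivative
  have hζ' : HasDerivAt ζ (-(1 - conj a * a)) 0 := by
    have h1 : HasDerivAt (fun t : ℂ => a - t) (-1) 0 := by
      simpa using (hasDerivAt_id (0:ℂ)).const_sub a
    have h2 : HasDerivAt (fun t : ℂ => 1 - conj a * t) (-(conj a)) 0 := by
      simpa using ((hasDerivAt_id (0:ℂ)).const_mul (conj a)).const_sub 1
    have h3 : HasDerivAt ζ _ 0 := h1.div h2 (by simp)
    refine h3.congr_deriv ?_
    simp
    ring
  have hG' : HasDerivAt G (deriv G a) (ζ 0) := by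
    rw [hζ0]; exact (hGd a ha).hasDerivAt
  have hGζ : HasDerivAt (fun t => G (ζ t)) (deriv G a * (-(1 - conj a * a))) 0 :=
    HasDerivAt.comp (0:ℂ) hG' hζ'
  have hcc : 1 - conj c * c ≠ 0 := den_ne_zero' hGa hGa.le
  have hK' : HasDerivAt K (deriv G a * (-(1 - conj a * a)) / (1 - conj c * c)) 0 := by
    have h1 := hGζ.sub_const c
    have h2 := (hGζ.const_mul (conj c)).const_sub 1
    have h3 : HasDerivAt K _ 0 := h1.div h2 (by rw [hζ0]; exact hcc)
    refine h3.congr_deriv ?_
    rw [hζ0, ← hc, sub_self, zero_mul, sub_zero]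
    field_simp
  rw [hK'.deriv] at hS
  have e1 : conj a * a = ((‖a‖^2 : ℝ) : ℂ) := by
    rw [mul_comm, Complex.mul_conj, Complex.normSq_eq_norm_sq]
  have e2 : conj c * c = ((‖c‖^2 : ℝ) : ℂ) := by
    rw [mul_comm, Complex.mul_conj, Complex.normSq_eq_norm_sq]
  have p1 : 0 < 1 - ‖a‖^2 := by nlinarith [norm_nonneg a]
  have p2 : 0 < 1 - ‖c‖^2 := by nlinarith [norm_nonneg c]
  have n1 : ‖-(1 - conj a * a)‖ = 1 - ‖a‖^2 := by
    rw [norm_neg, e1, ← Complex.ofReal_one, ← Complex.ofReal_sub, Complex.norm_real,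
      Real.norm_eq_abs, abs_of_pos p1]
  have n2 : ‖1 - conj c * c‖ = 1 - ‖c‖^2 := by
    rw [e2, ← Complex.ofReal_one, ← Complex.ofReal_sub, Complex.norm_real,
      Real.norm_eq_abs, abs_of_pos p2]
  rw [norm_div, norm_mul, n1, n2, div_le_one p2] at hS
  exact hS

/-- division of dominated holomorphic functions -/
lemma division {G M : ℂ → ℂ} (hG : DifferentiableOn ℂ G (Metric.ball 0 1))
    (hM : DifferentiableOn ℂ M (Metric.ball 0 1)) (hMG : ∀ z, ‖z‖ < 1 → ‖M z‖ ≤ ‖G z‖)
    {z₀ : ℂ} (hz₀ : ‖z₀‖ < 1) (hG0 : G z₀ ≠ 0) :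
    ∃ H : ℂ → ℂ, DifferentiableOn ℂ H (Metric.ball 0 1) ∧
      ∀ z, ‖z‖ < 1 → M z = G z * H z ∧ ‖H z‖ ≤ 1 := by
  have hGa : AnalyticOnNhd ℂ G (Metric.ball 0 1) := hG.analyticOnNhd Metric.isOpen_ball
  have hiso : ∀ z, ‖z‖ < 1 → ∀ᶠ w in 𝓝[≠] z, G w ≠ 0 := by
    intro z hz
    rcases (hGa z (by simpa using hz)).eventually_eq_zero_or_eventually_ne_zero with h | h
    · exfalso
      apply hG0
      exact hGa.eqOn_zero_of_preconnected_of_eventuallyEq_zero
        (convex_ball (0:ℂ) 1).isPreconnected (by simpa using hz) h (by simpa using hz₀)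
    · exact h
  let Q : ℂ → ℂ := fun z => M z / G z
  let H : ℂ → ℂ := fun z => limUnder (𝓝[≠] z) Q
  have hball : ∀ z : ℂ, ‖z‖ < 1 → Metric.ball (0:ℂ) 1 ∈ 𝓝 z := fun z hz =>
    Metric.isOpen_ball.mem_nhds (by simpa using hz)
  have hQd : ∀ z, ‖z‖ < 1 → G z ≠ 0 → DifferentiableAt ℂ Q z := by
    intro z hz h
    exact (hM.differentiableAt (hball z hz)).div (hG.differentiableAt (hball z hz)) h
  have hHQ : ∀ z, ‖z‖ < 1 → G z ≠ 0 → H z = Q z := by
    intro z hz h
    exact ((hQd z hz h).continuousAt.tendsto.mono_left nhdsWithin_le_nhds).limUnder_eq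
  have hQ1 : ∀ z, ‖z‖ < 1 → ‖Q z‖ ≤ 1 := by
    intro z hz
    simp only [Q]
    rw [norm_div]
    exact div_le_one_of_le₀ (hMG z hz) (norm_nonneg _)
  have hHd : ∀ z, ‖z‖ < 1 → DifferentiableAt ℂ H z := by
    intro z hz
    have hev : ∀ᶠ w in 𝓝[≠] z, ‖w‖ < 1 ∧ G w ≠ 0 := by
      refine Filter.Eventually.and ?_ (hiso z hz)
      apply mem_nhdsWithin_of_mem_nhds
      filter_upwards [hball z hz] with w hw using by simpa using hw
    rw [eventually_nhdsWithin_iff] at hev
    let s : Set ℂ := {w | w ≠ z → ‖w‖ < 1 ∧ G w ≠ 0}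
    have hs : s ∈ 𝓝 z := hev
    have hd : DifferentiableOn ℂ Q (s \ {z}) := by
      rintro w ⟨hw, hwz⟩
      have := hw hwz
      exact (hQd w this.1 this.2).differentiableWithinAt
    have hbdd : BddAbove (norm ∘ Q '' (s \ {z})) := by
      refine ⟨1, ?_⟩
      rintro _ ⟨w, ⟨hw, hwz⟩, rfl⟩
      exact hQ1 w (hw hwz).1
    have h1 := Complex.differentiableOn_update_limUnder_of_bddAbove hs hd hbdd
    have h2 := h1.differentiableAt hs
    apply h2.congr_of_eventuallyEq
    filter_upwards [hs] with w hw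
    by_cases hwz : w = z
    · subst hwz
      simp [H]
    · rw [Function.update_of_ne hwz]
      exact hHQ w (hw hwz).1 (hw hwz).2
  have hHc : ∀ z, ‖z‖ < 1 → Tendsto Q (𝓝[≠] z) (𝓝 (H z)) := by
    intro z hz
    have h1 : Tendsto H (𝓝[≠] z) (𝓝 (H z)) :=
      (hHd z hz).continuousAt.tendsto.mono_left nhdsWithin_le_nhds
    refine h1.congr' ?_
    have h2 : ∀ᶠ w in 𝓝[≠] z, ‖w‖ < 1 := by
      apply mem_nhdsWithin_of_mem_nhds
      filter_upwards [hball z hz] with w hw using by simpa using hw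
    filter_upwards [hiso z hz, h2] with w hw hw1
    exact hHQ w hw1 hw
  refine ⟨H, fun z hz => (hHd z (by simpa using hz)).differentiableWithinAt, ?_⟩
  intro z hz
  constructor
  · have hMc : Tendsto M (𝓝[≠] z) (𝓝 (M z)) :=
      ((hM.differentiableAt (hball z hz)).continuousAt.tendsto).mono_left nhdsWithin_le_nhds
    have hGc : Tendsto G (𝓝[≠] z) (𝓝 (G z)) :=
      ((hG.differentiableAt (hball z hz)).continuousAt.tendsto).mono_left nhdsWithin_le_nhds
    have h3 : Tendsto M (𝓝[≠] z) (𝓝 (G z * H z)) := by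
      refine (hGc.mul (hHc z hz)).congr' ?_
      filter_upwards [hiso z hz] with w hw
      simp only [Q]
      field_simp
    exact tendsto_nhds_unique hMc h3
  · refine le_of_tendsto (hHc z hz).norm ?_
    have h2 : ∀ᶠ w in 𝓝[≠] z, ‖w‖ < 1 := by
      apply mem_nhdsWithin_of_mem_nhds
      filter_upwards [hball z hz] with w hw using by simpa using hw
    filter_upwards [h2] with w hw
    exact hQ1 w hw

lemma norm_BBn_le (n : ℕ) {z : ℂ} (hz : ‖z‖ < 1) : ‖BBn n z‖ ≤ 1 := by
  have hP := (multipliable_BBn n hz).hasProd.norm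
  refine le_of_tendsto hP ?_
  refine Eventually.of_forall (fun s => ?_)
  apply Finset.prod_le_one (fun _ _ => norm_nonneg _)
  intro k _
  split_ifs with h
  · simp
  · exact (norm_factor_lt (norm_za_lt k) hz).le

lemma hasDerivAt_BB (n : ℕ) :
    HasDerivAt BB (-(1 / (1 - (za n : ℂ)^2)) * BBn n (za n)) (za n) := by
  have ha := norm_za_lt n
  have hnhds : Metric.ball (0:ℂ) 1 ∈ 𝓝 (za n : ℂ) :=
    Metric.isOpen_ball.mem_nhds (by simpa using ha)
  have hne : (1 : ℂ) - (za n : ℂ) * za n ≠ 0 := by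
    have := den_ne_zero ha ha.le
    rwa [Complex.conj_ofReal] at this
  have h1 : HasDerivAt (fun z : ℂ => ((za n : ℂ) - z) / (1 - (za n : ℂ) * z))
      (-(1 / (1 - (za n : ℂ)^2))) (za n) := by
    have e1 : HasDerivAt (fun t : ℂ => (za n : ℂ) - t) (-1) (za n) := by
      simpa using (hasDerivAt_id ((za n : ℂ))).const_sub (za n : ℂ)
    have e2 : HasDerivAt (fun t : ℂ => 1 - (za n : ℂ) * t) (-(za n : ℂ)) (za n) := by
      simpa using ((hasDerivAt_id ((za n : ℂ))).const_mul (za n : ℂ)).const_sub 1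
    refine (e1.div e2 hne).congr_deriv ?_
    rw [sub_self, zero_mul, sub_zero]
    have hne' : (1 : ℂ) - (za n : ℂ)^2 ≠ 0 := by rwa [sq]
    rw [← sq]
    field_simp
  have h2 : HasDerivAt (BBn n) (deriv (BBn n) (za n)) (za n) :=
    ((BBn_differentiableOn n).differentiableAt hnhds).hasDerivAt
  have h3 := h1.mul h2
  rw [sub_self, zero_div, zero_mul, add_zero] at h3
  apply h3.congr_of_eventuallyEq
  filter_upwards [hnhds] with z hz
  rw [Pi.mul_apply, BB_eq n (by simpa using hz), factor_za]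

lemma eps_strictAnti : StrictAnti eps := by
  intro m n hmn
  unfold eps
  apply pow_lt_pow_right_of_lt_one₀ (by norm_num) (by norm_num)
  nlinarith

lemma za_injective : Function.Injective za := by
  intro m n h
  apply eps_strictAnti.injective
  unfold za at h
  linarith

lemma BBn_ne_zero (n : ℕ) : BBn n (za n) ≠ 0 := by
  have hz := norm_za_lt n
  unfold BBn
  rw [show (fun k => if k = n then (1:ℂ) else factor (za k) (za n)) =
    fun k => 1 + ((if k = n then (1:ℂ) else factor (za k) (za n)) - 1) from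
    funext (fun i => by ring)]
  apply tprod_one_add_ne_zero_of_summable
  · intro k
    rw [add_sub_cancel]
    split_ifs with h
    · exact one_ne_zero
    · rw [factor_za]
      apply div_ne_zero
      · rw [← Complex.ofReal_sub]
        exact_mod_cast sub_ne_zero.2 (fun h' => h (za_injective h'))
      · have := den_ne_zero (norm_za_lt k) hz.le
        rwa [Complex.conj_ofReal] at this
  · apply Summable.of_nonneg_of_le (fun i => norm_nonneg _) _
      (summable_za.mul_right (2 / (1 - ‖(za n : ℂ)‖)))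
    intro k
    have h0 : 0 ≤ (1 - ‖(za k : ℂ)‖) * (2 / (1 - ‖(za n : ℂ)‖)) := by
      apply mul_nonneg
      · linarith [norm_za_lt k]
      · apply div_nonneg (by norm_num); linarith
    split_ifs with h
    · rw [sub_self, norm_zero]; exact h0
    · rw [norm_sub_rev]
      exact norm_one_sub_factor_le (norm_za_lt k) hz

lemma deriv_BB_ne_zero (n : ℕ) : deriv BB (za n) ≠ 0 := by
  rw [(hasDerivAt_BB n).deriv]
  have h1 : (1:ℂ) - (za n : ℂ)^2 ≠ 0 := by
    have := den_ne_zero (norm_za_lt n) (norm_za_lt n).le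
    rw [Complex.conj_ofReal] at this
    rwa [sq]
  apply mul_ne_zero
  · rw [neg_ne_zero]
    exact one_div_ne_zero h1
  · exact BBn_ne_zero n

/-- the norm of the function `θ` constructed below -/
noncomputable def MM (z : ℂ) : ℂ := ((1 - z)^2 - 9 * z^2 * BB z) / (9 - (1 - z)^2 * BB z)

/-- the norm of a factor of type (iii) -/
noncomputable def GG (u : ℂ → ℂ) (ξ z : ℂ) : ℂ :=
  (ξ^2 - u z^2 * BB z) / (1 - (conj ξ)^2 * (u z^2 * BB z))

lemma MM_den_ne_zero {z : ℂ} (hz : ‖z‖ < 1) : 9 - (1 - z)^2 * BB z ≠ 0 := by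
  intro h
  have h1 : (1 - z)^2 * BB z = 9 := (sub_eq_zero.1 h).symm
  have h2 : ‖(1 - z)^2 * BB z‖ = 9 := by rw [h1]; simp
  rw [norm_mul, norm_pow] at h2
  have h3 : ‖1 - z‖ ≤ 2 := by
    refine (norm_sub_le _ _).trans ?_
    rw [norm_one]; linarith
  have h4 := norm_BB_lt hz
  have h5 : ‖1 - z‖^2 ≤ 4 := by nlinarith [norm_nonneg (1 - z)]
  nlinarith [norm_nonneg (BB z), sq_nonneg ‖1 - z‖]

lemma GG_den_ne_zero {u : ℂ → ℂ} (hu1 : ∀ z, ‖z‖ < 1 → ‖u z‖ ≤ 1) {ξ : ℂ} (hξ : ‖ξ‖ < 1)
    {z : ℂ} (hz : ‖z‖ < 1) : 1 - (conj ξ)^2 * (u z^2 * BB z) ≠ 0 := by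
  have h1 : ‖ξ^2‖ < 1 := by
    rw [norm_pow]; exact pow_lt_one₀ (norm_nonneg _) hξ (by norm_num)
  have h2 : ‖u z^2 * BB z‖ ≤ 1 := by
    rw [norm_mul, norm_pow]
    have := norm_BB_lt hz
    have := hu1 z hz
    have h3 : ‖u z‖^2 ≤ 1 := pow_le_one₀ (norm_nonneg _) this
    nlinarith [norm_nonneg (BB z), sq_nonneg ‖u z‖]
  have := den_ne_zero h1 h2
  rwa [map_pow] at this

lemma GG_norm_le {u : ℂ → ℂ} (hu1 : ∀ z, ‖z‖ < 1 → ‖u z‖ ≤ 1) {ξ : ℂ} (hξ : ‖ξ‖ < 1)
    {z : ℂ} (hz : ‖z‖ < 1) : ‖GG u ξ z‖ ≤ 1 := by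
  have h1 : ‖ξ^2‖ < 1 := by
    rw [norm_pow]; exact pow_lt_one₀ (norm_nonneg _) hξ (by norm_num)
  have h2 : ‖u z^2 * BB z‖ < 1 := by
    rw [norm_mul, norm_pow]
    have := norm_BB_lt hz
    have := hu1 z hz
    have h3 : ‖u z‖^2 ≤ 1 := pow_le_one₀ (norm_nonneg _) this
    nlinarith [norm_nonneg (BB z), sq_nonneg ‖u z‖]
  have := norm_mobius_le h1 h2
  rw [map_pow] at this
  exact this.le

/-- No factor of type (iii) with a non-zero parameter dominates. -/
lemma core {u : ℂ → ℂ} (hu : DifferentiableOn ℂ u (Metric.ball 0 1))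
    (hu1 : ∀ z, ‖z‖ < 1 → ‖u z‖ ≤ 1) {ξ : ℂ} (hξ : ‖ξ‖ < 1) (hξ0 : ξ ≠ 0)
    (hdom : ∀ z, ‖z‖ < 1 → ‖MM z‖ ≤ ‖GG u ξ z‖) : False := by
  have hBd := BB_differentiableOn
  have hid : DifferentiableOn ℂ (fun z : ℂ => z) (Metric.ball 0 1) := differentiableOn_id
  have hG : DifferentiableOn ℂ (GG u ξ) (Metric.ball 0 1) := by
    unfold GG
    apply DifferentiableOn.div
    · exact (differentiableOn_const _).sub ((hu.pow 2).mul hBd)
    · exact (differentiableOn_const _).sub (((hu.pow 2).mul hBd).const_mul _)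
    · intro z hz
      exact GG_den_ne_zero hu1 hξ (by simpa using hz)
  have hM : DifferentiableOn ℂ MM (Metric.ball 0 1) := by
    unfold MM
    apply DifferentiableOn.div
    · exact (((differentiableOn_const _).sub hid).pow 2).sub (((hid.pow 2).const_mul 9).mul hBd)
    · exact (differentiableOn_const _).sub ((((differentiableOn_const _).sub hid).pow 2).mul hBd)
    · intro z hz
      exact MM_den_ne_zero (by simpa using hz)
  have hGa : ∀ n, GG u ξ (za n) = ξ^2 := by
    intro n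
    unfold GG
    rw [BB_za]
    simp
  obtain ⟨H, hH, hH1⟩ := division hG hM hdom (norm_za_lt 0) (by rw [hGa]; exact pow_ne_zero 2 hξ0)
  have hMa : ∀ n, MM (za n) = (1 - (za n : ℂ))^2 / 9 := by
    intro n
    unfold MM
    rw [BB_za]
    simp
  have hξpos : 0 < ‖ξ‖ := norm_pos_iff.2 hξ0
  have hball : ∀ n, Metric.ball (0:ℂ) 1 ∈ 𝓝 (za n : ℂ) := fun n =>
    Metric.isOpen_ball.mem_nhds (by simpa using norm_za_lt n)
  have hHa : ∀ n, ‖H (za n)‖ = (eps n)^2 / (9 * ‖ξ‖^2) := by
    intro n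
    have h1 := (hH1 (za n) (norm_za_lt n)).1
    rw [hMa, hGa] at h1
    have h2 := congrArg norm h1
    rw [norm_div, norm_mul, norm_pow, norm_pow] at h2
    have h3 : ‖(1 : ℂ) - (za n : ℂ)‖ = eps n := by
      rw [← Complex.ofReal_one, ← Complex.ofReal_sub, Complex.norm_real, Real.norm_eq_abs]
      unfold za
      rw [sub_sub_cancel, abs_of_pos (eps_pos n)]
    rw [h3] at h2
    have h4 : ‖(9:ℂ)‖ = 9 := by simp
    rw [h4] at h2
    rw [eq_div_iff (by positivity)]
    linarith
  -- derivative of M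
  have hMder : ∀ n, deriv MM (za n) = deriv (GG u ξ) (za n) * H (za n) + ξ^2 * deriv H (za n) := by
    intro n
    have h1 := (hG.differentiableAt (hball n)).hasDerivAt
    have h2 := (hH.differentiableAt (hball n)).hasDerivAt
    have h3 := h1.mul h2
    rw [hGa] at h3
    have h4 : HasDerivAt MM (deriv (GG u ξ) (za n) * H (za n) + ξ^2 * deriv H (za n)) (za n) := by
      apply h3.congr_of_eventuallyEq
      filter_upwards [hball n] with z hz
      rw [Pi.mul_apply]
      exact (hH1 z (by simpa using hz)).1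
    exact h4.deriv
  have hMder2 : ∀ n, deriv MM (za n) =
      ((-2 * (1 - (za n : ℂ)) - 9 * (za n : ℂ)^2 * deriv BB (za n)) * 9
        + (1 - (za n : ℂ))^4 * deriv BB (za n)) / 81 := by
    intro n
    have hB : HasDerivAt BB (deriv BB (za n)) (za n) :=
      (hBd.differentiableAt (hball n)).hasDerivAt
    have h0 : HasDerivAt (fun z : ℂ => z) 1 (za n : ℂ) := hasDerivAt_id _
    have h1 : HasDerivAt (fun z : ℂ => (1 - z)^2 - 9 * z^2 * BB z)
        (-2 * (1 - (za n : ℂ)) - 9 * (za n : ℂ)^2 * deriv BB (za n)) (za n) := by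
      have e1 := ((h0.const_sub 1).pow 2).sub (((h0.pow 2).const_mul 9).mul hB)
      refine e1.congr_deriv ?_
      simp only [BB_za, Pi.pow_apply]
      push_cast
      ring
    have h2 : HasDerivAt (fun z : ℂ => 9 - (1 - z)^2 * BB z)
        (-((1 - (za n : ℂ))^2 * deriv BB (za n))) (za n) := by
      have e1 := (((h0.const_sub 1).pow 2).mul hB).const_sub 9
      refine e1.congr_deriv ?_
      simp only [BB_za, Pi.pow_apply]
      push_cast
      ring
    have h3 : HasDerivAt MM _ (za n) := h1.div h2 (MM_den_ne_zero (norm_za_lt n))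
    rw [h3.deriv, BB_za]
    ring
  -- lower bound
  have hlow : ∀ n, (za n)^2 * (1 - (1/4)^n) - 2 * eps n ≤
      ‖deriv MM (za n)‖ * (1 - ‖(za n : ℂ)‖^2) := by
    intro n
    have ha0 := za_pos n
    have ha1 := za_lt n
    have he : eps n = 1 - za n := by unfold za; ring
    have hep := eps_pos n
    have he1 : eps n ≤ 1/4 := eps_le n
    rw [hMder2, norm_za]
    have hder : ‖deriv BB (za n)‖ * (1 - (za n)^2) = ‖BBn n (za n)‖ := by
      rw [(hasDerivAt_BB n).deriv, norm_mul, norm_neg]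
      have h1 : ‖1 / (1 - (za n : ℂ)^2)‖ = 1 / (1 - (za n)^2) := by
        have : (1 - (za n : ℂ)^2) = ((1 - (za n)^2 : ℝ) : ℂ) := by push_cast; ring
        rw [this, norm_div, Complex.norm_real, Real.norm_eq_abs, abs_of_pos (by nlinarith),
          norm_one]
      rw [h1]
      have h2 : 1 - (za n)^2 ≠ 0 := by nlinarith
      field_simp
    have hb1 := norm_BBn_ge n
    have hb2 := norm_BBn_le n (norm_za_lt n)
    rw [norm_div]
    have h81 : ‖(81:ℂ)‖ = 81 := by simp
    rw [h81]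
    set β := deriv BB (za n) with hβ
    have hx : (-2 * (1 - (za n : ℂ)) - 9 * (za n : ℂ)^2 * β) * 9 + (1 - (za n : ℂ))^4 * β =
        (-(((81 * (za n)^2 : ℝ) : ℂ) * β)) + ((((1 - za n)^4 : ℝ) : ℂ) * β - ((18 * (1 - za n) : ℝ) : ℂ)) := by
      push_cast; ring
    rw [hx]
    have hn1 : ‖-(((81 * (za n)^2 : ℝ) : ℂ) * β)‖ = 81 * (za n)^2 * ‖β‖ := by
      rw [norm_neg, norm_mul, Complex.norm_real, Real.norm_eq_abs, abs_of_pos (by positivity)]
    have hn2 : ‖(((1 - za n)^4 : ℝ) : ℂ) * β - ((18 * (1 - za n) : ℝ) : ℂ)‖ ≤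
        (1 - za n)^4 * ‖β‖ + 18 * (1 - za n) := by
      refine (norm_sub_le _ _).trans ?_
      rw [norm_mul, Complex.norm_real, Complex.norm_real, Real.norm_eq_abs, Real.norm_eq_abs,
        abs_of_nonneg (by positivity), abs_of_nonneg (by linarith)]
    have hn3 : 81 * (za n)^2 * ‖β‖ - ((1 - za n)^4 * ‖β‖ + 18 * (1 - za n)) ≤
        ‖(-(((81 * (za n)^2 : ℝ) : ℂ) * β)) + ((((1 - za n)^4 : ℝ) : ℂ) * β - ((18 * (1 - za n) : ℝ) : ℂ))‖ := by
      have := norm_sub_le_norm_add (-(((81 * (za n)^2 : ℝ) : ℂ) * β))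
        ((((1 - za n)^4 : ℝ) : ℂ) * β - ((18 * (1 - za n) : ℝ) : ℂ))
      rw [hn1] at this
      linarith
    have hpos : 0 < 1 - (za n)^2 := by nlinarith
    have h5 : (81 * (za n)^2 * ‖β‖ - ((1 - za n)^4 * ‖β‖ + 18 * (1 - za n))) * (1 - (za n)^2) =
        81 * (za n)^2 * ‖BBn n (za n)‖ - (1 - za n)^4 * ‖BBn n (za n)‖
          - 18 * (1 - za n) * (1 - (za n)^2) := by
      rw [← hder]; ring
    have h6 := mul_le_mul_of_nonneg_right hn3 hpos.le
    rw [h5] at h6
    rw [div_mul_eq_mul_div, le_div_iff₀ (by norm_num : (0:ℝ) < 81)]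
    refine le_trans ?_ h6
    rw [← he]
    have h7 : (eps n)^4 ≤ eps n := by
      have : (eps n)^4 ≤ (eps n)^1 := pow_le_pow_of_le_one hep.le (by linarith) (by norm_num)
      simpa using this
    have h8 : (eps n)^4 * ‖BBn n (za n)‖ ≤ eps n := by
      have : 0 ≤ (eps n)^4 := by positivity
      nlinarith [norm_nonneg (BBn n (za n))]
    have h9 : 18 * eps n * (1 - (za n)^2) ≤ 18 * eps n := by nlinarith [sq_nonneg (za n)]
    have h10 : 81 * (za n)^2 * (1 - (1/4)^n) ≤ 81 * (za n)^2 * ‖BBn n (za n)‖ :=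
      mul_le_mul_of_nonneg_left hb1 (by positivity)
    nlinarith
  -- upper bound
  have hup : ∀ n, ‖deriv MM (za n)‖ * (1 - ‖(za n : ℂ)‖^2) ≤
      (eps n)^2 / (9 * ‖ξ‖^2) + ‖ξ‖^2 := by
    intro n
    by_cases hHn : ‖H (za n)‖ < 1
    · have g1 := schwarz_pick hG (fun z hz => GG_norm_le hu1 hξ hz) (norm_za_lt n) (by
        rw [hGa, norm_pow]
        exact pow_lt_one₀ (norm_nonneg _) hξ (by norm_num))
      have g2 := schwarz_pick hH (fun z hz => (hH1 z hz).2) (norm_za_lt n) hHn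
      rw [hGa, norm_pow] at g1
      have hp : 0 ≤ 1 - ‖(za n : ℂ)‖^2 := by
        have := norm_za_lt n
        nlinarith [norm_nonneg (za n : ℂ)]
      have g3 : ‖deriv MM (za n)‖ ≤ ‖deriv (GG u ξ) (za n)‖ * ‖H (za n)‖ +
          ‖ξ‖^2 * ‖deriv H (za n)‖ := by
        rw [hMder n]
        refine (norm_add_le _ _).trans ?_
        rw [norm_mul, norm_mul, norm_pow]
      have g4 := mul_le_mul_of_nonneg_right g3 hp
      rw [← hHa n]
      have g5 := mul_le_mul_of_nonneg_right g1 (norm_nonneg (H (za n)))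
      have g6 := mul_le_mul_of_nonneg_left g2 (sq_nonneg ‖ξ‖)
      have g7 : 0 ≤ (‖ξ‖^2)^2 * ‖H (za n)‖ := by positivity
      have g8 : 0 ≤ ‖ξ‖^2 * ‖H (za n)‖^2 := by positivity
      nlinarith
    · -- then H has modulus one at the point: impossible because the norm equals ...
      exfalso
      apply hHn
      have h1 := (hH1 (za n) (norm_za_lt n)).2
      rcases lt_or_eq_of_le h1 with h | h
      · exact h
      · -- maximum principle: H is constant of modulus one
        exfalso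
        have hmax : IsMaxOn (norm ∘ H) (Metric.ball 0 1) (za n : ℂ) := by
          intro z hz
          change ‖H z‖ ≤ ‖H (za n)‖
          rw [h]
          exact (hH1 z (by simpa using hz)).2
        have hconst := Complex.norm_eqOn_of_isPreconnected_of_isMaxOn
          (convex_ball (0:ℂ) 1).isPreconnected Metric.isOpen_ball hH
          (by simpa using norm_za_lt n) hmax
        -- then eps is constant
        have h2 : ‖H (za (n+1))‖ = 1 := by
          have := hconst (show (za (n+1) : ℂ) ∈ Metric.ball 0 1 by simpa using norm_za_lt (n+1))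
          simp only [Function.const_apply, Function.comp_apply] at this
          rw [this, h]
        rw [hHa] at h h2
        have h3 : eps n ^ 2 = eps (n+1) ^ 2 := by
          rw [div_eq_iff (by positivity)] at h h2
          rw [h, h2]
        have h4 : eps n = eps (n+1) := by
          have := (pow_left_inj₀ (eps_pos n).le (eps_pos (n+1)).le (two_ne_zero)).1 h3
          exact this
        have := eps_strictAnti (Nat.lt_succ_self n)
        rw [Nat.succ_eq_add_one, ← h4] at this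
        exact lt_irrefl _ this
  -- limits
  have heps : Tendsto eps atTop (𝓝 0) := by
    apply squeeze_zero (fun m => (eps_pos m).le) (fun m => eps_le_geo m)
      (tendsto_pow_atTop_nhds_zero_of_lt_one (by norm_num) (by norm_num))
  have hza : Tendsto za atTop (𝓝 1) := by
    have := heps.const_sub 1
    rw [sub_zero] at this
    exact this
  have hq : Tendsto (fun n : ℕ => (1/4 : ℝ)^n) atTop (𝓝 0) :=
    tendsto_pow_atTop_nhds_zero_of_lt_one (by norm_num) (by norm_num)
  have hL : Tendsto (fun n => (za n)^2 * (1 - (1/4)^n) - 2 * eps n) atTop (𝓝 (1^2 * (1 - 0) - 2 * 0)) :=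
    ((hza.pow 2).mul (hq.const_sub 1)).sub (heps.const_mul 2)
  have hR : Tendsto (fun n => (eps n)^2 / (9 * ‖ξ‖^2) + ‖ξ‖^2) atTop (𝓝 (0^2 / (9 * ‖ξ‖^2) + ‖ξ‖^2)) :=
    ((heps.pow 2).div_const _).add_const _
  have := le_of_tendsto_of_tendsto' hL hR (fun n => (hlow n).trans (hup n))
  have h1 : ‖ξ‖^2 < 1 := pow_lt_one₀ (norm_nonneg _) hξ (by norm_num)
  norm_num at this
  linarith

end Pool.Agent.Helper710.QuasiProper
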