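import Mathlib

set_option autoImplicit false

namespace Pool.Agent.Helper710.QuasiProper

open Filter Topology Set Complex ComplexConjugate
open scoped Manifold ContDiff

/-- The Blaschke factor of the point `a` of the open unit disc. -/
noncomputable def factor (a z : ℂ) : ℂ :=
  if a = 0 then z else ((‖a‖ : ℂ) / a) * ((a - z) / (1 - conj a * z))

/-- `b` is, on the open unit disc, the Blaschke product with zeros `α i` (repeated according to
multiplicity) and unimodular constant `c`. -/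
def IsBlaschkeWith {ι : Type} (α : ι → ℂ) (c : ℂ) (b : ℂ → ℂ) : Prop :=
  ‖c‖ = 1 ∧ (∀ i, ‖α i‖ < 1) ∧ Summable (fun i => 1 - ‖α i‖) ∧
    ∀ z, ‖z‖ < 1 → b z = c * ∏' i, factor (α i) z

/-- `b` is, on the open unit disc, a finite or infinite Blaschke product. -/
def IsBlaschke (b : ℂ → ℂ) : Prop :=
  ∃ (ι : Type) (α : ι → ℂ) (c : ℂ), IsBlaschkeWith α c b

/-- Inner functions of the unit disc: bounded holomorphic functions whose radial limits exist and
have modulus `1` at almost every point of the circle. -/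
def IsInner (u : ℂ → ℂ) : Prop :=
  DifferentiableOn ℂ u (Metric.ball 0 1) ∧ (∃ C : ℝ, ∀ z, ‖z‖ < 1 → ‖u z‖ ≤ C) ∧
    ∀ᵐ t : ℝ, ∃ L : ℂ, ‖L‖ = 1 ∧
      Tendsto (fun r : ℝ => u (r * Complex.exp (t * I))) (𝓝[<] 1) (𝓝 L)

section

variable {X : Type} [TopologicalSpace X] [ChartedSpace ℂ X]

/-- `X`, with its given charts, is an open (connected and not compact) Riemann surface. -/
def IsOpenRiemannSurface (X : Type) [TopologicalSpace X] [ChartedSpace ℂ X] : Prop :=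
  T2Space X ∧ SecondCountableTopology X ∧ ConnectedSpace X ∧ NoncompactSpace X ∧
    IsManifold 𝓘(ℂ) ω X

/-- holomorphic functions on `X` -/
def Holo (f : X → ℂ) : Prop := MDifferentiable 𝓘(ℂ) 𝓘(ℂ) f

/-- `φ` is a proper holomorphic map of `X` to the open unit disc: the preimages of the compact
subsets of the disc are compact. -/
def ProperToDisc (φ : X → ℂ) : Prop :=
  Holo φ ∧ (∀ x, ‖φ x‖ < 1) ∧
    ∀ K : Set ℂ, K ⊆ Metric.ball 0 1 → IsCompact K → IsCompact (φ ⁻¹' K)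

/-- the zeros of the differential of `φ` -/
def Branch (φ : X → ℂ) : Set X := {x | mfderiv 𝓘(ℂ) 𝓘(ℂ) φ x = 0}

/-- `φ` has exactly two zeros, and they are simple -/
def TwoSimpleZeros (φ : X → ℂ) : Prop :=
  ∃ x y : X, x ≠ y ∧ (∀ z, φ z = 0 ↔ z = x ∨ z = y) ∧ x ∉ Branch φ ∧ y ∉ Branch φ

/-- `B` is the Blaschke product with simple zeros exactly at the traces of the branch points -/
def IsTraceProduct (φ : X → ℂ) (B : ℂ → ℂ) : Prop :=
  ∃ (ι : Type) (α : ι → ℂ), Function.Injective α ∧ range α = φ '' Branch φ ∧ IsBlaschkeWith α 1 B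

/-- quasi-proper maps of `X` to the disc; the suprema are taken in `[0, ∞]` -/
def IsQuasiProper (θ : X → ℂ) : Prop :=
  Holo θ ∧ (∀ x, ‖θ x‖ < 1) ∧ ∀ f : X → ℂ, Holo f → ⨆ x, ‖f x‖ₑ = ⨆ x, ‖θ x * f x‖ₑ

/-- type (i) -/
def TypeOne (φ : X → ℂ) (ℓ : X → ℂ) : Prop :=
  ∃ b : ℂ → ℂ, IsBlaschke b ∧ ∀ x, ℓ x = b (φ x)

/-- type (iii): `b ∘ ((u ∘ φ) ϑ)` with `b` a Blaschke product with zeros `α i`, with `u` inner,
provided that `b^* (u ^ 2 B)` is a Blaschke product, where `b^*` is the Blaschke product whose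
zeros are the squares `(α i) ^ 2` -/
def TypeThree (φ ϑ : X → ℂ) (B : ℂ → ℂ) (ℓ : X → ℂ) : Prop :=
  ∃ (ι : Type) (α : ι → ℂ) (c : ℂ) (b u : ℂ → ℂ), IsBlaschkeWith α c b ∧ IsInner u ∧
    IsBlaschke (fun z => ∏' i, factor ((α i) ^ 2) (u z ^ 2 * B z)) ∧
    ∀ x, ℓ x = b (u (φ x) * ϑ x)

/-- the family `L` of the problem -/
def family (φ ϑ : X → ℂ) (B : ℂ → ℂ) : Set (X → ℂ) :=
  {ℓ | TypeOne φ ℓ ∨ ℓ = ϑ ∨ TypeThree φ ϑ B ℓ}

/-- `θ` is, up to a unimodular constant, the product of finitely many members of `L`. -/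
def IsFiniteProduct (L : Set (X → ℂ)) (θ : X → ℂ) : Prop :=
  ∃ (n : ℕ) (ℓ : ℕ → X → ℂ) (c : ℂ), (∀ j, j < n → ℓ j ∈ L) ∧ ‖c‖ = 1 ∧
    ∀ x, θ x = c * ∏ j ∈ Finset.range n, ℓ j x

/-- `θ` is an infinite product of members of `L`, in a very weak sense: the partial products of a
sequence of members of `L`, multiplied by suitable unimodular constants, tend to `θ` pointwise. -/
def IsInfiniteProduct (L : Set (X → ℂ)) (θ : X → ℂ) : Prop :=
  ∃ (ℓ : ℕ → X → ℂ) (c : ℕ → ℂ), (∀ j, ℓ j ∈ L) ∧ (∀ n, ‖c n‖ = 1) ∧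
    ∀ x, Tendsto (fun n => c n * ∏ j ∈ Finset.range n, ℓ j x) atTop (𝓝 (θ x))

end

end Pool.Agent.Helper710.QuasiProper
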