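import Pool.Agent.Helper710.QPCore

set_option autoImplicit false

namespace Pool.Agent.Helper710.QuasiProper

open Filter Topology Set Complex ComplexConjugate

/-! ### The Riemann surface `w ^ 2 = B z` -/

open scoped Manifold ContDiff

/-- the two-sheeted covering of the disc branched over the zeros of `BB` -/
def XX : Type := {p : ℂ × ℂ // ‖p.1‖ < 1 ∧ p.2^2 = BB p.1}

instance : TopologicalSpace XX :=
  inferInstanceAs (TopologicalSpace {p : ℂ × ℂ // ‖p.1‖ < 1 ∧ p.2^2 = BB p.1})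

instance : T2Space XX :=
  inferInstanceAs (T2Space {p : ℂ × ℂ // ‖p.1‖ < 1 ∧ p.2^2 = BB p.1})

instance : SecondCountableTopology XX :=
  inferInstanceAs (SecondCountableTopology {p : ℂ × ℂ // ‖p.1‖ < 1 ∧ p.2^2 = BB p.1})

/-- linear equivalence for the inverse function theorem -/
noncomputable def lin1 (c d : ℂ) (hd : d ≠ 0) : (ℂ × ℂ) ≃ₗ[ℂ] (ℂ × ℂ) where
  toFun p := (p.1, d * p.2 - c * p.1)
  invFun p := (p.1, (p.2 + c * p.1) / d)
  map_add' p q := by ext <;> simp; ring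
  map_smul' r p := by ext <;> simp; ring
  left_inv p := by ext <;> simp [hd]
  right_inv p := by
    ext
    · simp
    · simp only; field_simp; ring

/-- linear equivalence for the inverse function theorem -/
noncomputable def lin2 (c d : ℂ) (hc : c ≠ 0) : (ℂ × ℂ) ≃ₗ[ℂ] (ℂ × ℂ) where
  toFun p := (p.2, d * p.2 - c * p.1)
  invFun p := ((d * p.1 - p.2) / c, p.1)
  map_add' p q := by ext <;> simp; ring
  map_smul' r p := by ext <;> simp; ring
  left_inv p := by
    ext
    · simp only; field_simp; ring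
    · simp
  right_inv p := by
    ext
    · simp
    · simp only; field_simp; ring

/-- a good local coordinate system of the plane at a point of the surface -/
structure GoodChart (x : XX) where
  e : OpenPartialHomeomorph (ℂ × ℂ) (ℂ × ℂ)
  mem : x.1 ∈ e.source
  dom : ∀ p ∈ e.source, ‖p.1‖ < 1
  snd : ∀ p ∈ e.source, (e p).2 = p.2^2 - BB p.1
  fst : (∀ p ∈ e.source, (e p).1 = p.1) ∨ (∀ p ∈ e.source, (e p).1 = p.2)
  smooth : ContDiffOn ℂ ω e.symm e.target

lemma BB_analyticAt {z : ℂ} (hz : ‖z‖ < 1) : AnalyticAt ℂ BB z :=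
  (BB_differentiableOn.analyticOnNhd Metric.isOpen_ball) z (by simpa using hz)

lemma contDiffAt_F {p : ℂ × ℂ} (hp : ‖p.1‖ < 1) :
    ContDiffAt ℂ ω (fun q : ℂ × ℂ => q.2^2 - BB q.1) p := by
  apply ContDiffAt.sub
  · exact contDiffAt_snd.pow 2
  · exact (BB_analyticAt hp).contDiffAt.comp p contDiffAt_fst

lemma hasFDerivAt_F {p : ℂ × ℂ} (hp : ‖p.1‖ < 1) :
    HasFDerivAt (fun q : ℂ × ℂ => q.2^2 - BB q.1)
      ((2 * p.2) • (ContinuousLinearMap.snd ℂ ℂ ℂ) -
        (deriv BB p.1) • (ContinuousLinearMap.fst ℂ ℂ ℂ)) p := by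
  apply HasFDerivAt.sub
  · have h := (hasFDerivAt_snd (𝕜 := ℂ) (p := p) (E := ℂ) (F := ℂ)).pow 2
    refine h.congr_fderiv ?_
    ext <;> simp
  · have h1 := (BB_analyticAt hp).differentiableAt.hasDerivAt
    have h2 := h1.comp_hasFDerivAt p (hasFDerivAt_fst (𝕜 := ℂ) (p := p) (E := ℂ) (F := ℂ))
    exact h2

theorem exists_goodChart (x : XX) : Nonempty (GoodChart x) := by
  have hx := x.2.1
  have hopen : IsOpen {p : ℂ × ℂ | ‖p.1‖ < 1} := isOpen_lt (continuous_fst.norm) continuous_const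
  by_cases hw : x.1.2 = 0
  · -- branch point
    have hB0 : BB x.1.1 = 0 := by rw [← x.2.2, hw]; ring
    have hder0 : deriv BB x.1.1 ≠ 0 := by
      by_cases hz : ∃ n, x.1.1 = za n
      · obtain ⟨n, hn⟩ := hz
        rw [hn]; exact deriv_BB_ne_zero n
      · push Not at hz
        exact absurd hB0 (BB_ne_zero hx hz)
    let f : ℂ × ℂ → ℂ × ℂ := fun q => (q.2, q.2^2 - BB q.1)
    have hf : ∀ p : ℂ × ℂ, ‖p.1‖ < 1 → ContDiffAt ℂ ω f p := fun p hp =>
      contDiffAt_snd.prodMk (contDiffAt_F hp)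
    have hf' : ∀ (p : ℂ × ℂ) (_ : ‖p.1‖ < 1) (hc : deriv BB p.1 ≠ 0),
        HasFDerivAt f ((lin2 (deriv BB p.1) (2 * p.2) hc).toContinuousLinearEquiv :
          (ℂ × ℂ) →L[ℂ] (ℂ × ℂ)) p := by
      intro p hp hc
      have h := (hasFDerivAt_snd (𝕜 := ℂ) (p := p) (E := ℂ) (F := ℂ)).prodMk (hasFDerivAt_F hp)
      refine h.congr_fderiv ?_
      ext <;> simp [lin2]
    let e₀ := (hf x.1 hx).toOpenPartialHomeomorph f (hf' x.1 hx hder0) (by simp)
    have hU : IsOpen {p : ℂ × ℂ | ‖p.1‖ < 1 ∧ deriv BB p.1 ≠ 0} := by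
      have h1 : ContinuousOn (fun p : ℂ × ℂ => deriv BB p.1) {p : ℂ × ℂ | ‖p.1‖ < 1} := by
        apply ContinuousOn.comp (g := deriv BB) (f := Prod.fst) (t := Metric.ball (0:ℂ) 1)
        · exact (BB_differentiableOn.analyticOnNhd Metric.isOpen_ball).deriv.continuousOn
        · exact continuous_fst.continuousOn
        · intro p hp; simpa using hp
      exact h1.isOpen_inter_preimage hopen isOpen_compl_singleton
    let e := e₀.restrOpen _ hU
    have hsrc : ∀ p ∈ e.source, ‖p.1‖ < 1 ∧ deriv BB p.1 ≠ 0 := fun p hp => hp.2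
    have he : ∀ p, e p = f p := fun p => rfl
    refine ⟨⟨e, ⟨?_, ?_⟩, fun p hp => (hsrc p hp).1, fun p _ => rfl, Or.inr fun p _ => rfl, ?_⟩⟩
    · exact ContDiffAt.mem_toOpenPartialHomeomorph_source _ _ _
    · exact ⟨hx, hder0⟩
    · intro t ht
      apply ContDiffAt.contDiffWithinAt
      have h1 := hsrc _ (e.map_target ht)
      exact e.contDiffAt_symm ht (hf' _ h1.1 h1.2) (hf _ h1.1)
  · -- unbranched point
    let f : ℂ × ℂ → ℂ × ℂ := fun q => (q.1, q.2^2 - BB q.1)
    have hf : ∀ p : ℂ × ℂ, ‖p.1‖ < 1 → ContDiffAt ℂ ω f p := fun p hp =>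
      contDiffAt_fst.prodMk (contDiffAt_F hp)
    have hf' : ∀ (p : ℂ × ℂ) (_ : ‖p.1‖ < 1) (hc : 2 * p.2 ≠ 0),
        HasFDerivAt f ((lin1 (deriv BB p.1) (2 * p.2) hc).toContinuousLinearEquiv :
          (ℂ × ℂ) →L[ℂ] (ℂ × ℂ)) p := by
      intro p hp hc
      have h := (hasFDerivAt_fst (𝕜 := ℂ) (p := p) (E := ℂ) (F := ℂ)).prodMk (hasFDerivAt_F hp)
      refine h.congr_fderiv ?_
      ext <;> simp [lin1]
    have hw2 : 2 * x.1.2 ≠ 0 := mul_ne_zero two_ne_zero hw
    let e₀ := (hf x.1 hx).toOpenPartialHomeomorph f (hf' x.1 hx hw2) (by simp)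
    have hU : IsOpen {p : ℂ × ℂ | ‖p.1‖ < 1 ∧ 2 * p.2 ≠ 0} := by
      have h1 : IsOpen {p : ℂ × ℂ | 2 * p.2 ≠ 0} :=
        isOpen_ne_fun (by fun_prop) continuous_const
      exact hopen.inter h1
    let e := e₀.restrOpen _ hU
    have hsrc : ∀ p ∈ e.source, ‖p.1‖ < 1 ∧ 2 * p.2 ≠ 0 := fun p hp => hp.2
    refine ⟨⟨e, ⟨?_, ?_⟩, fun p hp => (hsrc p hp).1, fun p _ => rfl, Or.inl fun p _ => rfl, ?_⟩⟩
    · exact ContDiffAt.mem_toOpenPartialHomeomorph_source _ _ _
    · exact ⟨hx, hw2⟩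
    · intro t ht
      apply ContDiffAt.contDiffWithinAt
      have h1 := hsrc _ (e.map_target ht)
      exact e.contDiffAt_symm ht (hf' _ h1.1 h1.2) (hf _ h1.1)


/-- a chosen good chart at each point -/
noncomputable def goodChart (x : XX) : GoodChart x := (exists_goodChart x).some

lemma symm_mem (x : XX) {t : ℂ} (ht : (t, (0:ℂ)) ∈ (goodChart x).e.target) :
    ‖((goodChart x).e.symm (t, 0)).1‖ < 1 ∧
      ((goodChart x).e.symm (t, 0)).2 ^ 2 = BB ((goodChart x).e.symm (t, 0)).1 := by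
  have h1 := (goodChart x).e.map_target ht
  refine ⟨(goodChart x).dom _ h1, ?_⟩
  have h2 := (goodChart x).snd _ h1
  rw [(goodChart x).e.right_inv ht] at h2
  simp only at h2
  exact (sub_eq_zero.1 h2.symm)

/-- a point of the surface from its coordinates -/
def mkX (p : ℂ × ℂ) (h : ‖p.1‖ < 1 ∧ p.2^2 = BB p.1) : XX := Subtype.mk p h

lemma mkX_val (p : ℂ × ℂ) (h : ‖p.1‖ < 1 ∧ p.2^2 = BB p.1) : (mkX p h).1 = p := rfl

open Classical in
/-- the inverse of the local coordinate on the surface -/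
noncomputable def chartInv (x : XX) (t : ℂ) : XX :=
  if h : (t, (0:ℂ)) ∈ (goodChart x).e.target then
    mkX ((goodChart x).e.symm (t, 0)) (symm_mem x h) else x

lemma chartInv_val (x : XX) {t : ℂ} (ht : (t, (0:ℂ)) ∈ (goodChart x).e.target) :
    (chartInv x t).1 = (goodChart x).e.symm (t, 0) := by
  unfold chartInv
  rw [dif_pos ht, mkX_val]

lemma e_val (x y : XX) (hy : y.1 ∈ (goodChart x).e.source) :
    (goodChart x).e y.1 = (((goodChart x).e y.1).1, 0) := by
  have h := (goodChart x).snd _ hy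
  rw [y.2.2, sub_self] at h
  exact Prod.ext rfl h

/-- the local coordinate at a point of the surface -/
noncomputable def chartX (x : XX) : OpenPartialHomeomorph XX ℂ where
  toFun y := ((goodChart x).e y.1).1
  invFun := chartInv x
  source := {y | y.1 ∈ (goodChart x).e.source}
  target := {t | (t, (0:ℂ)) ∈ (goodChart x).e.target}
  map_source' y hy := by
    have hy' : y.1 ∈ (goodChart x).e.source := hy
    show ((((goodChart x).e y.1).1 : ℂ), (0:ℂ)) ∈ (goodChart x).e.target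
    rw [← e_val x y hy']
    exact (goodChart x).e.map_source hy'
  map_target' t ht := by
    have ht' : (t, (0:ℂ)) ∈ (goodChart x).e.target := ht
    show (chartInv x t).1 ∈ (goodChart x).e.source
    rw [chartInv_val x ht']
    exact (goodChart x).e.map_target ht'
  left_inv' y hy := by
    have hy' : y.1 ∈ (goodChart x).e.source := hy
    have h2 : ((((goodChart x).e y.1).1 : ℂ), (0:ℂ)) ∈ (goodChart x).e.target := by
      rw [← e_val x y hy']
      exact (goodChart x).e.map_source hy'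
    apply Subtype.ext
    rw [chartInv_val x h2, ← e_val x y hy']
    exact (goodChart x).e.left_inv hy'
  right_inv' t ht := by
    have ht' : (t, (0:ℂ)) ∈ (goodChart x).e.target := ht
    show ((goodChart x).e (chartInv x t).1).1 = t
    rw [chartInv_val x ht', (goodChart x).e.right_inv ht']
  open_source := (goodChart x).e.open_source.preimage continuous_subtype_val
  open_target := (goodChart x).e.open_target.preimage (by fun_prop)
  continuousOn_toFun := by
    have h1 : ContinuousOn (fun p : ℂ × ℂ => ((goodChart x).e p).1) (goodChart x).e.source :=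
      continuous_fst.comp_continuousOn (goodChart x).e.continuousOn
    exact h1.comp continuous_subtype_val.continuousOn (fun y hy => hy)
  continuousOn_invFun := by
    have h0 : IsInducing (fun y : XX => y.1) := IsInducing.subtypeVal
    rw [h0.continuousOn_iff]
    have h1 : ContinuousOn (fun t : ℂ => (goodChart x).e.symm (t, 0))
        {t | (t, (0:ℂ)) ∈ (goodChart x).e.target} :=
      (goodChart x).e.continuousOn_symm.comp (by fun_prop) (fun t ht => ht)
    refine h1.congr ?_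
    intro t ht
    exact chartInv_val x ht

noncomputable instance : ChartedSpace ℂ XX where
  atlas := Set.range chartX
  chartAt := chartX
  mem_chart_source x := (goodChart x).mem
  chart_mem_atlas x := ⟨x, rfl⟩

instance : IsManifold 𝓘(ℂ) ω XX := by
  apply isManifold_of_contDiffOn
  rintro _ _ ⟨x, rfl⟩ ⟨y, rfl⟩
  have h1 : ContDiffOn ℂ ω (fun t : ℂ => (goodChart x).e.symm (t, 0))
      {t | (t, (0:ℂ)) ∈ (goodChart x).e.target} := by
    apply (goodChart x).smooth.comp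
    · exact (contDiff_id.prodMk contDiff_const).contDiffOn
    · intro t ht; exact ht
  have h2 : ∀ t ∈ ((chartX x).symm ≫ₕ chartX y).source, (t, (0:ℂ)) ∈ (goodChart x).e.target ∧
      (goodChart x).e.symm (t, 0) ∈ (goodChart y).e.source := by
    intro t ht
    rw [OpenPartialHomeomorph.trans_source] at ht
    have ha : (t, (0:ℂ)) ∈ (goodChart x).e.target := ht.1
    refine ⟨ha, ?_⟩
    have hb : (chartInv x t).1 ∈ (goodChart y).e.source := ht.2
    rwa [chartInv_val x ha] at hb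
  have h3 : ∀ t ∈ ((chartX x).symm ≫ₕ chartX y).source, ((chartX x).symm ≫ₕ chartX y) t =
      ((goodChart y).e ((goodChart x).e.symm (t, 0))).1 := by
    intro t ht
    show ((goodChart y).e (chartInv x t).1).1 = _
    rw [chartInv_val x (h2 t ht).1]
  simp only [modelWithCornersSelf_coe, modelWithCornersSelf_coe_symm, Function.comp_id,
    Function.id_comp, preimage_id, range_id, inter_univ]
  rcases (goodChart y).fst with hc | hc
  · refine ContDiffOn.congr (f := fun t => ((goodChart x).e.symm (t, 0)).1) ?_ ?_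
    · exact contDiff_fst.comp_contDiffOn (h1.mono fun t ht => (h2 t ht).1)
    · intro t ht
      rw [h3 t ht, hc _ (h2 t ht).2]
  · refine ContDiffOn.congr (f := fun t => ((goodChart x).e.symm (t, 0)).2) ?_ ?_
    · exact contDiff_snd.comp_contDiffOn (h1.mono fun t ht => (h2 t ht).1)
    · intro t ht
      rw [h3 t ht, hc _ (h2 t ht).2]


/-- the projection to the disc -/
def phi (x : XX) : ℂ := x.1.1

/-- the square root of `BB ∘ phi` -/
def vth (x : XX) : ℂ := x.1.2

lemma phi_lt (x : XX) : ‖phi x‖ < 1 := x.2.1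

lemma vth_sq (x : XX) : vth x ^ 2 = BB (phi x) := x.2.2

lemma phi_mkX (p : ℂ × ℂ) (h) : phi (mkX p h) = p.1 := rfl

lemma vth_mkX (p : ℂ × ℂ) (h) : vth (mkX p h) = p.2 := rfl

lemma ext_XX {x y : XX} (h1 : phi x = phi y) (h2 : vth x = vth y) : x = y :=
  Subtype.ext (Prod.ext h1 h2)

lemma vth_lt (x : XX) : ‖vth x‖ < 1 := by
  have h := congrArg norm (vth_sq x)
  rw [norm_pow] at h
  have h2 := norm_BB_lt (phi_lt x)
  rw [← h] at h2
  exact lt_of_pow_lt_pow_left₀ 2 (by norm_num) (by simpa using h2)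

lemma continuous_phi : Continuous phi := continuous_fst.comp continuous_subtype_val

lemma continuous_vth : Continuous vth := continuous_snd.comp continuous_subtype_val

lemma contMDiff_aux (f : ℂ × ℂ → ℂ) (hf : ContDiff ℂ ω f) (x : XX) :
    ContMDiffAt 𝓘(ℂ) 𝓘(ℂ) ω (fun y : XX => f y.1) x := by
  rw [contMDiffAt_iff]
  constructor
  · exact (hf.continuous.comp continuous_subtype_val).continuousAt
  · have hx : x ∈ (chartX x).source := (goodChart x).mem
    have ht : chartX x x ∈ (chartX x).target := (chartX x).map_source hx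
    have h1 : ContDiffOn ℂ ω (fun t : ℂ => f ((goodChart x).e.symm (t, 0)))
      {t | (t, (0:ℂ)) ∈ (goodChart x).e.target} := by
      apply hf.comp_contDiffOn
      apply (goodChart x).smooth.comp
      · exact (contDiff_id.prodMk contDiff_const).contDiffOn
      · intro t ht; exact ht
    have hopen : IsOpen {t : ℂ | (t, (0:ℂ)) ∈ (goodChart x).e.target} := (chartX x).open_target
    have h2 := h1.contDiffAt (hopen.mem_nhds ht)
    apply ContDiffAt.contDiffWithinAt
    refine h2.congr_of_eventuallyEq ?_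
    filter_upwards [hopen.mem_nhds ht] with t ht'
    show f (chartInv x t).1 = _
    rw [chartInv_val x ht']

lemma mdiff_aux (f : ℂ × ℂ → ℂ) (hf : ContDiff ℂ ω f) :
    MDifferentiable 𝓘(ℂ) 𝓘(ℂ) (fun y : XX => f y.1) := fun x =>
  (contMDiff_aux f hf x).mdifferentiableAt (by simp)

lemma mdiff_phi : MDifferentiable 𝓘(ℂ) 𝓘(ℂ) phi := mdiff_aux Prod.fst contDiff_fst

lemma mdiff_vth : MDifferentiable 𝓘(ℂ) 𝓘(ℂ) vth := mdiff_aux Prod.snd contDiff_snd

/-- the derivative as a linear map of the plane -/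
noncomputable def dd (f : XX → ℂ) (x : XX) : ℂ →L[ℂ] ℂ := mfderiv 𝓘(ℂ) 𝓘(ℂ) f x

lemma chartX_mem_atlas (x : XX) : chartX x ∈ atlas ℂ XX := ⟨x, rfl⟩

lemma mfderiv_ne (x : XX) :
    mfderiv 𝓘(ℂ) 𝓘(ℂ) phi x ≠ 0 ∨ mfderiv 𝓘(ℂ) 𝓘(ℂ) vth x ≠ 0 := by
  have hx : x ∈ (chartX x).source := (goodChart x).mem
  have hmd := mdifferentiable_of_mem_atlas (I := 𝓘(ℂ)) (chartX_mem_atlas x)
  have hinj : Function.Injective (mfderiv 𝓘(ℂ) 𝓘(ℂ) (chartX x) x) := hmd.mfderiv_injective hx
  have key : ∀ f : XX → ℂ, (∀ y ∈ (chartX x).source, chartX x y = f y) →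
      mfderiv 𝓘(ℂ) 𝓘(ℂ) f x ≠ 0 := by
    intro f hf h0
    have h1 : (chartX x : XX → ℂ) =ᶠ[𝓝 x] f := by
      filter_upwards [(chartX x).open_source.mem_nhds hx] with y hy using hf y hy
    have h2 := h1.mfderiv_eq (I := 𝓘(ℂ)) (I' := 𝓘(ℂ))
    have h3 : ∀ v : ℂ, (dd (chartX x) x) v = 0 := by
      intro v
      have := congrArg (fun L : ℂ →L[ℂ] ℂ => L v) (h2.trans h0)
      exact this
    have h4 : (1 : ℂ) = 0 := hinj ((h3 1).trans (h3 0).symm)
    exact one_ne_zero h4
  rcases (goodChart x).fst with hc | hc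
  · left
    exact key phi fun y hy => hc _ hy
  · right
    exact key vth fun y hy => hc _ hy

lemma mfderiv_rel (x : XX) (v : ℂ) :
    dd vth x v * (2 * vth x) = dd phi x v * deriv BB (phi x) := by
  have h1 := (mdiff_phi x).hasMFDerivAt
  have h2 := (mdiff_vth x).hasMFDerivAt
  have hB := (BB_analyticAt (phi_lt x)).differentiableAt.hasDerivAt.hasFDerivAt.hasMFDerivAt
  have hS := (hasDerivAt_pow 2 (vth x)).hasFDerivAt.hasMFDerivAt
  have h3 := hB.comp x h1
  have h4 := hS.comp x h2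
  have h5 : (fun w : ℂ => w ^ 2) ∘ vth = BB ∘ phi := by
    funext y; exact vth_sq y
  rw [h5] at h4
  have h6 := hasMFDerivAt_unique h4 h3
  have h7 := congrArg (fun L : ℂ →L[ℂ] ℂ => L v) h6
  have h8 : dd vth x v * (((2:ℕ) : ℂ) * vth x ^ (2-1)) = dd phi x v * deriv BB (phi x) := h7
  simpa using h8

lemma mfderiv_phi_eq_zero_iff (x : XX) : mfderiv 𝓘(ℂ) 𝓘(ℂ) phi x = 0 ↔ vth x = 0 := by
  constructor
  · intro h
    by_contra hne
    have h1 : mfderiv 𝓘(ℂ) 𝓘(ℂ) vth x = 0 := by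
      apply ContinuousLinearMap.ext
      intro v
      have h2 := mfderiv_rel x v
      have h' : dd phi x = 0 := h
      have h3 : dd vth x v * (2 * vth x) = 0 := by
        rw [h2, h']; exact zero_mul _
      rcases mul_eq_zero.1 h3 with h4 | h4
      · exact h4
      · exact absurd h4 (mul_ne_zero two_ne_zero hne)
    rcases mfderiv_ne x with h2 | h2
    · exact h2 h
    · exact h2 h1
  · intro h
    have hB0 : BB (phi x) = 0 := by rw [← vth_sq x, h]; ring
    have hder0 : deriv BB (phi x) ≠ 0 := by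
      by_cases hz : ∃ n, phi x = za n
      · obtain ⟨n, hn⟩ := hz
        rw [hn]; exact deriv_BB_ne_zero n
      · push Not at hz
        exact absurd hB0 (BB_ne_zero (phi_lt x) hz)
    apply ContinuousLinearMap.ext
    intro v
    have h2 := mfderiv_rel x v
    have h3 : dd phi x v * deriv BB (phi x) = 0 := by
      rw [← h2, h]; simp
    rcases mul_eq_zero.1 h3 with h4 | h4
    · exact h4
    · exact absurd h4 hder0

/-- the branch points -/
noncomputable def br (n : ℕ) : XX := mkX ((za n : ℂ), 0) ⟨norm_za_lt n, by simp [BB_za]⟩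

lemma phi_br (n : ℕ) : phi (br n) = za n := rfl

lemma vth_br (n : ℕ) : vth (br n) = 0 := rfl

lemma vth_eq_zero_iff (x : XX) : vth x = 0 ↔ ∃ n, x = br n := by
  constructor
  · intro h
    have hB0 : BB (phi x) = 0 := by rw [← vth_sq x, h]; ring
    by_cases hz : ∃ n, phi x = za n
    · obtain ⟨n, hn⟩ := hz
      exact ⟨n, ext_XX hn h⟩
    · push Not at hz
      exact absurd hB0 (BB_ne_zero (phi_lt x) hz)
  · rintro ⟨n, rfl⟩
    exact vth_br n

lemma br_injective : Function.Injective br := by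
  intro m n h
  have h1 := congrArg phi h
  rw [phi_br, phi_br] at h1
  exact za_injective (by exact_mod_cast h1)

lemma exists_sqrt (z : ℂ) : ∃ w : ℂ, w ^ 2 = z :=
  IsAlgClosed.exists_pow_nat_eq z (by norm_num)

lemma phi_surj {z : ℂ} (hz : ‖z‖ < 1) : ∃ x, phi x = z := by
  obtain ⟨w, hw⟩ := exists_sqrt (BB z)
  exact ⟨mkX (z, w) ⟨hz, hw⟩, rfl⟩

lemma isCompact_preimage {K : Set ℂ} (hK : IsCompact K) (hK1 : K ⊆ Metric.ball 0 1) :
    IsCompact (phi ⁻¹' K) := by
  have hind : IsInducing (fun y : XX => y.1) := IsInducing.subtypeVal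
  rw [hind.isCompact_iff]
  have hcomp : IsCompact (K ×ˢ Metric.closedBall (0:ℂ) 1) :=
    hK.prod (isCompact_closedBall _ _)
  have himg : (fun y : XX => y.1) '' (phi ⁻¹' K) =
      (K ×ˢ Metric.closedBall (0:ℂ) 1) ∩ (fun p : ℂ × ℂ => p.2^2 - BB p.1) ⁻¹' {0} := by
    ext p
    constructor
    · rintro ⟨y, hy, rfl⟩
      refine ⟨⟨hy, ?_⟩, ?_⟩
      · have h5 : ‖y.1.2‖ ≤ 1 := (vth_lt y).le
        simpa using h5
      · show vth y ^ 2 - BB (phi y) = 0
        rw [vth_sq, sub_self]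
    · rintro ⟨⟨h1, _⟩, h2⟩
      have h3 : ‖p.1‖ < 1 := by simpa using hK1 h1
      exact ⟨mkX p ⟨h3, sub_eq_zero.1 h2⟩, h1, rfl⟩
  rw [himg]
  apply hcomp.of_isClosed_subset _ inter_subset_left
  have hc : ContinuousOn (fun p : ℂ × ℂ => p.2^2 - BB p.1) (K ×ˢ Metric.closedBall (0:ℂ) 1) := by
    apply ContinuousOn.sub (by fun_prop)
    exact BB_differentiableOn.continuousOn.comp continuous_fst.continuousOn
      (fun p hp => hK1 hp.1)
  exact hc.preimage_isClosed_of_isClosed hcomp.isClosed isClosed_singleton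


/-- near a point there are nearby points over nearby values, in a uniform way -/
lemma exists_near (x : XX) {U : Set XX} (hU : U ∈ 𝓝 x) :
    ∃ ε > 0, ∀ y : XX, ‖phi y - phi x‖ < ε → ‖vth y - vth x‖ < ε → y ∈ U := by
  have hind : IsInducing (fun y : XX => y.1) := IsInducing.subtypeVal
  rw [hind.nhds_eq_comap, mem_comap] at hU
  obtain ⟨V, hV, hVU⟩ := hU
  obtain ⟨ε, hε, hb⟩ := Metric.mem_nhds_iff.1 hV
  refine ⟨ε, hε, fun y h1 h2 => hVU (hb ?_)⟩
  rw [Metric.mem_ball, dist_eq_norm, Prod.norm_def]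
  exact max_lt h1 h2

lemma root_near {w w' : ℂ} {ε : ℝ} (hε : 0 < ε) (h : ‖w'^2 - w^2‖ < ε^2) :
    ‖w' - w‖ < ε ∨ ‖w' - (-w)‖ < ε := by
  by_contra hcon
  push Not at hcon
  have h1 : w'^2 - w^2 = (w' - w) * (w' - (-w)) := by ring
  rw [h1, norm_mul] at h
  nlinarith [hcon.1, hcon.2]

lemma BB_continuousAt {z : ℂ} (hz : ‖z‖ < 1) : ContinuousAt BB z :=
  (BB_analyticAt hz).continuousAt

/-- the image of an open set is open -/
lemma isOpen_image_phi {C : Set XX} (hC : IsOpen C) : IsOpen (phi '' C) := by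
  rw [isOpen_iff_mem_nhds]
  rintro _ ⟨x, hx, rfl⟩
  obtain ⟨ε, hε, hb⟩ := exists_near x (hC.mem_nhds hx)
  have h1 : ∀ᶠ z in 𝓝 (phi x), ‖BB z - BB (phi x)‖ < ε^2 := by
    have := (BB_continuousAt (phi_lt x)).eventually (Metric.ball_mem_nhds _ (pow_pos hε 2))
    filter_upwards [this] with z hz
    simpa [dist_eq_norm] using hz
  have h2 : ∀ᶠ z in 𝓝 (phi x), ‖z - phi x‖ < ε := by
    filter_upwards [Metric.ball_mem_nhds (phi x) hε] with z hz
    simpa [dist_eq_norm] using hz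
  have h3 : ∀ᶠ z in 𝓝 (phi x), ‖z‖ < 1 := by
    have := (continuous_norm (E := ℂ)).isOpen_preimage _ isOpen_Iio |>.mem_nhds (phi_lt x)
    exact this
  filter_upwards [h1, h2, h3] with z hz1 hz2 hz3
  obtain ⟨w, hw⟩ := exists_sqrt (BB z)
  rw [← hw, ← vth_sq x] at hz1
  rcases root_near hε hz1 with h | h
  · exact ⟨mkX (z, w) ⟨hz3, hw⟩, hb _ hz2 h, rfl⟩
  · refine ⟨mkX (z, -w) ⟨hz3, by rw [← hw]; ring⟩, hb _ hz2 ?_, rfl⟩
    rw [vth_mkX]
    rw [← norm_neg]
    have h5 : -(-w - vth x) = w - (-vth x) := by ring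
    rw [h5]
    exact h

/-- the sheet interchange -/
def sig (x : XX) : XX := mkX (phi x, - vth x) ⟨phi_lt x, by rw [neg_sq]; exact vth_sq x⟩

lemma phi_sig (x : XX) : phi (sig x) = phi x := rfl

lemma vth_sig (x : XX) : vth (sig x) = - vth x := rfl

lemma sig_br (n : ℕ) : sig (br n) = br n := by
  apply ext_XX
  · rfl
  · rw [vth_sig, vth_br, neg_zero]

lemma fibre {x y : XX} (h : phi x = phi y) : x = y ∨ x = sig y := by
  have h1 : vth x ^ 2 = vth y ^ 2 := by rw [vth_sq, vth_sq, h]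
  rcases sq_eq_sq_iff_eq_or_eq_neg.1 h1 with h2 | h2
  · exact Or.inl (ext_XX h h2)
  · exact Or.inr (ext_XX h h2)

lemma isOpen_compl_image {C : Set XX} (hC : IsClosed C) :
    IsOpen (Metric.ball (0:ℂ) 1 \ phi '' C) := by
  rw [isOpen_iff_mem_nhds]
  rintro z ⟨hz, hz'⟩
  have hz1 : ‖z‖ < 1 := by simpa using hz
  obtain ⟨x, rfl⟩ := phi_surj hz1
  have hx : x ∉ C := fun h => hz' ⟨x, h, rfl⟩
  have hsx : sig x ∉ C := fun h => hz' ⟨sig x, h, rfl⟩
  obtain ⟨ε, hε, hb⟩ := exists_near x (hC.isOpen_compl.mem_nhds hx)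
  obtain ⟨δ, hδ, hb'⟩ := exists_near (sig x) (hC.isOpen_compl.mem_nhds hsx)
  have hm : 0 < min ε δ := lt_min hε hδ
  have h1 : ∀ᶠ z in 𝓝 (phi x), ‖BB z - BB (phi x)‖ < (min ε δ)^2 := by
    have := (BB_continuousAt (phi_lt x)).eventually (Metric.ball_mem_nhds _ (pow_pos hm 2))
    filter_upwards [this] with z hz
    simpa [dist_eq_norm] using hz
  have h2 : ∀ᶠ z in 𝓝 (phi x), ‖z - phi x‖ < min ε δ := by
    filter_upwards [Metric.ball_mem_nhds (phi x) hm] with z hz
    simpa [dist_eq_norm] using hz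
  filter_upwards [h1, h2, Metric.isOpen_ball.mem_nhds hz] with z' hz1 hz2 hz3
  refine ⟨hz3, ?_⟩
  rintro ⟨y, hy, rfl⟩
  rw [← vth_sq y, ← vth_sq x] at hz1
  rcases root_near hm hz1 with h | h
  · exact hb y (hz2.trans_le (min_le_left _ _)) (h.trans_le (min_le_left _ _)) hy
  · exact hb' y (hz2.trans_le (min_le_right _ _)) (h.trans_le (min_le_right _ _)) hy

lemma image_eq_ball {C : Set XX} (hC : IsClopen C) (hne : C.Nonempty) :
    Metric.ball (0:ℂ) 1 ⊆ phi '' C := by
  have hpre : IsPreconnected (Metric.ball (0:ℂ) 1) := (convex_ball _ _).isPreconnected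
  apply hpre.subset_left_of_subset_union (isOpen_image_phi hC.isOpen) (isOpen_compl_image hC.isClosed)
  · exact disjoint_sdiff_right
  · intro z hz
    by_cases h : z ∈ phi '' C
    · exact Or.inl h
    · exact Or.inr ⟨hz, h⟩
  · obtain ⟨x, hx⟩ := hne
    exact ⟨phi x, by simpa using phi_lt x, x, hx, rfl⟩

instance : ConnectedSpace XX := by
  have : PreconnectedSpace XX := by
    rw [preconnectedSpace_iff_clopen]
    intro C hC
    by_contra hcon
    push Not at hcon
    obtain ⟨h1, h2⟩ := hcon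
    have h1' : C.Nonempty := h1
    have h2' : (Cᶜ).Nonempty := nonempty_compl.2 h2
    have h0 : (za 0 : ℂ) ∈ Metric.ball (0:ℂ) 1 := by simpa using norm_za_lt 0
    obtain ⟨x, hx, hx'⟩ := image_eq_ball hC h1' h0
    obtain ⟨y, hy, hy'⟩ := image_eq_ball hC.compl h2' h0
    have hxb : x = br 0 := by
      rcases fibre (hx'.trans (phi_br 0).symm) with h | h
      · exact h
      · rw [h, sig_br]
    have hyb : y = br 0 := by
      rcases fibre (hy'.trans (phi_br 0).symm) with h | h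
      · exact h
      · rw [h, sig_br]
    rw [hyb, ← hxb] at hy
    exact hy hx
  exact { toNonempty := ⟨br 0⟩ }

instance : NoncompactSpace XX := by
  rw [← not_compactSpace_iff]
  intro h
  have h1 : IsCompact (range phi) := isCompact_range continuous_phi
  have h2 : range phi = Metric.ball (0:ℂ) 1 := by
    ext z
    constructor
    · rintro ⟨x, rfl⟩
      simpa using phi_lt x
    · intro hz
      exact phi_surj (by simpa using hz)
  rw [h2] at h1
  have h3 := h1.isClosed.closure_eq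
  rw [closure_ball _ one_ne_zero] at h3
  have h4 : (1:ℂ) ∈ Metric.closedBall (0:ℂ) 1 := by simp
  rw [h3] at h4
  simp at h4

/-- there is a point over every value, in particular outside every compact piece -/
lemma exists_far (m : ℕ) : ∃ x, ‖phi x‖ = rad m := by
  have h1 : ‖((rad m : ℝ) : ℂ)‖ = rad m := by
    rw [Complex.norm_real, Real.norm_eq_abs, abs_of_pos (rad_pos m)]
  obtain ⟨x, hx⟩ := phi_surj (z := ((rad m : ℝ) : ℂ)) (by rw [h1]; exact rad_lt m)
  exact ⟨x, by rw [hx, h1]⟩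

/-- the maximum principle on the compact pieces of the surface -/
lemma max_principle {f : XX → ℂ} (hf : MDifferentiable 𝓘(ℂ) 𝓘(ℂ) f) {r : ℝ} (hr0 : 0 < r)
    (hr : r < 1) : ∃ y, ‖phi y‖ = r ∧ ∀ x, ‖phi x‖ ≤ r → ‖f x‖ ≤ ‖f y‖ := by
  have hball : Metric.closedBall (0:ℂ) r ⊆ Metric.ball 0 1 := Metric.closedBall_subset_ball hr
  have hK : IsCompact (phi ⁻¹' Metric.closedBall (0:ℂ) r) :=
    isCompact_preimage (isCompact_closedBall _ _) hball
  have hcont : Continuous f := hf.continuous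
  have hrr : ‖((r : ℝ) : ℂ)‖ = r := by
    rw [Complex.norm_real, Real.norm_eq_abs, abs_of_pos hr0]
  obtain ⟨x₁, hx₁⟩ := phi_surj (z := ((r : ℝ) : ℂ)) (by rw [hrr]; exact hr)
  have hne : (phi ⁻¹' Metric.closedBall (0:ℂ) r).Nonempty :=
    ⟨x₁, by simp [hx₁, abs_of_pos hr0]⟩
  obtain ⟨x₀, hx₀, hmax⟩ := hK.exists_isMaxOn hne hcont.norm.continuousOn
  have hmax' : ∀ x, ‖phi x‖ ≤ r → ‖f x‖ ≤ ‖f x₀‖ := by
    intro x hx
    exact hmax (by simpa using hx)
  by_contra hcon
  push Not at hcon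
  -- the set where the maximum is attained
  let C : Set XX := {x | ‖phi x‖ ≤ r ∧ ‖f x‖ = ‖f x₀‖}
  have hx₀' : ‖phi x₀‖ ≤ r := by simpa using hx₀
  have hlt : ∀ x ∈ C, ‖phi x‖ < r := by
    rintro x ⟨h1, h2⟩
    rcases h1.lt_or_eq with h | h
    · exact h
    · obtain ⟨y, hy, hy'⟩ := hcon x h
      rw [h2] at hy'
      exact absurd (hmax' y hy) (not_le.2 hy')
  have hclosed : IsClosed C := by
    apply IsClosed.inter
    · exact isClosed_le continuous_phi.norm continuous_const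
    · exact isClosed_eq hcont.norm continuous_const
  have hopen : IsOpen C := by
    rw [isOpen_iff_mem_nhds]
    intro x hx
    have hU : {y : XX | ‖phi y‖ < r} ∈ 𝓝 x :=
      (isOpen_lt continuous_phi.norm continuous_const).mem_nhds (hlt x hx)
    have hloc : IsLocalMax (norm ∘ f) x := by
      filter_upwards [hU] with y hy
      have h1 := hmax' y (le_of_lt hy)
      rw [← hx.2] at h1
      exact h1
    have h2 := Complex.norm_eventually_eq_of_mdifferentiableAt_of_isLocalMax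
      (Eventually.of_forall fun y => hf y) hloc
    filter_upwards [hU, h2] with y hy hy2
    exact ⟨le_of_lt hy, hy2.trans hx.2⟩
  have huniv : C = univ := by
    have hxC : x₀ ∈ C := ⟨hx₀', rfl⟩
    rcases isClopen_iff.1 ⟨hclosed, hopen⟩ with h | h
    · rw [h] at hxC
      exact absurd hxC (notMem_empty _)
    · exact h
  have h3 : x₁ ∈ C := by rw [huniv]; exact mem_univ _
  have h4 := hlt _ h3
  rw [hx₁, hrr] at h4
  exact lt_irrefl _ h4


/-- the rational function used below -/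
noncomputable def FF (z w : ℂ) : ℂ := (3 * z * w + (1 - z)) / (3 - w * (1 - z))

lemma norm_one_sub_le {z : ℂ} (hz : ‖z‖ < 1) : ‖1 - z‖ ≤ 2 := by
  refine (norm_sub_le _ _).trans ?_
  rw [norm_one]; linarith

lemma one_le_den {z w : ℂ} (hz : ‖z‖ < 1) (hw : ‖w‖ < 1) : 1 ≤ ‖3 - w * (1 - z)‖ := by
  have h1 : ‖w * (1 - z)‖ ≤ 2 := by
    rw [norm_mul]
    have := norm_one_sub_le hz
    nlinarith [norm_nonneg w, norm_nonneg (1 - z)]
  have h2 : ‖(3:ℂ)‖ - ‖w * (1 - z)‖ ≤ ‖3 - w * (1 - z)‖ := norm_sub_norm_le _ _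
  have h3 : ‖(3:ℂ)‖ = 3 := by simp
  linarith

lemma FF_den_ne {z w : ℂ} (hz : ‖z‖ < 1) (hw : ‖w‖ < 1) : 3 - w * (1 - z) ≠ 0 := by
  intro h
  have := one_le_den hz hw
  rw [h, norm_zero] at this
  linarith

/-- the basic identity -/
lemma FF_identity (z w : ℂ) :
    ‖3 - w * (1 - z)‖^2 - ‖3 * z * w + (1 - z)‖^2 =
      9 * (1 - ‖z‖^2 * ‖w‖^2) - 6 * (1 - ‖z‖^2) * w.re - ‖1 - z‖^2 * (1 - ‖w‖^2) := by
  simp only [Complex.sq_norm, Complex.normSq_apply]
  simp
  ring

lemma FF_norm_lt {z w : ℂ} (hz : ‖z‖ < 1) (hw : ‖w‖ < 1) : ‖FF z w‖ < 1 := by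
  have hd := one_le_den hz hw
  unfold FF
  rw [norm_div, div_lt_one (by linarith)]
  have hid := FF_identity z w
  have h1 : ‖1 - z‖^2 ≤ 4 := by
    have := norm_one_sub_le hz
    nlinarith [norm_nonneg (1 - z)]
  have hre : w.re ≤ ‖w‖ := Complex.re_le_norm w
  have hx : 0 < 1 - ‖z‖^2 := by nlinarith [norm_nonneg z]
  have hy : 0 < 1 - ‖w‖^2 := by nlinarith [norm_nonneg w]
  have h2 : (1 - ‖z‖^2) * w.re ≤ (1 - ‖z‖^2) * ‖w‖ := mul_le_mul_of_nonneg_left hre hx.le
  have h3 : ‖1 - z‖^2 * (1 - ‖w‖^2) ≤ 4 * (1 - ‖w‖^2) := mul_le_mul_of_nonneg_right h1 hy.le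
  have h4 : 0 < (1 - ‖z‖^2) * (9/2 * (1 + ‖w‖^2) - 6 * ‖w‖) := by
    apply mul_pos hx
    nlinarith [sq_nonneg (‖w‖ - 2/3)]
  have h5 : 0 ≤ (1 - ‖w‖^2) * (9/2 * (1 + ‖z‖^2) - 4) := by
    apply mul_nonneg hy.le
    nlinarith [sq_nonneg ‖z‖]
  have h6 : ‖3 * z * w + (1 - z)‖^2 < ‖3 - w * (1 - z)‖^2 := by nlinarith
  exact lt_of_pow_lt_pow_left₀ 2 (norm_nonneg _) h6

lemma FF_norm_ge {z w : ℂ} (hz : ‖z‖ < 1) (hw : ‖w‖ < 1) :
    1 - 15 * (1 - ‖z‖^2) - 9 * (1 - ‖w‖^2) ≤ ‖FF z w‖^2 := by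
  have hd := one_le_den hz hw
  have hd2 : 1 ≤ ‖3 - w * (1 - z)‖^2 := by nlinarith
  unfold FF
  rw [norm_div, div_pow]
  rw [le_div_iff₀ (by linarith)]
  have hid := FF_identity z w
  have hre : -‖w‖ ≤ w.re := by
    have := Complex.abs_re_le_norm w
    have h := neg_abs_le w.re
    linarith
  have hx : 0 < 1 - ‖z‖^2 := by nlinarith [norm_nonneg z]
  have hy : 0 < 1 - ‖w‖^2 := by nlinarith [norm_nonneg w]
  have h2 : (1 - ‖z‖^2) * (-w.re) ≤ (1 - ‖z‖^2) * 1 :=
    mul_le_mul_of_nonneg_left (by linarith) hx.le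
  have h3 : 0 ≤ ‖1 - z‖^2 * (1 - ‖w‖^2) := mul_nonneg (sq_nonneg _) hy.le
  set D := ‖3 - w * (1 - z)‖^2
  set N := ‖3 * z * w + (1 - z)‖^2
  have h4 : D - N ≤ 15 * (1 - ‖z‖^2) + 9 * (1 - ‖w‖^2) := by
    have h5 : ‖z‖^2 * ‖w‖^2 = ‖w‖^2 - (1 - ‖z‖^2) * ‖w‖^2 := by ring
    have h6 : (1 - ‖z‖^2) * ‖w‖^2 ≤ (1 - ‖z‖^2) * 1 :=
      mul_le_mul_of_nonneg_left (by linarith) hx.le
    nlinarith
  have h7 : 0 ≤ 15 * (1 - ‖z‖^2) + 9 * (1 - ‖w‖^2) := by linarith
  nlinarith

/-- the function of the counterexample -/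
noncomputable def theta (x : XX) : ℂ := FF (phi x) (vth x)

lemma theta_lt (x : XX) : ‖theta x‖ < 1 := FF_norm_lt (phi_lt x) (vth_lt x)

lemma mdiff_comp2 (F : ℂ × ℂ → ℂ) (x : XX) (hF : DifferentiableAt ℂ F (phi x, vth x)) :
    MDifferentiableAt 𝓘(ℂ) 𝓘(ℂ) (fun y => F (phi y, vth y)) x := by
  have h1 : MDifferentiableAt 𝓘(ℂ) 𝓘(ℂ, ℂ × ℂ) (fun y => (phi y, vth y)) x :=
    (mdiff_phi x).prodMk_space (mdiff_vth x)
  exact hF.mdifferentiableAt.comp x h1

lemma mdiff_theta : MDifferentiable 𝓘(ℂ) 𝓘(ℂ) theta := by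
  intro x
  apply mdiff_comp2 (fun p => FF p.1 p.2) x
  have h : ContDiffAt ℂ 1 (fun p : ℂ × ℂ => FF p.1 p.2) (phi x, vth x) := by
    unfold FF
    apply ContDiffAt.div
    · fun_prop
    · fun_prop
    · exact FF_den_ne (phi_lt x) (vth_lt x)
  exact h.differentiableAt (by norm_num)

lemma theta_norm_ge (m : ℕ) (x : XX) (hx : ‖phi x‖ = rad m) :
    1 - 15 * (1 - (rad m)^2) - 18 * (1/2)^m ≤ ‖theta x‖^2 := by
  have h1 := FF_norm_ge (phi_lt x) (vth_lt x)
  have h2 := norm_BB_ge m hx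
  have h3 : ‖vth x‖^2 = ‖BB (phi x)‖ := by rw [← norm_pow, vth_sq]
  rw [hx, h3] at h1
  unfold theta
  linarith

lemma theta_mul_sig (x : XX) : theta x * theta (sig x) = MM (phi x) := by
  unfold theta FF MM
  rw [phi_sig, vth_sig]
  have h1 := FF_den_ne (phi_lt x) (vth_lt x)
  have h2 : 3 - (-vth x) * (1 - phi x) ≠ 0 := FF_den_ne (phi_lt x) (by simpa using vth_lt x)
  have h3 := MM_den_ne_zero (phi_lt x)
  rw [div_mul_div_comm, div_eq_div_iff (mul_ne_zero h1 h2) h3, ← vth_sq x]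
  ring

/-- the definition of quasi-proper maps, for the surface at hand -/
lemma quasiProper_of_bound {θ : XX → ℂ} (hθ1 : ∀ x, ‖θ x‖ < 1) {c : ℕ → ℝ}
    (hc : Tendsto c atTop (𝓝 1)) (hbd : ∀ m x, ‖phi x‖ = rad m → c m ≤ ‖θ x‖^2)
    {f : XX → ℂ} (hf : MDifferentiable 𝓘(ℂ) 𝓘(ℂ) f) :
    ⨆ x, ‖f x‖ₑ = ⨆ x, ‖θ x * f x‖ₑ := by
  apply le_antisymm
  · apply iSup_le
    intro x
    by_cases htop : ⨆ x, ‖θ x * f x‖ₑ = ⊤
    · rw [htop]; exact le_top
    · set S := ⨆ x, ‖θ x * f x‖ₑ with hS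
      have hle : ∀ y, ‖θ y * f y‖ ≤ S.toReal := by
        intro y
        have h1 : ‖θ y * f y‖ₑ ≤ S := le_iSup (fun x => ‖θ x * f x‖ₑ) y
        rw [← toReal_enorm]
        exact ENNReal.toReal_mono htop h1
      have hS0 : 0 ≤ S.toReal := ENNReal.toReal_nonneg
      have hev : ∀ᶠ m in atTop, c m * ‖f x‖^2 ≤ S.toReal^2 := by
        have h1 : ∀ᶠ m in atTop, ‖phi x‖ < rad m := rad_tendsto.eventually (lt_mem_nhds (phi_lt x))
        have h2 : ∀ᶠ m in atTop, 0 < c m := hc.eventually (lt_mem_nhds (by norm_num))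
        filter_upwards [h1, h2] with m hm hcm
        obtain ⟨y, hy, hmax⟩ := max_principle hf (rad_pos m) (rad_lt m)
        have h3 := hmax x hm.le
        have h4 := hbd m y hy
        have h5 := hle y
        rw [norm_mul] at h5
        have h6 : (‖θ y‖ * ‖f y‖)^2 ≤ S.toReal^2 :=
          pow_le_pow_left₀ (by positivity) h5 2
        have h7 : ‖f x‖^2 ≤ ‖f y‖^2 := pow_le_pow_left₀ (norm_nonneg _) h3 2
        calc c m * ‖f x‖^2 ≤ ‖θ y‖^2 * ‖f y‖^2 := by
              apply mul_le_mul h4 h7 (sq_nonneg _) (sq_nonneg _)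
          _ = (‖θ y‖ * ‖f y‖)^2 := by ring
          _ ≤ _ := h6
      have hlim : Tendsto (fun m => c m * ‖f x‖^2) atTop (𝓝 (1 * ‖f x‖^2)) :=
        hc.mul_const _
      have h8 : 1 * ‖f x‖^2 ≤ S.toReal^2 := le_of_tendsto hlim hev
      rw [one_mul] at h8
      have h9 : ‖f x‖ ≤ S.toReal := le_of_sq_le_sq h8 hS0
      rw [← ofReal_norm]
      exact ENNReal.ofReal_le_of_le_toReal h9
  · apply iSup_mono
    intro x
    rw [← ofReal_norm, ← ofReal_norm]
    apply ENNReal.ofReal_le_ofReal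
    rw [norm_mul]
    have := hθ1 x
    nlinarith [norm_nonneg (f x)]

lemma theta_sup {f : XX → ℂ} (hf : MDifferentiable 𝓘(ℂ) 𝓘(ℂ) f) :
    ⨆ x, ‖f x‖ₑ = ⨆ x, ‖theta x * f x‖ₑ := by
  apply quasiProper_of_bound theta_lt (c := fun m => 1 - 15 * (1 - (rad m)^2) - 18 * (1/2)^m) _
    theta_norm_ge hf
  have h1 : Tendsto (fun m : ℕ => (1/2:ℝ)^m) atTop (𝓝 0) :=
    tendsto_pow_atTop_nhds_zero_of_lt_one (by norm_num) (by norm_num)
  have h2 : Tendsto (fun m => 1 - 15 * (1 - (rad m)^2) - 18 * (1/2:ℝ)^m) atTop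
      (𝓝 (1 - 15 * (1 - 1^2) - 18 * 0)) := by
    apply Tendsto.sub
    · apply Tendsto.const_sub
      apply Tendsto.const_mul
      apply Tendsto.const_sub
      exact rad_tendsto.pow 2
    · exact h1.const_mul _
  simpa using h2

open scoped Real

lemma norm_circle {r : ℝ} (hr : 0 ≤ r) (t : ℝ) : ‖(r : ℂ) * Complex.exp (t * I)‖ = r := by
  rw [norm_mul, Complex.norm_exp_ofReal_mul_I, mul_one, Complex.norm_real, Real.norm_eq_abs,
    abs_of_nonneg hr]

lemma continuous_circle {u : ℂ → ℂ} (hd : DifferentiableOn ℂ u (Metric.ball 0 1)) {r : ℝ}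
    (hr0 : 0 ≤ r) (hr : r < 1) : Continuous fun t : ℝ => u (r * Complex.exp (t * I)) := by
  apply hd.continuousOn.comp_continuous (by fun_prop)
  intro t
  rw [mem_ball_zero_iff, norm_circle hr0]
  exact hr

lemma cauchy_bound {u : ℂ → ℂ} (hd : DifferentiableOn ℂ u (Metric.ball 0 1)) {w : ℂ} (n : ℕ)
    {r : ℝ} (hwr : ‖w‖ < r) (hr : r < 1) :
    ‖u w‖^n * (2*π) ≤ r/(r-‖w‖) * ∫ t in (0:ℝ)..2*π, ‖u (r * Complex.exp (t * I))‖^n := by
  have hr0 : 0 < r := lt_of_le_of_lt (norm_nonneg w) hwr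
  have hsub : Metric.closedBall (0:ℂ) r ⊆ Metric.ball 0 1 := Metric.closedBall_subset_ball hr
  have hdn : DifferentiableOn ℂ (fun z => u z ^ n) (Metric.ball 0 1) := hd.pow n
  have hcl : DiffContOnCl ℂ (fun z => u z ^ n) (Metric.ball 0 r) := by
    apply DifferentiableOn.diffContOnCl
    rw [closure_ball _ hr0.ne']
    exact hdn.mono hsub
  have hw : w ∈ Metric.ball (0:ℂ) r := by simpa using hwr
  have hC := hcl.circleIntegral_sub_inv_smul hw
  have hcont := continuous_circle hd hr0.le hr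
  have h0 : ‖u w‖^n * (2*π) = ‖(2 * π * I : ℂ) • (fun z => u z ^ n) w‖ := by
    simp only [smul_eq_mul, norm_mul, norm_pow, Complex.norm_I, mul_one, Complex.norm_real,
      Complex.norm_ofNat, Real.norm_eq_abs, abs_of_pos Real.pi_pos]
    ring
  rw [h0, ← hC, circleIntegral]
  have hden : ∀ t : ℝ, r - ‖w‖ ≤ ‖circleMap 0 r t - w‖ := by
    intro t
    have h1 : ‖circleMap 0 r t‖ = r := by
      rw [norm_circleMap_zero, abs_of_pos hr0]
    have h2 := norm_sub_norm_le (circleMap 0 r t) w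
    linarith
  have hpos : 0 < r - ‖w‖ := by linarith
  refine (intervalIntegral.norm_integral_le_integral_norm (by positivity)).trans ?_
  rw [← intervalIntegral.integral_const_mul]
  apply intervalIntegral.integral_mono_on (by positivity)
  · apply Continuous.intervalIntegrable
    apply Continuous.norm
    have h1 : Continuous (deriv (circleMap 0 r)) := by
      have : deriv (circleMap 0 r) = fun t => circleMap 0 r t * I := by
        funext t; exact deriv_circleMap 0 r t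
      rw [this]
      exact (continuous_circleMap 0 r).mul continuous_const
    apply h1.smul
    refine Continuous.smul (f := fun x => (circleMap 0 r x - w)⁻¹)
      (g := fun x => u (circleMap 0 r x)^n) ?_ ?_
    · apply Continuous.inv₀
      · exact (continuous_circleMap 0 r).sub continuous_const
      · intro t h
        have := hden t
        rw [h, norm_zero] at this
        linarith
    · have h2 : (fun t : ℝ => u (circleMap 0 r t) ^ n) =
          fun t : ℝ => u (r * Complex.exp (t * I)) ^ n := by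
        funext t
        rw [circleMap_zero]
      show Continuous (fun t : ℝ => u (circleMap 0 r t) ^ n)
      rw [h2]
      exact hcont.pow n
  · apply Continuous.intervalIntegrable
    exact (hcont.norm.pow n).const_mul _
  · intro t _
    rw [norm_smul, norm_smul, deriv_circleMap, norm_mul, Complex.norm_I, mul_one,
      norm_circleMap_zero, abs_of_pos hr0, norm_inv, norm_pow, circleMap_zero, ← mul_assoc]
    apply mul_le_mul_of_nonneg_right _ (pow_nonneg (norm_nonneg _) _)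
    rw [div_eq_mul_inv]
    apply mul_le_mul_of_nonneg_left _ hr0.le
    apply inv_anti₀ hpos
    have := hden t
    rwa [circleMap_zero] at this

lemma inner_norm_le {u : ℂ → ℂ} (hu : IsInner u) {w : ℂ} (hw : ‖w‖ < 1) : ‖u w‖ ≤ 1 := by
  obtain ⟨hd, ⟨C, hC⟩, hrad⟩ := hu
  have hC0 : 0 ≤ C := (norm_nonneg _).trans (hC w hw)
  have hev : ∀ᶠ r : ℝ in 𝓝[<] 1, ‖w‖ < r ∧ r < 1 := by
    have h1 : Ioo ‖w‖ 1 ∈ 𝓝[<] (1:ℝ) := Ioo_mem_nhdsLT hw
    filter_upwards [h1] with r hr using hr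
  have key : ∀ n : ℕ, ‖u w‖^n ≤ 1/(1-‖w‖) := by
    intro n
    have h2 : Tendsto (fun r : ℝ => ∫ t in (0:ℝ)..2*π, ‖u (r * Complex.exp (t * I))‖^n) (𝓝[<] 1)
        (𝓝 (∫ _t in (0:ℝ)..2*π, (1:ℝ))) := by
      apply intervalIntegral.tendsto_integral_filter_of_dominated_convergence (fun _ => C ^ n)
      · filter_upwards [hev] with r hr
        have hr0 : 0 < r := lt_of_le_of_lt (norm_nonneg w) hr.1
        exact ((continuous_circle hd hr0.le hr.2).norm.pow n).aestronglyMeasurable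
      · filter_upwards [hev] with r hr
        have hr0 : 0 < r := lt_of_le_of_lt (norm_nonneg w) hr.1
        apply Eventually.of_forall
        intro t _
        rw [Real.norm_eq_abs, abs_of_nonneg (pow_nonneg (norm_nonneg _) _)]
        apply pow_le_pow_left₀ (norm_nonneg _)
        apply hC
        rw [norm_circle hr0.le]
        exact hr.2
      · exact intervalIntegrable_const
      · filter_upwards [hrad] with t ht _
        obtain ⟨L, hL, hlim⟩ := ht
        have h3 := (hlim.norm).pow n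
        rw [hL, one_pow] at h3
        exact h3
    have h4 : Tendsto (fun r : ℝ => (r/(r-‖w‖)) * (∫ t in (0:ℝ)..2*π,
        ‖u (r * Complex.exp (t * I))‖^n)) (𝓝[<] 1)
        (𝓝 ((1/(1-‖w‖)) * (∫ _t in (0:ℝ)..2*π, (1:ℝ)))) := by
      apply Tendsto.mul _ h2
      have h5 : ContinuousAt (fun r : ℝ => r/(r-‖w‖)) 1 := by
        apply ContinuousAt.div continuousAt_id
        · exact continuousAt_id.sub continuousAt_const
        · exact (sub_pos.2 hw).ne'
      exact h5.tendsto.mono_left nhdsWithin_le_nhds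
    have h6 : ‖u w‖^n * (2*π) ≤ 1/(1-‖w‖) * ∫ _t in (0:ℝ)..2*π, (1:ℝ) := by
      apply ge_of_tendsto h4
      filter_upwards [hev] with r hr
      exact cauchy_bound hd n hr.1 hr.2
    rw [intervalIntegral.integral_const, smul_eq_mul, mul_one, sub_zero] at h6
    exact le_of_mul_le_mul_right h6 (by positivity)
  by_contra hcon
  push Not at hcon
  obtain ⟨n, hn⟩ := pow_unbounded_of_one_lt (1/(1-‖w‖)) hcon
  exact absurd (key n) (not_le.2 hn)

end Pool.Agent.Helper710.QuasiProper
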